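import Mathlib

set_option autoImplicit false
open Finset

namespace Pool.Agent.H72.PP

open Classical in
/-- Kovari-Sos-Turan for `K_{2,s}`. -/
theorem kst {α β : Type*} (X : Finset α) (Y : Finset β) (G : α → β → Prop) (s : ℕ)
    (h : ∀ x ∈ X, ∀ x' ∈ X, x ≠ x' → (Y.filter fun y => G x y ∧ G x' y).card ≤ s) :
    ∑ x ∈ X, (Y.filter fun y => G x y).card ≤ 2 * Y.card ∨
      (∑ x ∈ X, (Y.filter fun y => G x y).card) ^ 2 ≤ 2 * s * Y.card * X.card ^ 2 := by
  rcases le_or_gt (∑ x ∈ X, (Y.filter fun y => G x y).card) (2 * Y.card) with h1 | h1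
  · exact Or.inl h1
  refine Or.inr ?_
  have e1 : ∑ x ∈ X, (Y.filter fun y => G x y).card =
      ∑ y ∈ Y, ∑ x ∈ X, (if G x y then 1 else 0) := by
    rw [Finset.sum_comm]
    refine Finset.sum_congr rfl fun x _ => ?_
    rw [Finset.card_filter]
  have e2 : ∑ y ∈ Y, (∑ x ∈ X, (if G x y then 1 else 0)) ^ 2 =
      ∑ x ∈ X, ∑ x' ∈ X, (Y.filter fun y => G x y ∧ G x' y).card := by
    have : ∀ y ∈ Y, (∑ x ∈ X, (if G x y then 1 else 0)) ^ 2 =
        ∑ x ∈ X, ∑ x' ∈ X, (if G x y ∧ G x' y then 1 else 0) := by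
      intro y _
      rw [sq, Finset.sum_mul_sum]
      refine Finset.sum_congr rfl fun x _ => Finset.sum_congr rfl fun x' _ => ?_
      by_cases ha : G x y <;> by_cases hb : G x' y <;> simp [ha, hb]
    rw [Finset.sum_congr rfl this, Finset.sum_comm]
    refine Finset.sum_congr rfl fun x _ => ?_
    rw [Finset.sum_comm]
    refine Finset.sum_congr rfl fun x' _ => ?_
    rw [Finset.card_filter]
  have e3 : ∑ x ∈ X, ∑ x' ∈ X, (Y.filter fun y => G x y ∧ G x' y).card ≤
      ∑ x ∈ X, (Y.filter fun y => G x y).card + s * X.card ^ 2 := by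
    have : ∀ x ∈ X, ∑ x' ∈ X, (Y.filter fun y => G x y ∧ G x' y).card ≤
        (Y.filter fun y => G x y).card + s * X.card := by
      intro x hx
      calc ∑ x' ∈ X, (Y.filter fun y => G x y ∧ G x' y).card ≤
            ∑ x' ∈ X, ((if x' = x then (Y.filter fun y => G x y).card else 0) + s) := by
            refine Finset.sum_le_sum fun x' hx' => ?_
            by_cases hxx : x' = x
            · subst hxx
              simp
            · rw [if_neg hxx, zero_add]
              exact h x hx x' hx' (fun hh => hxx hh.symm)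
        _ = (Y.filter fun y => G x y).card + s * X.card := by
            rw [Finset.sum_add_distrib, Finset.sum_ite_eq' X x, if_pos hx, Finset.sum_const,
              smul_eq_mul, mul_comm X.card s]
    calc ∑ x ∈ X, ∑ x' ∈ X, (Y.filter fun y => G x y ∧ G x' y).card ≤
          ∑ x ∈ X, ((Y.filter fun y => G x y).card + s * X.card) := Finset.sum_le_sum this
      _ = ∑ x ∈ X, (Y.filter fun y => G x y).card + s * X.card ^ 2 := by
          rw [Finset.sum_add_distrib, Finset.sum_const, smul_eq_mul]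
          ring
  have e4 : (∑ x ∈ X, (Y.filter fun y => G x y).card) ^ 2 ≤
      Y.card * (∑ x ∈ X, (Y.filter fun y => G x y).card + s * X.card ^ 2) := by
    calc (∑ x ∈ X, (Y.filter fun y => G x y).card) ^ 2 =
          (∑ y ∈ Y, ∑ x ∈ X, (if G x y then 1 else 0)) ^ 2 := by rw [e1]
      _ ≤ Y.card * ∑ y ∈ Y, (∑ x ∈ X, (if G x y then 1 else 0)) ^ 2 :=
          sq_sum_le_card_mul_sum_sq
      _ ≤ Y.card * (∑ x ∈ X, (Y.filter fun y => G x y).card + s * X.card ^ 2) := by
          rw [e2]
          exact Nat.mul_le_mul_left _ e3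
  generalize (∑ x ∈ X, (Y.filter fun y => G x y).card) = e at *
  nlinarith

end Pool.Agent.H72.PP
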