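import Pool.Agent.H72.PP.Defs
import Pool.Agent.H72.PP.Kst

set_option autoImplicit false
open Finset

namespace Pool.Agent.H72.PP

/-- two distinct planes through `x` meet in a line through `x`. -/
theorem line_of_two {x y y' : E} (hy : Inc x y) (hy' : Inc x y') (hne : y ≠ y') {u w : E}
    (hu : u ≠ 0) (h1 : inner ℝ y u = 0) (h2 : inner ℝ y' u = 0) (h3 : inner ℝ y w = 0)
    (h4 : inner ℝ y' w = 0) : ∃ c : ℝ, w = c • u := by
  have hli : LinearIndependent ℝ ![y, y'] := by
    rw [LinearIndependent.pair_iff]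
    intro a b hab
    have h5 : inner ℝ (a • y + b • y') x = a + b := by
      rw [inner_add_left, real_inner_smul_left, real_inner_smul_left]
      unfold Inc at hy hy'
      rw [hy, hy']
      ring
    rw [hab, inner_zero_left] at h5
    have hb : b = -a := by linarith
    subst hb
    have h6 : a • (y - y') = 0 := by
      rw [smul_sub, ← hab, neg_smul, sub_eq_add_neg]
    rcases smul_eq_zero.1 h6 with h7 | h7
    · exact ⟨h7, by rw [h7, neg_zero]⟩
    · exact absurd (sub_eq_zero.1 h7) hne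
  have hfr : Module.finrank ℝ (Submodule.span ℝ (Set.range ![y, y'])) = 2 := by
    rw [finrank_span_eq_card hli]
    rfl
  have horth := Submodule.finrank_add_finrank_orthogonal (Submodule.span ℝ (Set.range ![y, y']))
  rw [hfr, finrank_euclideanSpace, Fintype.card_fin] at horth
  have h1' : Module.finrank ℝ (Submodule.span ℝ (Set.range ![y, y']))ᗮ = 1 := by omega
  have hmem : ∀ v : E, inner ℝ y v = 0 → inner ℝ y' v = 0 →
      v ∈ (Submodule.span ℝ (Set.range ![y, y']))ᗮ := by
    intro v hv hv'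
    rw [Submodule.mem_orthogonal]
    intro z hz
    induction hz using Submodule.span_induction with
    | mem z hz =>
      obtain ⟨i, rfl⟩ := hz
      fin_cases i
      · exact hv
      · exact hv'
    | zero => exact inner_zero_left _
    | add a b _ _ ha hb => rw [inner_add_left, ha, hb, add_zero]
    | smul a b _ hb => rw [real_inner_smul_left, hb, mul_zero]
  have hu' : (⟨u, hmem u h1 h2⟩ : (Submodule.span ℝ (Set.range ![y, y']))ᗮ) ≠ 0 := by
    intro h
    exact hu (congrArg Subtype.val h)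
  obtain ⟨c, hc⟩ := exists_smul_eq_of_finrank_eq_one h1' hu' ⟨w, hmem w h3 h4⟩
  exact ⟨c, (congrArg Subtype.val hc).symm⟩

/-- the points of a line through two points of a plane lie on the plane -/
theorem inc_line {p r y : E} (hp : Inc p y) (hr : Inc r y) (c : ℝ) :
    Inc (p + c • (r - p)) y := by
  unfold Inc at *
  rw [inner_add_right, real_inner_smul_right, inner_sub_right, hp, hr]
  ring

theorem inner_sub_of_inc {p r y : E} (hp : Inc p y) (hr : Inc r y) :
    inner ℝ y (r - p) = 0 := by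
  unfold Inc at *
  rw [inner_sub_right, hp, hr, sub_self]

theorem inc_add_smul {p u y : E} (hp : Inc p y) (hu : inner ℝ y u = 0) (c : ℝ) :
    Inc (p + c • u) y := by
  unfold Inc at *
  rw [inner_add_right, real_inner_smul_right, hp, hu]
  ring

open Classical in
/-- points all lying on many planes are few -/
theorem Free.card_lt {s : ℕ} {X Y : Finset E} (hf : Free s X Y) {S T : Finset E} (hS : S ⊆ X)
    (hT : T ⊆ Y) (hs : s ≤ T.card) (h : ∀ x ∈ S, ∀ y ∈ T, Inc x y) : S.card < s := by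
  by_contra hc
  push Not at hc
  obtain ⟨S', hS', hSc⟩ := Finset.exists_subset_card_eq hc
  obtain ⟨T', hT', hTc⟩ := Finset.exists_subset_card_eq hs
  obtain ⟨x, hx, y, hy, hxy⟩ := hf S' (hS'.trans hS) hSc T' (hT'.trans hT) hTc
  exact hxy (h x (hS' hx) y (hT' hy))

open Classical in
/-- the number of A-incidences. -/
theorem aInc_count (s : ℕ) (hs : 2 ≤ s) (X Y : Finset E) (hf : Free s X Y) :
    ∑ x ∈ X, (Y.filter fun y => AInc s Y x y).card ≤ 2 * Y.card ^ 2 := by
  let Pr : E → E → E → Prop := fun x y y' => y ≠ y' ∧ Inc x y ∧ Inc x y' ∧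
    ∃ u : E, u ≠ 0 ∧ inner ℝ y u = 0 ∧ inner ℝ y' u = 0 ∧
      s ≤ (Y.filter fun y'' => Inc x y'' ∧ inner ℝ y'' u = 0).card
  have h1 : ∀ x ∈ X, (s - 1) * (Y.filter fun y => AInc s Y x y).card
      ≤ ∑ y ∈ Y, ∑ y' ∈ Y, if Pr x y y' then 1 else 0 := by
    intro x _
    rw [Finset.card_filter, Finset.mul_sum]
    apply Finset.sum_le_sum
    intro y hy
    split_ifs with hA
    · obtain ⟨hxy, u, hu, hyu, hcard⟩ := hA
      rw [mul_one, ← Finset.card_filter]
      calc s - 1 ≤ ((Y.filter fun y' => Inc x y' ∧ inner ℝ y' u = 0).erase y).card := by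
            rw [Finset.card_erase_of_mem (Finset.mem_filter.2 ⟨hy, hxy, hyu⟩)]
            omega
        _ ≤ (Y.filter fun y' => Pr x y y').card := by
            apply Finset.card_le_card
            intro y' hy'
            rw [Finset.mem_erase, Finset.mem_filter] at hy'
            exact Finset.mem_filter.2 ⟨hy'.2.1, Ne.symm hy'.1, hxy, hy'.2.2.1, u, hu, hyu,
              hy'.2.2.2, hcard⟩
    · rw [mul_zero]
      exact Nat.zero_le _
  have h2 : ∀ y ∈ Y, ∀ y' ∈ Y, ∑ x ∈ X, (if Pr x y y' then 1 else 0) ≤ s - 1 := by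
    intro y _ y' _
    rw [← Finset.card_filter]
    rcases (X.filter fun x => Pr x y y').eq_empty_or_nonempty with he | ⟨x₁, hx₁⟩
    · rw [he, Finset.card_empty]
      exact Nat.zero_le _
    · obtain ⟨hx₁X, hne, hi, hi', u, hu, hyu, hyu', hcard⟩ := Finset.mem_filter.1 hx₁
      have hlt := hf.card_lt (S := X.filter fun x => Pr x y y')
        (T := Y.filter fun y'' => Inc x₁ y'' ∧ inner ℝ y'' u = 0)
        (Finset.filter_subset _ _) (Finset.filter_subset _ _) hcard (by
          intro x hx y'' hy''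
          obtain ⟨_, _, hxi, hxi', _⟩ := Finset.mem_filter.1 hx
          obtain ⟨_, hy1, hy2⟩ := Finset.mem_filter.1 hy''
          obtain ⟨c, hc⟩ := line_of_two hi hi' hne hu hyu hyu' (inner_sub_of_inc hi hxi)
            (inner_sub_of_inc hi' hxi')
          have hx2 : x = x₁ + c • u := by rw [← hc]; abel
          rw [hx2]
          exact inc_add_smul hy1 hy2 c)
      omega
  have h3 : (s - 1) * ∑ x ∈ X, (Y.filter fun y => AInc s Y x y).card
      ≤ (s - 1) * Y.card ^ 2 := by
    calc (s - 1) * ∑ x ∈ X, (Y.filter fun y => AInc s Y x y).card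
        = ∑ x ∈ X, (s - 1) * (Y.filter fun y => AInc s Y x y).card := by rw [Finset.mul_sum]
      _ ≤ ∑ x ∈ X, ∑ y ∈ Y, ∑ y' ∈ Y, (if Pr x y y' then 1 else 0) := Finset.sum_le_sum h1
      _ = ∑ y ∈ Y, ∑ y' ∈ Y, ∑ x ∈ X, (if Pr x y y' then 1 else 0) := by
          rw [Finset.sum_comm]
          apply Finset.sum_congr rfl
          intro y _
          rw [Finset.sum_comm]
      _ ≤ ∑ _y ∈ Y, ∑ _y' ∈ Y, (s - 1) := by
          apply Finset.sum_le_sum
          intro y hy
          apply Finset.sum_le_sum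
          intro y' hy'
          exact h2 y hy y' hy'
      _ = (s - 1) * Y.card ^ 2 := by
          rw [Finset.sum_const, Finset.sum_const, smul_eq_mul, smul_eq_mul]
          ring
  have h4 := Nat.le_of_mul_le_mul_left h3 (by omega)
  omega

open Classical in
/-- two points have few common planes at which both are not A-incident. -/
theorem common_le (s : ℕ) (Y : Finset E) {x x' : E} (hne : x ≠ x') :
    (Y.filter fun y => (Inc x y ∧ ¬ AInc s Y x y) ∧ (Inc x' y ∧ ¬ AInc s Y x' y)).card ≤ s := by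
  by_contra hc
  push Not at hc
  have hpos : 0 < (Y.filter fun y => (Inc x y ∧ ¬ AInc s Y x y) ∧
      (Inc x' y ∧ ¬ AInc s Y x' y)).card := by omega
  obtain ⟨y, hy⟩ := Finset.card_pos.1 hpos
  obtain ⟨_, ⟨hxy, hnA⟩, hxy', _⟩ := Finset.mem_filter.1 hy
  apply hnA
  refine ⟨hxy, x' - x, sub_ne_zero.2 hne.symm, inner_sub_of_inc hxy hxy', ?_⟩
  refine hc.le.trans (Finset.card_le_card ?_)
  intro z hz
  obtain ⟨hzY, ⟨hz1, _⟩, hz2, _⟩ := Finset.mem_filter.1 hz
  exact Finset.mem_filter.2 ⟨hzY, hz1, inner_sub_of_inc hz1 hz2⟩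

open Classical in
/-- a line in at least `s` planes has at most `s` points. -/
theorem line_points (s : ℕ) (X Y : Finset E) (hf : Free s X Y) {p r : E} (hpr : p ≠ r)
    (hs : s ≤ (Y.filter fun y => Inc p y ∧ Inc r y).card) :
    (X.filter fun x => ∃ c : ℝ, x = p + c • (r - p)).card ≤ s := by
  refine (hf.card_lt (Finset.filter_subset _ _) (Finset.filter_subset _ _) hs ?_).le
  intro x hx y hy
  obtain ⟨_, c, rfl⟩ := Finset.mem_filter.1 hx
  obtain ⟨_, h1, h2⟩ := Finset.mem_filter.1 hy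
  exact inc_line h1 h2 c

/-- membership as a relation -/
def MemR (G : Finset E) (y : E) : Prop := y ∈ G

/-- planes containing many points of few lines. -/
theorem exc_count (s : ℕ) (hs : 2 ≤ s) (X Y : Finset E) (hf : Free s X Y) (D : Finset (E × E))
    (T : E → Finset E)
    (hT : ∀ x ∈ X, T x ⊆ Y ∧ ((T x).card ≤ s ∨ ∃ l ∈ D, l.1 ≠ l.2 ∧
      (∃ c : ℝ, x = l.1 + c • (l.2 - l.1)) ∧ ∀ y ∈ T x, Inc l.1 y ∧ Inc l.2 y)) :
    ∃ e : ℕ, ∑ x ∈ X, (T x).card ≤ s * X.card + s * e ∧
      (e ≤ 2 * Y.card ∨ e ^ 2 ≤ 2 * Y.card * D.card ^ 2) := by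
  classical
  let F : E × E → Finset E := fun l => Y.filter fun y => Inc l.1 y ∧ Inc l.2 y
  let FF : Finset (Finset E) := (D.filter fun l => l.1 ≠ l.2 ∧ s ≤ (F l).card).image F
  have hFFc : FF.card ≤ D.card :=
    Finset.card_image_le.trans (Finset.card_filter_le _ _)
  have hFY : ∀ G ∈ FF, G ⊆ Y := by
    intro G hG
    obtain ⟨l, _, rfl⟩ := Finset.mem_image.1 hG
    exact Finset.filter_subset _ _
  have hFs : ∀ G ∈ FF, s ≤ G.card := by
    intro G hG
    obtain ⟨l, hl, rfl⟩ := Finset.mem_image.1 hG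
    exact (Finset.mem_filter.1 hl).2.2
  have hk := kst FF Y MemR 1 (by
    intro G hG G' hG' hne
    by_contra hc
    push Not at hc
    obtain ⟨y, hy, y', hy', hyy⟩ := Finset.one_lt_card.1 hc
    obtain ⟨l, hl, rfl⟩ := Finset.mem_image.1 hG
    obtain ⟨l', hl', rfl⟩ := Finset.mem_image.1 hG'
    obtain ⟨_, hyl, hyl'⟩ := Finset.mem_filter.1 hy
    obtain ⟨_, hyl2, hyl2'⟩ := Finset.mem_filter.1 hy'
    obtain ⟨_, a1, a2⟩ := Finset.mem_filter.1 hyl
    obtain ⟨_, a3, a4⟩ := Finset.mem_filter.1 hyl'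
    obtain ⟨_, b1, b2⟩ := Finset.mem_filter.1 hyl2
    obtain ⟨_, b3, b4⟩ := Finset.mem_filter.1 hyl2'
    obtain ⟨_, hlne, _⟩ := Finset.mem_filter.1 hl
    obtain ⟨_, hlne', _⟩ := Finset.mem_filter.1 hl'
    -- a plane containing one line contains the other
    have key : ∀ p r p' r' : E, p ≠ r → Inc p y → Inc r y → Inc p y' → Inc r y' →
        Inc p' y → Inc r' y → Inc p' y' → Inc r' y' → ∀ z, Inc p z → Inc r z →
          Inc p' z ∧ Inc r' z := by
      intro p r p' r' hpr c1 c2 c3 c4 c5 c6 c7 c8 z hz1 hz2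
      have hu : r - p ≠ 0 := sub_ne_zero.2 hpr.symm
      obtain ⟨c, hc⟩ := line_of_two c1 c3 hyy hu (inner_sub_of_inc c1 c2)
        (inner_sub_of_inc c3 c4) (inner_sub_of_inc c1 c5) (inner_sub_of_inc c3 c7)
      obtain ⟨d, hd⟩ := line_of_two c1 c3 hyy hu (inner_sub_of_inc c1 c2)
        (inner_sub_of_inc c3 c4) (inner_sub_of_inc c1 c6) (inner_sub_of_inc c3 c8)
      have e1 : p' = p + c • (r - p) := by rw [← hc]; abel
      have e2 : r' = p + d • (r - p) := by rw [← hd]; abel
      rw [e1, e2]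
      exact ⟨inc_line hz1 hz2 c, inc_line hz1 hz2 d⟩
    apply hne
    ext z
    constructor
    · intro hz
      obtain ⟨hzY, hz1, hz2⟩ := Finset.mem_filter.1 hz
      exact Finset.mem_filter.2 ⟨hzY, key _ _ _ _ hlne a1 a2 b1 b2 a3 a4 b3 b4 z hz1 hz2⟩
    · intro hz
      obtain ⟨hzY, hz1, hz2⟩ := Finset.mem_filter.1 hz
      exact Finset.mem_filter.2 ⟨hzY, key _ _ _ _ hlne' a3 a4 b3 b4 a1 a2 b1 b2 z hz1 hz2⟩)
  have hsum : ∑ G ∈ FF, (Y.filter fun y => MemR G y).card = ∑ G ∈ FF, G.card := by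
    refine Finset.sum_congr rfl fun G hG => ?_
    have : (Y.filter fun y => MemR G y) = G := by
      ext y
      rw [Finset.mem_filter]
      exact ⟨fun h => h.2, fun h => ⟨hFY G hG h, h⟩⟩
    rw [this]
  rw [hsum] at hk
  refine ⟨∑ G ∈ FF, G.card, ?_, ?_⟩
  · have hx : ∀ x ∈ X, (T x).card ≤ s + ∑ G ∈ FF, if (∀ y ∈ G, Inc x y) then G.card else 0 := by
      intro x hx
      obtain ⟨hTY, h⟩ := hT x hx
      rcases h with h | ⟨l, hl, hlne, ⟨c, hc⟩, hall⟩
      · exact h.trans (Nat.le_add_right _ _)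
      · rcases Nat.lt_or_ge (T x).card s with hlt | hge
        · exact hlt.le.trans (Nat.le_add_right _ _)
        · have hsub : T x ⊆ F l := fun y hy => Finset.mem_filter.2 ⟨hTY hy, hall y hy⟩
          have hmem : F l ∈ FF := Finset.mem_image.2 ⟨l, Finset.mem_filter.2
            ⟨hl, hlne, hge.trans (Finset.card_le_card hsub)⟩, rfl⟩
          have hinc : ∀ y ∈ F l, Inc x y := by
            intro y hy
            obtain ⟨_, h1, h2⟩ := Finset.mem_filter.1 hy
            rw [hc]
            exact inc_line h1 h2 c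
          calc (T x).card ≤ (F l).card := Finset.card_le_card hsub
            _ = if (∀ y ∈ F l, Inc x y) then (F l).card else 0 := by rw [if_pos hinc]
            _ ≤ ∑ G ∈ FF, if (∀ y ∈ G, Inc x y) then G.card else 0 :=
              Finset.single_le_sum (f := fun G : Finset E =>
                if (∀ y ∈ G, Inc x y) then G.card else 0) (fun _ _ => Nat.zero_le _) hmem
            _ ≤ _ := Nat.le_add_left _ _
    calc ∑ x ∈ X, (T x).card
        ≤ ∑ x ∈ X, (s + ∑ G ∈ FF, if (∀ y ∈ G, Inc x y) then G.card else 0) :=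
          Finset.sum_le_sum hx
      _ = s * X.card + ∑ G ∈ FF, ∑ x ∈ X, (if (∀ y ∈ G, Inc x y) then G.card else 0) := by
          rw [Finset.sum_add_distrib, Finset.sum_const, smul_eq_mul, mul_comm, Finset.sum_comm]
      _ ≤ s * X.card + ∑ G ∈ FF, s * G.card := by
          apply Nat.add_le_add_left
          apply Finset.sum_le_sum
          intro G hG
          rw [← Finset.sum_filter, Finset.sum_const, smul_eq_mul]
          apply Nat.mul_le_mul_right
          refine (hf.card_lt (Finset.filter_subset _ _) (hFY G hG) (hFs G hG) ?_).le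
          intro x hx y hy
          exact (Finset.mem_filter.1 hx).2 y hy
      _ = s * X.card + s * ∑ G ∈ FF, G.card := by rw [Finset.mul_sum]
  · rcases hk with h | h
    · exact Or.inl h
    · right
      calc (∑ G ∈ FF, G.card) ^ 2 ≤ 2 * 1 * Y.card * FF.card ^ 2 := h
        _ = 2 * Y.card * FF.card ^ 2 := by ring
        _ ≤ 2 * Y.card * D.card ^ 2 :=
          Nat.mul_le_mul_left _ (Nat.pow_le_pow_left hFFc 2)

/-- points on a line in at least `s` planes are A-incident to these planes. -/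
theorem aInc_of_line (s : ℕ) (Y : Finset E) {x p r : E} (hpr : p ≠ r)
    (hx : ∃ c : ℝ, x = p + c • (r - p)) (T : Finset E) (hT : T ⊆ Y) (hs : s ≤ T.card)
    (h : ∀ y ∈ T, Inc p y ∧ Inc r y) : ∀ y ∈ T, AInc s Y x y := by
  classical
  obtain ⟨c, rfl⟩ := hx
  intro y hy
  refine ⟨inc_line (h y hy).1 (h y hy).2 c, r - p, sub_ne_zero.2 hpr.symm,
    inner_sub_of_inc (h y hy).1 (h y hy).2, ?_⟩
  refine hs.trans (Finset.card_le_card ?_)
  intro z hz
  exact Finset.mem_filter.2 ⟨hT hz, inc_line (h z hz).1 (h z hz).2 c,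
    inner_sub_of_inc (h z hz).1 (h z hz).2⟩

end Pool.Agent.H72.PP
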