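import Pool.Agent.H72.PP.Defs

set_option autoImplicit false
open Finset

namespace Pool.Agent.H72.PP

/-- the affine function with coefficients `f`. -/
noncomputable def aff (f : ℝ × E) (z : E) : ℝ := f.1 + inner ℝ f.2 z

theorem continuous_aff (f : ℝ × E) : Continuous (aff f) := by
  unfold aff
  fun_prop

/-- an affine function vanishing at `v` and `w` vanishes on their line. -/
theorem aff_add_smul (f : ℝ × E) (v x : E) (t : ℝ) :
    aff f (v + t • (x - v)) = aff f v + t * (aff f x - aff f v) := by
  unfold aff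
  rw [inner_add_right, real_inner_smul_right, inner_sub_right]
  ring

theorem dense_aff (f : ℝ × E) (hf : f ≠ 0) : Dense {z : E | aff f z ≠ 0} := by
  rw [Metric.dense_iff]
  intro x r hr
  by_cases h : aff f x = 0
  · have h2 : f.2 ≠ 0 := by
      intro h2
      apply hf
      unfold aff at h
      rw [h2, inner_zero_left, add_zero] at h
      exact Prod.ext h h2
    have hn : 0 < ‖f.2‖ := norm_pos_iff.2 h2
    refine ⟨x + (r / 2 / ‖f.2‖) • f.2, ?_, ?_⟩
    · rw [Metric.mem_ball, dist_eq_norm, add_sub_cancel_left, norm_smul, Real.norm_eq_abs,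
        abs_of_pos (by positivity), div_mul_cancel₀ _ hn.ne']
      linarith
    · show aff f (x + (r / 2 / ‖f.2‖) • f.2) ≠ 0
      unfold aff at h ⊢
      rw [inner_add_right, real_inner_smul_right, real_inner_self_eq_norm_sq]
      have : 0 < r / 2 / ‖f.2‖ * ‖f.2‖ ^ 2 := by positivity
      linarith
  · exact ⟨x, Metric.mem_ball_self hr, h⟩

/-- the zero sets of finitely many nonzero affine functions do not cover any open set. -/
theorem avoid (F : Finset (ℝ × E)) (hF : ∀ f ∈ F, f ≠ 0) (x : E) {U : Set E} (hU : U ∈ nhds x) :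
    ∃ q ∈ U, ∀ f ∈ F, aff f q ≠ 0 := by
  have hopen : ∀ f : ℝ × E, IsOpen {z : E | aff f z ≠ 0} := fun f =>
    isOpen_ne_fun (continuous_aff f) continuous_const
  have hd : Dense (⋂ f ∈ (F : Set (ℝ × E)), {z : E | aff f z ≠ 0}) := by
    refine dense_biInter_of_isOpen (fun f _ => hopen f) F.countable_toSet fun f hf => ?_
    exact dense_aff f (hF f (Finset.mem_coe.1 hf))
  obtain ⟨V, hVU, hVo, hxV⟩ := mem_nhds_iff.1 hU
  obtain ⟨q, hq1, hq2⟩ := hd.inter_open_nonempty V hVo ⟨x, hxV⟩
  refine ⟨q, hVU hq1, fun f hf => ?_⟩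
  simp only [Set.mem_iInter] at hq2
  exact hq2 f (Finset.mem_coe.2 hf)

/-- some nonzero affine function vanishes at three given points. -/
theorem exists_three (p r s : E) :
    ∃ f : ℝ × E, f ≠ 0 ∧ aff f p = 0 ∧ aff f r = 0 ∧ aff f s = 0 := by
  set S : Submodule ℝ E := Submodule.span ℝ {r - p, s - p} with hS
  have hS2 : Module.finrank ℝ S ≤ 2 := by
    have h1 := finrank_span_finset_le_card (R := ℝ) ({r - p, s - p} : Finset E)
    rw [Finset.coe_insert, Finset.coe_singleton] at h1
    exact h1.trans card_le_two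
  have hE : Module.finrank ℝ E = 3 := by simp
  have hne : Sᗮ ≠ ⊥ := by
    intro h
    have := Submodule.finrank_add_finrank_orthogonal S
    rw [h, finrank_bot, hE] at this
    omega
  obtain ⟨n, hn, hn0⟩ := Submodule.exists_mem_ne_zero_of_ne_bot hne
  rw [Submodule.mem_orthogonal'] at hn
  have h1 := hn (r - p) (Submodule.subset_span (by simp))
  have h2 := hn (s - p) (Submodule.subset_span (by simp))
  rw [inner_sub_right] at h1 h2
  refine ⟨(-inner ℝ n p, n), ?_, ?_, ?_, ?_⟩
  · intro h
    exact hn0 (Prod.ext_iff.1 h).2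
  · unfold aff
    simp
  · unfold aff
    simp only
    linarith
  · unfold aff
    simp only
    linarith

end Pool.Agent.H72.PP
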