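import Pool.Agent.H72.PP.Defs

set_option autoImplicit false
open Finset

namespace Pool.Agent.H72.PP

open Classical in
/-- double counting between samples of size `ρ` and `ρ + 1`. -/
theorem sampling {Ω : Type*} (Y : Finset E) (ob : Finset E → Ω) (cr : E → Ω → Prop) (b : ℕ)
    (h1 : ∀ R ⊆ Y, (R.filter fun y => ob (R.erase y) ≠ ob R).card ≤ b)
    (h2 : ∀ R ⊆ Y, ∀ y ∈ R, ¬ cr y (ob R)) (ρ : ℕ) :
    ∑ R ∈ Y.powersetCard ρ, (Y.filter fun y => cr y (ob R)).card ≤ b * Y.card.choose (ρ + 1) := by
  calc ∑ R ∈ Y.powersetCard ρ, (Y.filter fun y => cr y (ob R)).card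
      = ((Y.powersetCard ρ).sigma (fun R => Y.filter fun y => cr y (ob R))).card :=
        (Finset.card_sigma _ _).symm
    _ ≤ ((Y.powersetCard (ρ + 1)).sigma
          (fun R => R.filter fun y => ob (R.erase y) ≠ ob R)).card := by
        have hno : ∀ R ⊆ Y, ∀ y, cr y (ob R) → y ∉ R := fun R hR y hc hy => h2 R hR y hy hc
        apply Finset.card_le_card_of_injOn (fun p => ⟨insert p.2 p.1, p.2⟩)
        · rintro ⟨R, y⟩ hp
          simp only [Finset.coe_sigma, Set.mem_sigma_iff, Finset.mem_coe,
            Finset.mem_powersetCard, Finset.mem_filter] at hp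
          obtain ⟨⟨hRY, hRc⟩, hyY, hcr⟩ := hp
          have hyR := hno R hRY y hcr
          have hsub : insert y R ⊆ Y := Finset.insert_subset hyY hRY
          simp only [Finset.coe_sigma, Set.mem_sigma_iff, Finset.mem_coe,
            Finset.mem_powersetCard, Finset.mem_filter]
          refine ⟨⟨hsub, by rw [Finset.card_insert_of_notMem hyR, hRc]⟩,
            Finset.mem_insert_self _ _, ?_⟩
          rw [Finset.erase_insert hyR]
          intro he
          apply h2 _ hsub y (Finset.mem_insert_self _ _)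
          rw [← he]
          exact hcr
        · rintro ⟨R, y⟩ hp ⟨R', y'⟩ hp' he
          simp only [Finset.coe_sigma, Set.mem_sigma_iff, Finset.mem_coe,
            Finset.mem_powersetCard, Finset.mem_filter] at hp hp'
          obtain ⟨⟨hRY, hRc⟩, hyY, hcr⟩ := hp
          obtain ⟨⟨hRY', hRc'⟩, hyY', hcr'⟩ := hp'
          have hyR := hno R hRY y hcr
          have hyR' := hno R' hRY' y' hcr'
          simp only [Sigma.mk.injEq, heq_eq_eq] at he
          obtain ⟨he1, he2⟩ := he
          subst he2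
          have : R = R' := by
            rw [← Finset.erase_insert hyR, he1, Finset.erase_insert hyR']
          subst this
          rfl
    _ = ∑ R ∈ Y.powersetCard (ρ + 1), (R.filter fun y => ob (R.erase y) ≠ ob R).card :=
        Finset.card_sigma _ _
    _ ≤ ∑ _R ∈ Y.powersetCard (ρ + 1), b :=
        Finset.sum_le_sum fun R hR => h1 R (Finset.mem_powersetCard.1 hR).1
    _ = b * Y.card.choose (ρ + 1) := by
        rw [Finset.sum_const, Finset.card_powersetCard, smul_eq_mul, mul_comm]

open Classical in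
/-- the number of samples of size `ρ` containing a given element -/
theorem card_samples_mem (Y : Finset E) (ρ : ℕ) {y : E} (hy : y ∈ Y) :
    ((Y.powersetCard ρ).filter fun R => y ∈ R).card ≤ (Y.card - 1).choose (ρ - 1) := by
  rw [← Finset.card_erase_of_mem hy, ← Finset.card_powersetCard]
  apply Finset.card_le_card_of_injOn (fun R => R.erase y)
  · intro R hR
    simp only [Finset.coe_filter, Finset.mem_powersetCard, Set.mem_ofPred_eq] at hR
    simp only [Finset.mem_coe, Finset.mem_powersetCard]
    exact ⟨Finset.erase_subset_erase _ hR.1.1, by rw [Finset.card_erase_of_mem hR.2, hR.1.2]⟩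
  · intro R hR R' hR' he
    simp only [Finset.coe_filter, Finset.mem_powersetCard, Set.mem_ofPred_eq] at hR hR'
    simp only at he
    rw [← Finset.insert_erase hR.2, he, Finset.insert_erase hR'.2]

open Classical in
/-- the number of pairs (point, sample) such that the point lies on a plane of the sample. -/
theorem on_sample (X Y : Finset E) (k ρ : ℕ) (hρ : 1 ≤ ρ) (hX : ∀ x ∈ X, (nb Y x).card ≤ k) :
    ∑ R ∈ Y.powersetCard ρ, (X.filter fun x => ∃ y ∈ R, Inc x y).card ≤
      X.card * k * (Y.card - 1).choose (ρ - 1) := by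
  have h1 : ∀ R ∈ Y.powersetCard ρ, (X.filter fun x => ∃ y ∈ R, Inc x y).card
      ≤ ∑ x ∈ X, ∑ y ∈ nb Y x, if y ∈ R then 1 else 0 := by
    intro R hR
    have hRY := (Finset.mem_powersetCard.1 hR).1
    rw [Finset.card_filter]
    apply Finset.sum_le_sum
    intro x _
    split_ifs with h
    · obtain ⟨y, hy, hxy⟩ := h
      have hmem : y ∈ nb Y x := by
        unfold nb
        exact Finset.mem_filter.2 ⟨hRY hy, hxy⟩
      calc (1 : ℕ) = if y ∈ R then 1 else 0 := by rw [if_pos hy]
        _ ≤ ∑ y ∈ nb Y x, if y ∈ R then 1 else 0 :=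
          Finset.single_le_sum (f := fun y => if y ∈ R then 1 else 0)
            (fun _ _ => Nat.zero_le _) hmem
    · exact Nat.zero_le _
  calc ∑ R ∈ Y.powersetCard ρ, (X.filter fun x => ∃ y ∈ R, Inc x y).card
      ≤ ∑ R ∈ Y.powersetCard ρ, ∑ x ∈ X, ∑ y ∈ nb Y x, (if y ∈ R then 1 else 0) :=
        Finset.sum_le_sum h1
    _ = ∑ x ∈ X, ∑ y ∈ nb Y x, ∑ R ∈ Y.powersetCard ρ, (if y ∈ R then 1 else 0) := by
        rw [Finset.sum_comm]
        apply Finset.sum_congr rfl
        intro x _
        rw [Finset.sum_comm]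
    _ ≤ ∑ x ∈ X, ∑ _y ∈ nb Y x, (Y.card - 1).choose (ρ - 1) := by
        apply Finset.sum_le_sum
        intro x _
        apply Finset.sum_le_sum
        intro y hy
        have hyY : y ∈ Y := by
          unfold nb at hy
          exact (Finset.mem_filter.1 hy).1
        rw [← Finset.card_filter]
        exact card_samples_mem Y ρ hyY
    _ = ∑ x ∈ X, (nb Y x).card * (Y.card - 1).choose (ρ - 1) := by
        apply Finset.sum_congr rfl
        intro x _
        rw [Finset.sum_const, smul_eq_mul]
    _ ≤ ∑ _x ∈ X, k * (Y.card - 1).choose (ρ - 1) := by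
        apply Finset.sum_le_sum
        intro x hx
        exact Nat.mul_le_mul_right _ (hX x hx)
    _ = X.card * k * (Y.card - 1).choose (ρ - 1) := by
        rw [Finset.sum_const, smul_eq_mul, mul_assoc]

open Classical in
/-- a good sample. -/
theorem good_sample {Ω : Type*} (X Y : Finset E) (ob : E → Finset E → Ω) (cr : E → Ω → Prop)
    (b k ρ : ℕ) (hρ : 1 ≤ ρ) (hb : 1 ≤ b) (hk1 : 1 ≤ k)
    (h1 : ∀ x ∈ X, ∀ R ⊆ Y, (R.filter fun y => ob x (R.erase y) ≠ ob x R).card ≤ b)
    (h2 : ∀ x ∈ X, ∀ R ⊆ Y, ∀ y ∈ R, ¬ cr y (ob x R))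
    (hX : ∀ x ∈ X, (nb Y x).card ≤ k) (hk : 8 * k * ρ ≤ Y.card) :
    ∃ R ⊆ Y, R.card = ρ ∧ 4 * (X.filter fun x => ∃ y ∈ R, Inc x y).card ≤ X.card ∧
      4 * (X.filter fun x => 8 * b * Y.card < ρ * (Y.filter fun y => cr y (ob x R)).card).card ≤
        X.card := by
  by_contra hcon
  push Not at hcon
  have hρM : ρ ≤ Y.card := by nlinarith
  have hMpos : 0 < Y.card := by omega
  have hPne : (Y.powersetCard ρ).Nonempty := Finset.powersetCard_nonempty.2 hρM
  -- strict inequality
  have hstrict : ∑ _R ∈ Y.powersetCard ρ, X.card < ∑ R ∈ Y.powersetCard ρ,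
      (4 * (X.filter fun x => ∃ y ∈ R, Inc x y).card +
        4 * (X.filter fun x =>
          8 * b * Y.card < ρ * (Y.filter fun y => cr y (ob x R)).card).card) := by
    apply Finset.sum_lt_sum_of_nonempty hPne
    intro R hR
    obtain ⟨hRY, hRc⟩ := Finset.mem_powersetCard.1 hR
    by_cases hA : 4 * (X.filter fun x => ∃ y ∈ R, Inc x y).card ≤ X.card
    · have := hcon R hRY hRc hA
      omega
    · omega
  rw [Finset.sum_const, Finset.card_powersetCard, smul_eq_mul, Finset.sum_add_distrib,
    ← Finset.mul_sum, ← Finset.mul_sum] at hstrict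
  -- first sum
  have hA := on_sample X Y k ρ hρ hX
  have hch1 : Y.card * (Y.card - 1).choose (ρ - 1) = Y.card.choose ρ * ρ := by
    have := Nat.add_one_mul_choose_eq (Y.card - 1) (ρ - 1)
    rw [Nat.sub_add_cancel hMpos, Nat.sub_add_cancel hρ] at this
    exact this
  have hA2 : 8 * ∑ R ∈ Y.powersetCard ρ, (X.filter fun x => ∃ y ∈ R, Inc x y).card
      ≤ X.card * Y.card.choose ρ := by
    apply Nat.le_of_mul_le_mul_left _ hMpos
    calc Y.card * (8 * ∑ R ∈ Y.powersetCard ρ, (X.filter fun x => ∃ y ∈ R, Inc x y).card)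
        ≤ Y.card * (8 * (X.card * k * (Y.card - 1).choose (ρ - 1))) := by
          apply Nat.mul_le_mul_left
          apply Nat.mul_le_mul_left
          exact hA
      _ = 8 * (X.card * k) * (Y.card * (Y.card - 1).choose (ρ - 1)) := by ring
      _ = X.card * Y.card.choose ρ * (8 * k * ρ) := by rw [hch1]; ring
      _ ≤ X.card * Y.card.choose ρ * Y.card := Nat.mul_le_mul_left _ hk
      _ = Y.card * (X.card * Y.card.choose ρ) := by ring
  -- second sum
  have hC1 : ∀ x ∈ X, 8 * ((Y.powersetCard ρ).filter fun R =>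
      8 * b * Y.card < ρ * (Y.filter fun y => cr y (ob x R)).card).card ≤ Y.card.choose ρ := by
    intro x hx
    have hs := sampling Y (ob x) cr b (h1 x hx) (h2 x hx) ρ
    have hbM : 0 < b * Y.card := Nat.mul_pos hb hMpos
    apply Nat.le_of_mul_le_mul_left _ hbM
    have hch2 : Y.card.choose (ρ + 1) * (ρ + 1) = Y.card.choose ρ * (Y.card - ρ) :=
      Nat.choose_succ_right_eq _ _
    calc b * Y.card * (8 * ((Y.powersetCard ρ).filter fun R =>
          8 * b * Y.card < ρ * (Y.filter fun y => cr y (ob x R)).card).card)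
        = ((Y.powersetCard ρ).filter fun R =>
          8 * b * Y.card < ρ * (Y.filter fun y => cr y (ob x R)).card).card * (8 * b * Y.card) := by
          ring
      _ = ∑ _R ∈ (Y.powersetCard ρ).filter fun R =>
          8 * b * Y.card < ρ * (Y.filter fun y => cr y (ob x R)).card, 8 * b * Y.card := by
          rw [Finset.sum_const, smul_eq_mul]
      _ ≤ ∑ R ∈ (Y.powersetCard ρ).filter fun R =>
          8 * b * Y.card < ρ * (Y.filter fun y => cr y (ob x R)).card,
            ρ * (Y.filter fun y => cr y (ob x R)).card := by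
          apply Finset.sum_le_sum
          intro R hR
          exact (Finset.mem_filter.1 hR).2.le
      _ ≤ ∑ R ∈ Y.powersetCard ρ, ρ * (Y.filter fun y => cr y (ob x R)).card :=
          Finset.sum_le_sum_of_subset (Finset.filter_subset _ _)
      _ = ρ * ∑ R ∈ Y.powersetCard ρ, (Y.filter fun y => cr y (ob x R)).card := by
          rw [Finset.mul_sum]
      _ ≤ ρ * (b * Y.card.choose (ρ + 1)) := Nat.mul_le_mul_left _ hs
      _ ≤ (ρ + 1) * (b * Y.card.choose (ρ + 1)) := Nat.mul_le_mul_right _ (Nat.le_succ _)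
      _ = b * (Y.card.choose (ρ + 1) * (ρ + 1)) := by ring
      _ = b * (Y.card.choose ρ * (Y.card - ρ)) := by rw [hch2]
      _ ≤ b * (Y.card.choose ρ * Y.card) := by
          apply Nat.mul_le_mul_left
          apply Nat.mul_le_mul_left
          exact Nat.sub_le _ _
      _ = b * Y.card * Y.card.choose ρ := by ring
  have hC2 : 8 * ∑ R ∈ Y.powersetCard ρ, (X.filter fun x =>
      8 * b * Y.card < ρ * (Y.filter fun y => cr y (ob x R)).card).card
      ≤ X.card * Y.card.choose ρ := by
    have e : ∑ R ∈ Y.powersetCard ρ, (X.filter fun x =>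
        8 * b * Y.card < ρ * (Y.filter fun y => cr y (ob x R)).card).card
        = ∑ x ∈ X, ((Y.powersetCard ρ).filter fun R =>
          8 * b * Y.card < ρ * (Y.filter fun y => cr y (ob x R)).card).card := by
      simp only [Finset.card_filter]
      exact Finset.sum_comm
    rw [e, Finset.mul_sum]
    calc ∑ x ∈ X, 8 * ((Y.powersetCard ρ).filter fun R =>
          8 * b * Y.card < ρ * (Y.filter fun y => cr y (ob x R)).card).card
        ≤ ∑ _x ∈ X, Y.card.choose ρ := Finset.sum_le_sum hC1
      _ = X.card * Y.card.choose ρ := by rw [Finset.sum_const, smul_eq_mul]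
  rw [mul_comm (Y.card.choose ρ)] at hstrict
  omega

end Pool.Agent.H72.PP
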