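import Pool.Agent.H72.PP.Geo
import Pool.Agent.H72.PP.Sample

set_option autoImplicit false
open Finset

namespace Pool.Agent.H72.PP

/-- **Cutting lemma.** -/
theorem cutting : ∃ C0 : ℕ, 1 ≤ C0 ∧ ∀ (X Y : Finset E) (k ρ : ℕ), (∀ x ∈ X, x ≠ 0) →
    (∀ x ∈ X, (nb Y x).card ≤ k) → 1 ≤ k → 1 ≤ ρ → 8 * k * ρ ≤ Y.card →
    ∃ X' ⊆ X, X.card ≤ 2 * X'.card ∧ ∃ (cl : E → ℕ) (Z : ℕ → Finset E) (p r : ℕ → Fin 3 → E),
      (∀ x ∈ X', cl x < C0 * ρ ^ 3) ∧ (∀ j, Z j ⊆ Y ∧ (Z j).card * ρ ≤ C0 * Y.card) ∧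
      ∀ x ∈ X', ∀ T ⊆ Y, (∀ y ∈ T, Inc x y ∧ y ∉ Z (cl x)) →
        T.card ≤ 1 ∨ ∃ i, p (cl x) i ≠ r (cl x) i ∧
          (∃ c : ℝ, x = p (cl x) i + c • (r (cl x) i - p (cl x) i)) ∧
          ∀ y ∈ T, Inc (p (cl x) i) y ∧ Inc (r (cl x) i) y := by
  classical
  refine ⟨2744, by norm_num, ?_⟩
  intro X Y k ρ hX0 hXk hk1 hρ hkρ
  obtain ⟨V, hV1, hV2, hV3, hV4⟩ := geo X Y hX0
  obtain ⟨R, hRY, hRc, hA, hB⟩ := good_sample X Y V Crosses 19 k ρ hρ (by norm_num) hk1
    (fun x hx R hR => by convert hV1 x hx R hR) hV2 hXk hkρ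
  -- the surviving points
  set X' : Finset E := X.filter fun x => ¬ (∃ y ∈ R, Inc x y) ∧
    ¬ (8 * 19 * Y.card < ρ * (Y.filter fun y => Crosses y (V x R)).card) with hX'
  have hcard : X.card ≤ 2 * X'.card := by
    have hcov : X ⊆ (X.filter fun x => ∃ y ∈ R, Inc x y) ∪
        (X.filter fun x => 8 * 19 * Y.card < ρ * (Y.filter fun y => Crosses y (V x R)).card) ∪
        X' := by
      intro x hx
      by_cases h1 : ∃ y ∈ R, Inc x y
      · exact mem_union_left _ (mem_union_left _ (mem_filter.2 ⟨hx, h1⟩))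
      · by_cases h2 : 8 * 19 * Y.card < ρ * (Y.filter fun y => Crosses y (V x R)).card
        · exact mem_union_left _ (mem_union_right _ (mem_filter.2 ⟨hx, h2⟩))
        · exact mem_union_right _ (mem_filter.2 ⟨hx, h1, h2⟩)
    have h1 := card_le_card hcov
    have h2 := card_union_le ((X.filter fun x => ∃ y ∈ R, Inc x y) ∪
        (X.filter fun x => 8 * 19 * Y.card < ρ * (Y.filter fun y => Crosses y (V x R)).card)) X'
    have h3 := card_union_le (X.filter fun x => ∃ y ∈ R, Inc x y)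
        (X.filter fun x => 8 * 19 * Y.card < ρ * (Y.filter fun y => Crosses y (V x R)).card)
    omega
  -- numbering of the tuples
  set S : Finset (Fin 4 → E) := X.image fun x => V x R with hS
  have hScard : S.card ≤ 2744 * ρ ^ 3 := by
    have h1 : S.card ≤ 8 * (R.card + 6) ^ 3 := by
      convert hV3 R hRY
    rw [hRc] at h1
    have h2 : (ρ + 6) ^ 3 ≤ (7 * ρ) ^ 3 := Nat.pow_le_pow_left (by omega) 3
    calc S.card ≤ 8 * (ρ + 6) ^ 3 := h1
      _ ≤ 8 * (7 * ρ) ^ 3 := Nat.mul_le_mul_left _ h2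
      _ = 2744 * ρ ^ 3 := by ring
  have hmemS : ∀ x ∈ X, V x R ∈ S := fun x hx => mem_image_of_mem _ hx
  set e := S.equivFin with he
  set cl : E → ℕ := fun x => if h : V x R ∈ S then (e ⟨V x R, h⟩).val else 0 with hcl
  set W : ℕ → Fin 4 → E := fun j => if h : j < S.card then (e.symm ⟨j, h⟩).val else fun _ => 0
    with hW
  have hWcl : ∀ x ∈ X, W (cl x) = V x R := by
    intro x hx
    have h1 := hmemS x hx
    have h2 : cl x = (e ⟨V x R, h1⟩).val := by
      simp only [hcl, dif_pos h1]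
    have h3 : cl x < S.card := by
      rw [h2]
      exact (e ⟨V x R, h1⟩).isLt
    have h4 : (⟨cl x, h3⟩ : Fin S.card) = e ⟨V x R, h1⟩ := Fin.ext h2
    simp only [hW, dif_pos h3]
    rw [h4, Equiv.symm_apply_apply]
  have hcllt : ∀ x ∈ X, cl x < S.card := by
    intro x hx
    have h1 := hmemS x hx
    have h2 : cl x = (e ⟨V x R, h1⟩).val := by
      simp only [hcl, dif_pos h1]
    rw [h2]
    exact (e ⟨V x R, h1⟩).isLt
  set Z : ℕ → Finset E := fun j => if ∃ x ∈ X', cl x = j then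
    Y.filter fun y => Crosses y (W j) else ∅ with hZ
  have hX'X : X' ⊆ X := filter_subset _ _
  refine ⟨X', hX'X, hcard, cl, Z, fun j _ => W j 0, fun j i => W j i.succ, ?_, ?_, ?_⟩
  · intro x hx
    exact lt_of_lt_of_le (hcllt x (hX'X hx)) hScard
  · intro j
    by_cases hj : ∃ x ∈ X', cl x = j
    · have hZj : Z j = Y.filter fun y => Crosses y (W j) := by
        simp only [hZ, if_pos hj]
      rw [hZj]
      refine ⟨filter_subset _ _, ?_⟩
      obtain ⟨x, hx, rfl⟩ := hj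
      rw [hWcl x (hX'X hx)]
      have h := (mem_filter.1 hx).2.2
      have h' := not_lt.1 h
      calc (Y.filter fun y => Crosses y (V x R)).card * ρ
          = ρ * (Y.filter fun y => Crosses y (V x R)).card := mul_comm _ _
        _ ≤ 8 * 19 * Y.card := h'
        _ ≤ 2744 * Y.card := Nat.mul_le_mul_right _ (by norm_num)
    · have hZj : Z j = ∅ := by
        simp only [hZ, if_neg hj]
      rw [hZj]
      simp
  · intro x hx T hT hTy
    have hxX := hX'X hx
    have hnR : ∀ y ∈ R, ¬ Inc x y := by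
      intro y hy hxy
      exact (mem_filter.1 hx).2.1 ⟨y, hy, hxy⟩
    have hZx : Z (cl x) = Y.filter fun y => Crosses y (V x R) := by
      have : ∃ x' ∈ X', cl x' = cl x := ⟨x, hx, rfl⟩
      simp only [hZ, if_pos this]
      rw [hWcl x hxX]
    have h := hV4 x hxX R hRY hnR T hT (fun y hy => ⟨(hTy y hy).1, fun hc =>
      (hTy y hy).2 (by rw [hZx]; exact mem_filter.2 ⟨hT hy, hc⟩)⟩)
    simp only [hWcl x hxX]
    exact h

end Pool.Agent.H72.PP
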