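import Mathlib

/-!
# Point-plane incidences in `ℝ³`: definitions

A point `x` and a plane `{z | ⟪y, z⟫ = 1}` are both given by vectors of `E = ℝ³`; they are
incident if `⟪y, x⟫ = 1`. (Every configuration of points and affine planes takes this form after a
translation.) The relation is symmetric, so duality is exchanging `X` and `Y`.
-/

set_option autoImplicit false
open Finset

namespace Pool.Agent.H72.PP

/-- three-dimensional Euclidean space. -/
abbrev E : Type := EuclideanSpace ℝ (Fin 3)

/-- the point `x` lies on the plane `{z | ⟪y, z⟫ = 1}`. -/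
def Inc (x y : E) : Prop := inner ℝ y x = 1

theorem Inc.symm {x y : E} (h : Inc x y) : Inc y x := by
  unfold Inc at *
  rw [real_inner_comm]
  exact h

theorem inc_comm (x y : E) : Inc x y ↔ Inc y x := ⟨Inc.symm, Inc.symm⟩

open Classical in
/-- the planes of `Y` through `x` (equally, the points of `Y` on the plane `x`). -/
noncomputable def nb (Y : Finset E) (x : E) : Finset E := Y.filter fun y => Inc x y

open Classical in
/-- the number of incidences. -/
noncomputable def I (X Y : Finset E) : ℕ := ∑ x ∈ X, (nb Y x).card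

/-- no `s` points lie on `s` planes. -/
def Free (s : ℕ) (X Y : Finset E) : Prop :=
  ∀ S ⊆ X, S.card = s → ∀ T ⊆ Y, T.card = s → ∃ x ∈ S, ∃ y ∈ T, ¬ Inc x y

/-! ### Cells, minimal-norm points, hits -/

/-- the affine function of the plane `y`; it vanishes exactly on the plane. -/
noncomputable def phi (y z : E) : ℝ := 1 - inner ℝ y z

theorem inc_iff_phi (x y : E) : Inc x y ↔ phi y x = 0 := by
  unfold Inc phi
  constructor <;> intro h <;> linarith

/-- the cell (closed) of the base point `q` in the arrangement `R`, cut with the planes of `S`. -/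
def K (q : E) (R S : Finset E) : Set E :=
  {z | (∀ y ∈ R, 0 ≤ phi y z * phi y q) ∧ ∀ y ∈ S, phi y z = 0}

open Classical in
/-- the point of minimal norm. -/
noncomputable def mn (A : Set E) : E :=
  if h : ∃ v ∈ A, ∀ z ∈ A, ‖v‖ ≤ ‖z‖ then h.choose else 0

/-- the time at which the ray from `v` through `x` meets the plane `a`. -/
noncomputable def tt (a v x : E) : ℝ := phi a v / (phi a v - phi a x)

/-- the point at which the ray from `v` through `x` meets the plane `a`. -/
noncomputable def pt (v x a : E) : E := v + tt a v x • (x - v)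

/-- the plane `b` is approached when going from `v` to `x`. -/
def Dec (q v x b : E) : Prop := phi b x * phi b q < phi b v * phi b q

/-- `a` is the first plane of `R` hit by the ray from `v` through `x` (ties are broken by a fixed
well-order of `E`). -/
def IsHit (q : E) (R : Finset E) (v x a : E) : Prop :=
  a ∈ R ∧ Dec q v x a ∧ ∀ b ∈ R, Dec q v x b →
    tt a v x < tt b v x ∨ (tt a v x = tt b v x ∧ ¬ WellOrderingRel b a)

open Classical in
/-- the first plane hit. -/
noncomputable def hit (q : E) (R : Finset E) (v x : E) : E :=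
  if h : ∃ a, IsHit q R v x a then h.choose else 0

/-- the canonical flag of the base point `q` in the arrangement `R`. -/
noncomputable def v0 (q : E) (R : Finset E) : E := mn (K q R ∅)
noncomputable def a1 (q : E) (R : Finset E) : E := hit q R (v0 q R) q
noncomputable def x1 (q : E) (R : Finset E) : E := pt (v0 q R) q (a1 q R)
noncomputable def v1 (q : E) (R : Finset E) : E := mn (K q R {a1 q R})
noncomputable def a2 (q : E) (R : Finset E) : E := hit q R (v1 q R) (x1 q R)
noncomputable def x2 (q : E) (R : Finset E) : E := pt (v1 q R) (x1 q R) (a2 q R)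
noncomputable def v2 (q : E) (R : Finset E) : E := mn (K q R {a1 q R, a2 q R})
noncomputable def a3 (q : E) (R : Finset E) : E := hit q R (v2 q R) (x2 q R)
noncomputable def x3 (q : E) (R : Finset E) : E := pt (v2 q R) (x2 q R) (a3 q R)
noncomputable def v3 (q : E) (R : Finset E) : E := mn (K q R {a1 q R, a2 q R, a3 q R})

/-- the vertices of the canonical simplex. -/
noncomputable def vert (q : E) (R : Finset E) : Fin 4 → E := ![v0 q R, v1 q R, v2 q R, v3 q R]

/-- the plane `y` has vertices strictly on both sides. -/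
def Crosses (y : E) (V : Fin 4 → E) : Prop := ∃ i j, phi y (V i) < 0 ∧ 0 < phi y (V j)

/-! ### The bounding box -/

/-- the six planes `z i = ± L`. -/
noncomputable def Bx (L : ℝ) : Finset E :=
  univ.image fun p : Fin 3 × Bool =>
    EuclideanSpace.single p.1 (if p.2 then L⁻¹ else -L⁻¹)

/-- the open box. -/
def InBox (L : ℝ) (z : E) : Prop := ∀ i, |z i| < L

/-- `q` is generic for the planes `W`. -/
structure Gen (L : ℝ) (W : Finset E) (q : E) : Prop where
  box : InBox L q
  ne : ∀ y ∈ W, phi y q ≠ 0
  g0 : ∀ R ⊆ W, Bx L ⊆ R → q ≠ v0 q R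
  g1 : ∀ R ⊆ W, Bx L ⊆ R → x1 q R ≠ v1 q R
  g1' : ∀ R ⊆ W, Bx L ⊆ R → ∀ y ∈ R, y ≠ a1 q R → 0 < phi y (x1 q R) * phi y q
  g2 : ∀ R ⊆ W, Bx L ⊆ R → x2 q R ≠ v2 q R
  g2' : ∀ R ⊆ W, Bx L ⊆ R → ∀ y ∈ R, phi y (x2 q R) = 0 →
    ∃ μ : ℝ, y = a1 q R + μ • (a2 q R - a1 q R)

/-! ### A-incidences -/

open Classical in
/-- `x` lies on `y`, and some line through `x` in `y` lies in at least `s` planes of `Y`. -/
def AInc (s : ℕ) (Y : Finset E) (x y : E) : Prop :=
  Inc x y ∧ ∃ u : E, u ≠ 0 ∧ inner ℝ y u = 0 ∧
    s ≤ (Y.filter fun y' => Inc x y' ∧ inner ℝ y' u = 0).card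

end Pool.Agent.H72.PP
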