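import Pool.Agent.H72.PP.Obj

set_option autoImplicit false
open Finset

namespace Pool.Agent.H72.PP

variable {L : ℝ} {W R : Finset E} {q q' : E}

private theorem descr_phi_comb (a b z : E) (μ : ℝ) :
    phi (a + μ • (b - a)) z = (1 - μ) * phi a z + μ * phi b z := by
  unfold phi
  rw [inner_add_left, real_inner_smul_left, inner_sub_left]
  ring

private theorem descr_phi_sub (b z u w : E) (c : ℝ) :
    phi b (z - c • (u - w)) = phi b z - c * (phi b u - phi b w) := by
  unfold phi
  rw [inner_sub_right, real_inner_smul_right, inner_sub_right]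
  ring

/-- positivity facts about one base point. -/
private theorem descr_facts (hL : 0 < L) (hg : Gen L W q) (hR : R ⊆ W) (hB : Bx L ⊆ R) :
    (∀ y ∈ R, phi y (x2 q R) ≠ 0 → 0 < phi y (x2 q R) * phi y q) ∧
    (∀ y ∈ R, 0 ≤ phi y (x3 q R) * phi y q) ∧
    phi (a1 q R) (x2 q R) = 0 ∧ phi (a2 q R) (x2 q R) = 0 ∧
    phi (a1 q R) (x3 q R) = 0 ∧ phi (a2 q R) (x3 q R) = 0 ∧ phi (a3 q R) (x3 q R) = 0 ∧
    0 < phi (a3 q R) (x2 q R) * phi (a3 q R) q ∧
    (∀ y ∈ R, phi y (x2 q R) = 0 → y = a1 q R ∨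
      ∃ μ : ℝ, y = a1 q R + μ • (a2 q R - a1 q R) ∧
        0 < μ * (phi y q * phi (a2 q R) q)) := by
  have hne : ∀ y ∈ R, phi y q ≠ 0 := fun y hy => hg.ne y (hR hy)
  have g0 := hg.g0 R hR hB
  have g1 := hg.g1 R hR hB
  have g2 := hg.g2 R hR hB
  obtain ⟨h1, hx1, hv1, -⟩ := flag1 hL hB hg.box hne g0
  obtain ⟨h2, hx2, hv2, -⟩ := flag2 hL hB hg.box hne g0 g1
  obtain ⟨h3, hx3, hv3, -⟩ := flag3 hL hB hg.box hne g0 g1 g2
  have e12 : phi (a1 q R) (x2 q R) = 0 := hx2.2 _ (by simp)
  have e22 : phi (a2 q R) (x2 q R) = 0 := hx2.2 _ (by simp)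
  have f12 : phi (a1 q R) (v2 q R) = 0 := hv2.2 _ (by simp)
  have f22 : phi (a2 q R) (v2 q R) = 0 := hv2.2 _ (by simp)
  have e13 : phi (a1 q R) (x3 q R) = 0 := hx3.2 _ (by simp)
  have e23 : phi (a2 q R) (x3 q R) = 0 := hx3.2 _ (by simp)
  have e33 : phi (a3 q R) (x3 q R) = 0 := hx3.2 _ (by simp)
  have e11 : phi (a1 q R) (x1 q R) = 0 := hx1.2 _ (by simp)
  have d11 : phi (a1 q R) (v1 q R) = 0 := hv1.2 _ (by simp)
  have pos2 : ∀ y ∈ R, phi y (x2 q R) ≠ 0 → 0 < phi y (x2 q R) * phi y q := by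
    intro y hy h0
    exact lt_of_le_of_ne (hx2.1 y hy) (Ne.symm (mul_ne_zero h0 (hne y hy)))
  have hA3 : phi (a3 q R) (x2 q R) ≠ 0 := by
    intro h0
    obtain ⟨μ, hμ⟩ := hg.g2' R hR hB (a3 q R) h3.1 h0
    have hv : phi (a3 q R) (v2 q R) = 0 := by
      rw [hμ, descr_phi_comb, f12, f22]; ring
    have hd := h3.2.1
    unfold Dec at hd
    rw [h0, hv] at hd
    simp at hd
  have hA2 : a2 q R ≠ a1 q R := by
    intro h
    have hp := hit_ne hx1 h2
    rw [h, d11] at hp
    simp at hp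
  refine ⟨pos2, hx3.1, e12, e22, e13, e23, e33, pos2 _ h3.1 hA3, ?_⟩
  intro y hy h0
  by_cases hy1 : y = a1 q R
  · exact Or.inl hy1
  · right
    obtain ⟨μ, hμ⟩ := hg.g2' R hR hB y hy h0
    refine ⟨μ, hμ, ?_⟩
    have p1 := hg.g1' R hR hB y hy hy1
    have p2 := hg.g1' R hR hB (a2 q R) h2.1 hA2
    have hyx : phi y (x1 q R) = μ * phi (a2 q R) (x1 q R) := by
      conv_lhs => rw [hμ]
      rw [descr_phi_comb, e11]; ring
    rw [hyx] at p1
    have p3 : 0 < (μ * (phi y q * phi (a2 q R) q)) * (phi (a2 q R) (x1 q R)) ^ 2 := by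
      have := mul_pos p1 p2
      calc 0 < _ := this
        _ = _ := by ring
    have hsq : 0 ≤ (phi (a2 q R) (x1 q R)) ^ 2 := sq_nonneg _
    by_contra hcon
    push Not at hcon
    have := mul_nonpos_of_nonpos_of_nonneg hcon hsq
    linarith

/-- the three planes of the flag and the sides of the base point determine all signs. -/
theorem sign_eq (hL : 0 < L) (hg : Gen L W q) (hg' : Gen L W q') (hR : R ⊆ W) (hB : Bx L ⊆ R)
    (h1 : a1 q R = a1 q' R) (h2 : a2 q R = a2 q' R) (h3 : a3 q R = a3 q' R)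
    (s1 : 0 < phi (a1 q R) q * phi (a1 q R) q') (s2 : 0 < phi (a2 q R) q * phi (a2 q R) q')
    (s3 : 0 < phi (a3 q R) q * phi (a3 q R) q') : ∀ y ∈ R, 0 < phi y q * phi y q' := by
  obtain ⟨pos, nn, e12, e22, e13, e23, e33, p3, alt⟩ := descr_facts hL hg hR hB
  obtain ⟨pos', nn', e12', e22', e13', e23', e33', p3', alt'⟩ := descr_facts hL hg' hR hB
  rw [← h1] at e12' e13' alt'
  rw [← h2] at e22' e23' alt'
  rw [← h3] at e33' p3'
  have hx3 : x3 q' R = x3 q R := x3_unique hL hg hR hB e13' e23' e33'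
  rw [hx3] at nn'
  have hA : phi (a3 q R) (x2 q R) ≠ 0 := fun h => by rw [h] at p3; simp at p3
  obtain ⟨c, hc⟩ : ∃ c : ℝ, c = phi (a3 q R) (x2 q' R) / phi (a3 q R) (x2 q R) := ⟨_, rfl⟩
  have hc' : phi (a3 q R) (x2 q' R) = c * phi (a3 q R) (x2 q R) := by
    rw [hc]; field_simp
  have hz : x2 q' R - c • (x2 q R - x3 q R) = x3 q R := by
    refine x3_unique hL hg hR hB ?_ ?_ ?_
    · rw [descr_phi_sub, e12', e12, e13]; ring
    · rw [descr_phi_sub, e22', e22, e23]; ring
    · rw [descr_phi_sub, hc', e33]; ring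
  have hcpos : 0 < c := by
    have h := mul_pos (mul_pos p3 p3') s3
    rw [hc'] at h
    have h4 : 0 < c * (phi (a3 q R) (x2 q R) * (phi (a3 q R) q * phi (a3 q R) q')) ^ 2 := by
      calc 0 < _ := h
        _ = _ := by ring
    by_contra hcon
    push Not at hcon
    have := mul_nonpos_of_nonpos_of_nonneg hcon
      (sq_nonneg (phi (a3 q R) (x2 q R) * (phi (a3 q R) q * phi (a3 q R) q')))
    linarith
  have hphi : ∀ y : E, phi y (x2 q' R) = (1 - c) * phi y (x3 q R) + c * phi y (x2 q R) := by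
    intro y
    have := congrArg (phi y) hz
    rw [descr_phi_sub] at this
    linarith
  have key : ∀ (y : E) (μ : ℝ), 0 < μ * (phi y q * phi (a2 q R) q) →
      0 < μ * (phi y q' * phi (a2 q R) q') → 0 < phi y q * phi y q' := by
    intro y μ k1 k2
    have k3 := mul_pos k1 k2
    have k4 : 0 < (phi y q * phi y q') * (μ ^ 2 * (phi (a2 q R) q * phi (a2 q R) q')) := by
      calc 0 < _ := k3
        _ = _ := by ring
    have k5 : 0 ≤ μ ^ 2 * (phi (a2 q R) q * phi (a2 q R) q') :=
      mul_nonneg (sq_nonneg _) s2.le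
    by_contra hcon
    push Not at hcon
    have := mul_nonpos_of_nonpos_of_nonneg hcon k5
    linarith
  -- the coefficient is determined by the plane
  have hmu : ∀ (y : E) (μ ν : ℝ), y = a1 q R + μ • (a2 q R - a1 q R) → y = a1 q R + ν • (a2 q R - a1 q R) →
      a2 q R ≠ a1 q R → μ = ν := by
    intro y μ ν k1 k2 k3
    have k4 : (μ - ν) • (a2 q R - a1 q R) = 0 := by
      rw [sub_smul, sub_eq_zero]
      exact add_left_cancel (k1.symm.trans k2)
    rcases smul_eq_zero.mp k4 with k5 | k5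
    · linarith
    · exact absurd (sub_eq_zero.mp k5) k3
  intro y hy
  by_cases hy1 : y = a1 q R
  · rw [hy1]; exact s1
  by_cases hy0 : phi y (x2 q R) = 0
  · rcases alt y hy hy0 with h | ⟨μ, hμ, k1⟩
    · exact absurd h hy1
    · have hy0' : phi y (x2 q' R) = 0 := by
        rw [hμ, descr_phi_comb, e12', e22']; ring
      rcases alt' y hy hy0' with h | ⟨ν, hν, k2⟩
      · exact absurd h hy1
      · have hne : a2 q R ≠ a1 q R := by
          intro h
          apply hy1
          rw [hμ, h]; simp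
        have hμν := hmu y μ ν hμ hν hne
        rw [← hμν] at k2
        exact key y μ k1 k2
  · have hy0' : phi y (x2 q' R) ≠ 0 := by
      intro h
      rcases alt' y hy h with h | ⟨ν, hν, -⟩
      · exact absurd h hy1
      · apply hy0
        rw [hν, descr_phi_comb, e12, e22]; ring
    have k1 := pos y hy hy0
    have k2 := pos' y hy hy0'
    have k3 := nn y hy
    have k4 := nn' y hy
    have k5 := hphi y
    rcases le_or_gt c 1 with hc1 | hc1
    · -- the second point is between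
      have k6 : 0 < phi y (x2 q' R) * phi y q := by
        have e1 : phi y (x2 q' R) * phi y q =
            (1 - c) * (phi y (x3 q R) * phi y q) + c * (phi y (x2 q R) * phi y q) := by
          rw [k5]; ring
        rw [e1]
        have t1 := mul_nonneg (sub_nonneg.mpr hc1) k3
        have t2 := mul_pos hcpos k1
        linarith
      have k7 := mul_pos k6 k2
      have k8 : 0 < (phi y q * phi y q') * (phi y (x2 q' R)) ^ 2 := by
        calc 0 < _ := k7
          _ = _ := by ring
      by_contra hcon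
      push Not at hcon
      have := mul_nonpos_of_nonpos_of_nonneg hcon (sq_nonneg (phi y (x2 q' R)))
      linarith
    · have k6 : 0 < phi y (x2 q R) * phi y q' := by
        have e1 : c * (phi y (x2 q R) * phi y q') =
            (c - 1) * (phi y (x3 q R) * phi y q') + phi y (x2 q' R) * phi y q' := by
          rw [k5]; ring
        have t1 := mul_nonneg (sub_nonneg.mpr hc1.le) k4
        have t2 : 0 < c * (phi y (x2 q R) * phi y q') := by rw [e1]; linarith
        by_contra hcon
        push Not at hcon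
        have := mul_nonpos_of_nonneg_of_nonpos hcpos.le hcon
        linarith
      have k7 := mul_pos k6 k1
      have k8 : 0 < (phi y q * phi y q') * (phi y (x2 q R)) ^ 2 := by
        calc 0 < _ := k7
          _ = _ := by ring
      by_contra hcon
      push Not at hcon
      have := mul_nonpos_of_nonpos_of_nonneg hcon (sq_nonneg (phi y (x2 q R)))
      linarith

theorem K_congr (h : ∀ y ∈ R, 0 < phi y q * phi y q') (S : Finset E) : K q R S = K q' R S := by
  have key : ∀ a b c : ℝ, 0 < b * c → 0 ≤ a * b → 0 ≤ a * c := by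
    intro a b c h1 h2
    have h3 : 0 ≤ (a * c) * b ^ 2 := by
      have := mul_nonneg h2 h1.le
      calc 0 ≤ _ := this
        _ = _ := by ring
    have hb : b ≠ 0 := fun hb => by rw [hb] at h1; simp at h1
    exact nonneg_of_mul_nonneg_left h3 (by positivity)
  ext z
  constructor
  · rintro ⟨k1, k2⟩
    exact ⟨fun y hy => key _ _ _ (h y hy) (k1 y hy), k2⟩
  · rintro ⟨k1, k2⟩
    refine ⟨fun y hy => key _ _ _ ?_ (k1 y hy), k2⟩
    rw [mul_comm]; exact h y hy

theorem vert_eq (hL : 0 < L) (hg : Gen L W q) (hg' : Gen L W q') (hR : R ⊆ W) (hB : Bx L ⊆ R)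
    (h1 : a1 q R = a1 q' R) (h2 : a2 q R = a2 q' R) (h3 : a3 q R = a3 q' R)
    (s1 : 0 < phi (a1 q R) q * phi (a1 q R) q') (s2 : 0 < phi (a2 q R) q * phi (a2 q R) q')
    (s3 : 0 < phi (a3 q R) q * phi (a3 q R) q') : vert q R = vert q' R := by
  have hs := sign_eq hL hg hg' hR hB h1 h2 h3 s1 s2 s3
  unfold vert v0 v1 v2 v3
  rw [K_congr hs, K_congr hs, K_congr hs, K_congr hs, h1, h2, h3]

private theorem descr_card_image {α β γ : Type*} [DecidableEq β] [DecidableEq γ] (X : Finset α) (f : α → β) (g : α → γ)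
    (h : ∀ x ∈ X, ∀ y ∈ X, g x = g y → f x = f y) : (X.image f).card ≤ (X.image g).card := by
  classical
  rcases X.eq_empty_or_nonempty with rfl | ⟨x0, hx0⟩
  · simp
  · have hsub : X.image f ⊆ (X.image g).image
        (fun c => if hc : ∃ x ∈ X, g x = c then f hc.choose else f x0) := by
      intro b hb
      obtain ⟨x, hx, rfl⟩ := Finset.mem_image.mp hb
      refine Finset.mem_image.mpr ⟨g x, Finset.mem_image_of_mem g hx, ?_⟩
      have hc : ∃ x' ∈ X, g x' = g x := ⟨x, hx, rfl⟩
      rw [dif_pos hc]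
      exact h _ hc.choose_spec.1 _ hx hc.choose_spec.2
    exact (Finset.card_le_card hsub).trans Finset.card_image_le

open Classical in
/-- the number of simplices is at most cubic in the size of the sample. -/
theorem card_vert (hL : 0 < L) (X : Finset E) (qq : E → E) (hg : ∀ x ∈ X, Gen L W (qq x))
    (hR : R ⊆ W) (hB : Bx L ⊆ R) :
    (X.image fun x => vert (qq x) R).card ≤ 8 * R.card ^ 3 := by
  set g : E → (E × E × E) × (Bool × Bool × Bool) := fun x =>
    ((a1 (qq x) R, a2 (qq x) R, a3 (qq x) R),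
      (decide (0 < phi (a1 (qq x) R) (qq x)), decide (0 < phi (a2 (qq x) R) (qq x)),
        decide (0 < phi (a3 (qq x) R) (qq x)))) with hgdef
  have hmem : ∀ x ∈ X, a1 (qq x) R ∈ R ∧ a2 (qq x) R ∈ R ∧ a3 (qq x) R ∈ R := by
    intro x hx
    have hgx := hg x hx
    have hne : ∀ y ∈ R, phi y (qq x) ≠ 0 := fun y hy => hgx.ne y (hR hy)
    have g0 := hgx.g0 R hR hB
    have g1 := hgx.g1 R hR hB
    have g2 := hgx.g2 R hR hB
    exact ⟨(flag1 hL hB hgx.box hne g0).1.1, (flag2 hL hB hgx.box hne g0 g1).1.1,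
      (flag3 hL hB hgx.box hne g0 g1 g2).1.1⟩
  have hsign : ∀ a b : ℝ, a ≠ 0 → b ≠ 0 → decide (0 < a) = decide (0 < b) → 0 < a * b := by
    intro a b ha hb h
    rcases lt_or_gt_of_ne ha with h1 | h1
    · have h2 : ¬ 0 < b := by
        intro h3
        rw [decide_eq_true h3, decide_eq_false (not_lt.mpr h1.le)] at h
        exact Bool.noConfusion h
      exact mul_pos_of_neg_of_neg h1 (lt_of_le_of_ne (not_lt.mp h2) hb)
    · have h2 : 0 < b := by
        by_contra h3
        rw [decide_eq_true h1, decide_eq_false h3] at h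
        exact Bool.noConfusion h
      exact mul_pos h1 h2
  have hle : (X.image fun x => vert (qq x) R).card ≤ (X.image g).card := by
    refine descr_card_image X _ g ?_
    intro x hx y hy hxy
    simp only [hgdef, Prod.mk.injEq] at hxy
    obtain ⟨⟨h1, h2, h3⟩, t1, t2, t3⟩ := hxy
    obtain ⟨m1, m2, m3⟩ := hmem x hx
    have nx : ∀ y ∈ R, phi y (qq x) ≠ 0 := fun z hz => (hg x hx).ne z (hR hz)
    have ny : ∀ z ∈ R, phi z (qq y) ≠ 0 := fun z hz => (hg y hy).ne z (hR hz)
    rw [← h1] at t1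
    rw [← h2] at t2
    rw [← h3] at t3
    exact vert_eq hL (hg x hx) (hg y hy) hR hB h1 h2 h3
      (hsign _ _ (nx _ m1) (ny _ m1) t1) (hsign _ _ (nx _ m2) (ny _ m2) t2)
      (hsign _ _ (nx _ m3) (ny _ m3) t3)
  have hsub : X.image g ⊆ (R ×ˢ R ×ˢ R) ×ˢ (univ : Finset (Bool × Bool × Bool)) := by
    intro b hb
    obtain ⟨x, hx, rfl⟩ := Finset.mem_image.mp hb
    obtain ⟨m1, m2, m3⟩ := hmem x hx
    simp only [hgdef, Finset.mem_product, Finset.mem_univ, and_true]
    exact ⟨m1, m2, m3⟩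
  calc (X.image fun x => vert (qq x) R).card ≤ (X.image g).card := hle
    _ ≤ ((R ×ˢ R ×ˢ R) ×ˢ (univ : Finset (Bool × Bool × Bool))).card := Finset.card_le_card hsub
    _ = 8 * R.card ^ 3 := by
      rw [Finset.card_product, Finset.card_product, Finset.card_product, Finset.card_univ]
      simp only [Fintype.card_prod, Fintype.card_bool]
      ring

end Pool.Agent.H72.PP
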