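import Pool.Agent.H72.PP.Obj

set_option autoImplicit false
open Finset

namespace Pool.Agent.H72.PP

variable {L : ℝ} {W R : Finset E} {q x : E}

theorem exists_weights (V : Fin 4 → E) {x : E} (hx : x ∈ convexHull ℝ (Set.range V)) :
    ∃ w : Fin 4 → ℝ, (∀ i, 0 ≤ w i) ∧ ∑ i, w i = 1 ∧ ∑ i, w i • V i = x := by
  have hsub : convexHull ℝ (Set.range V) ⊆
      {z | ∃ w : Fin 4 → ℝ, (∀ i, 0 ≤ w i) ∧ ∑ i, w i = 1 ∧ ∑ i, w i • V i = z} := by
    apply convexHull_min
    · rintro _ ⟨j, rfl⟩
      refine ⟨fun i => if i = j then 1 else 0, ?_, ?_, ?_⟩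
      · intro i
        show (0 : ℝ) ≤ if i = j then 1 else 0
        split_ifs <;> norm_num
      · rw [Finset.sum_ite_eq' univ j (fun _ => (1 : ℝ))]
        simp
      · simp [ite_smul]
    · rintro z ⟨w, hw0, hw1, hwz⟩ z' ⟨w', hw0', hw1', hwz'⟩ a b ha hb hab
      refine ⟨fun i => a * w i + b * w' i, ?_, ?_, ?_⟩
      · intro i
        exact add_nonneg (mul_nonneg ha (hw0 i)) (mul_nonneg hb (hw0' i))
      · rw [Finset.sum_add_distrib, ← Finset.mul_sum, ← Finset.mul_sum, hw1, hw1']
        linarith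
      · rw [← hwz, ← hwz', Finset.smul_sum, Finset.smul_sum, ← Finset.sum_add_distrib]
        refine Finset.sum_congr rfl fun i _ => ?_
        rw [add_smul, mul_smul, mul_smul]
  exact hsub hx

theorem phi_weights (V : Fin 4 → E) (w : Fin 4 → ℝ) (hw : ∑ i, w i = 1) (y : E) :
    phi y (∑ i, w i • V i) = ∑ i, w i * phi y (V i) := by
  unfold phi
  rw [inner_sum]
  simp only [inner_smul_right, mul_sub, mul_one, Finset.sum_sub_distrib, hw]

theorem zero_of_not_crosses (V : Fin 4 → E) (w : Fin 4 → ℝ) (hw0 : ∀ i, 0 ≤ w i) {y : E}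
    (hsum : ∑ i, w i * phi y (V i) = 0) (hc : ¬ Crosses y V) {j : Fin 4} (hj : 0 < w j) :
    phi y (V j) = 0 := by
  by_contra hne
  have hall : ∀ i k, ¬ (phi y (V i) < 0 ∧ 0 < phi y (V k)) := by
    intro i k h
    exact hc ⟨i, k, h⟩
  rcases lt_or_gt_of_ne hne with h | h
  · have hle : ∀ i ∈ (univ : Finset (Fin 4)), 0 ≤ w i * (- phi y (V i)) := by
      intro i _
      refine mul_nonneg (hw0 i) ?_
      by_contra hcon
      exact hall j i ⟨h, by linarith⟩
    have hs : ∑ i, w i * (- phi y (V i)) = 0 := by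
      simp only [mul_neg, Finset.sum_neg_distrib, hsum, neg_zero]
    have := (Finset.sum_eq_zero_iff_of_nonneg hle).mp hs j (mem_univ j)
    rcases mul_eq_zero.mp this with h1 | h1
    · exact absurd h1 hj.ne'
    · exact hne (by linarith)
  · have hle : ∀ i ∈ (univ : Finset (Fin 4)), 0 ≤ w i * (phi y (V i)) := by
      intro i _
      refine mul_nonneg (hw0 i) ?_
      by_contra hcon
      exact hall i j ⟨by linarith, h⟩
    have := (Finset.sum_eq_zero_iff_of_nonneg hle).mp hsum j (mem_univ j)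
    rcases mul_eq_zero.mp this with h1 | h1
    · exact absurd h1 hj.ne'
    · exact hne h1

theorem exists_smul_mem {q x : E} {R : Finset E} (hx : ∀ y ∈ R, 0 < phi y x * phi y q) :
    ∃ t : ℝ, 0 < t ∧ t < 1 ∧ t • x ∈ K q R ∅ := by
  have hev : ∀ᶠ t : ℝ in nhds 1, ∀ y ∈ R, 0 < phi y (t • x) * phi y q := by
    rw [Filter.eventually_all_finset]
    intro y hy
    have hcont : Continuous fun t : ℝ => phi y (t • x) * phi y q := by
      unfold phi
      fun_prop
    have h1 : 0 < phi y ((1 : ℝ) • x) * phi y q := by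
      rw [one_smul]
      exact hx y hy
    exact hcont.continuousAt.eventually (lt_mem_nhds h1)
  have hev2 : ∀ᶠ t : ℝ in nhds 1, 0 < t := lt_mem_nhds one_pos
  obtain ⟨l, hl, hlt⟩ := exists_Ioc_subset_of_mem_nhds (hev.and hev2) ⟨0, one_pos⟩
  have hm := hlt (⟨by linarith, by linarith⟩ : (l + 1) / 2 ∈ Set.Ioc l 1)
  refine ⟨(l + 1) / 2, hm.2, by linarith, ?_, ?_⟩
  · intro y hy
    exact (hm.1 y hy).le
  · intro y hy
    simp at hy

/-- three vectors with pairwise different directions on a plane not through the origin. -/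
theorem eq_of_three {x v u y y' : E} (huv : v ≠ u) (hl : ¬ ∃ c : ℝ, x = v + c • (u - v))
    (hx : Inc x y) (hv : Inc v y) (hu : Inc u y) (hx' : Inc x y') (hv' : Inc v y')
    (hu' : Inc u y') : y = y' := by
  have hli : LinearIndependent ℝ ![x, v, u] := by
    rw [Fintype.linearIndependent_iff]
    intro g hg
    rw [Fin.sum_univ_three] at hg
    simp only [Matrix.cons_val_zero, Matrix.cons_val_one, Matrix.cons_val_two, Matrix.head_cons,
      Matrix.tail_cons, Matrix.cons_val] at hg
    have h1 : g 0 + g 1 + g 2 = 0 := by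
      have h2 := congrArg (fun z => inner ℝ y z) hg
      simp only [inner_add_right, inner_smul_right, inner_zero_right] at h2
      unfold Inc at hx hv hu
      rw [hx, hv, hu] at h2
      linarith
    have h3 : g 0 • (x - v) + g 2 • (u - v) = 0 := by
      have h4 : g 1 = - g 0 - g 2 := by linarith
      rw [h4] at hg
      rw [← hg]
      module
    have h0 : g 0 = 0 := by
      by_contra h
      apply hl
      refine ⟨- (g 2 / g 0), ?_⟩
      have h5 : (g 0)⁻¹ • (g 0 • (x - v) + g 2 • (u - v)) = 0 := by rw [h3, smul_zero]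
      rw [smul_add, smul_smul, smul_smul, inv_mul_cancel₀ h, one_smul] at h5
      have h6 : x = v - ((g 0)⁻¹ * g 2) • (u - v) := by
        have h7 : x = v + (x - v + ((g 0)⁻¹ * g 2) • (u - v)) - ((g 0)⁻¹ * g 2) • (u - v) := by
          module
        rw [h5, add_zero] at h7
        exact h7
      rw [h6, div_eq_inv_mul, neg_smul, sub_eq_add_neg]
    have h2 : g 2 = 0 := by
      rw [h0, zero_smul, zero_add] at h3
      rcases smul_eq_zero.mp h3 with h | h
      · exact h
      · exact absurd (sub_eq_zero.mp h).symm huv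
    intro i
    fin_cases i
    · exact h0
    · show g 1 = 0
      linarith
    · exact h2
  have hspan : Submodule.span ℝ (Set.range ![x, v, u]) = ⊤ := by
    apply hli.span_eq_top_of_card_eq_finrank
    simp
  have hd : ∀ z : E, inner ℝ (y - y') z = 0 := by
    intro z
    have hz : z ∈ Submodule.span ℝ (Set.range ![x, v, u]) := by
      rw [hspan]
      trivial
    refine Submodule.span_induction (p := fun z _ => inner ℝ (y - y') z = 0) ?_ ?_ ?_ ?_ hz
    · rintro _ ⟨i, rfl⟩
      unfold Inc at *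
      fin_cases i
      · show inner ℝ (y - y') x = 0
        rw [inner_sub_left, hx, hx', sub_self]
      · show inner ℝ (y - y') v = 0
        rw [inner_sub_left, hv, hv', sub_self]
      · show inner ℝ (y - y') u = 0
        rw [inner_sub_left, hu, hu', sub_self]
    · exact inner_zero_right _
    · intro a b _ _ ha hb
      rw [inner_add_right, ha, hb, add_zero]
    · intro c a _ ha
      rw [inner_smul_right, ha, mul_zero]
  have := hd (y - y')
  rw [inner_self_eq_zero] at this
  exact sub_eq_zero.mp this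

/-- The planes through `x` not crossing the simplex of a nearby generic point `q`: at most one, or
all of them contain a line through `x` and two vertices. -/
theorem excep (hL : 0 < L) (hg : Gen L W q) (hR : R ⊆ W) (hB : Bx L ⊆ R) (hx0 : x ≠ 0)
    (hx : ∀ y ∈ R, 0 < phi y x * phi y q)
    (hconv : x ∈ convexHull ℝ (Set.range (vert q R)))
    (T : Finset E) (hT : ∀ y ∈ T, Inc x y ∧ ¬ Crosses y (vert q R)) :
    T.card ≤ 1 ∨ ∃ i : Fin 3, vert q R 0 ≠ vert q R i.succ ∧
      (∃ c : ℝ, x = vert q R 0 + c • (vert q R i.succ - vert q R 0)) ∧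
      ∀ y ∈ T, Inc (vert q R 0) y ∧ Inc (vert q R i.succ) y := by
  have hqR : ∀ y ∈ R, phi y q ≠ 0 := fun y hy => hg.ne y (hR hy)
  obtain ⟨hit1, hx1, hv1, -⟩ := flag1 hL hB hg.box hqR (hg.g0 R hR hB)
  obtain ⟨hit2, hx2, hv2, -⟩ := flag2 hL hB hg.box hqR (hg.g0 R hR hB) (hg.g1 R hR hB)
  obtain ⟨hit3, hx3, hv3, -⟩ := flag3 hL hB hg.box hqR (hg.g0 R hR hB) (hg.g1 R hR hB)
    (hg.g2 R hR hB)
  obtain ⟨hqK, hv0, hmin⟩ := flag0 hqR
  have ha0 : 0 < phi (a1 q R) (v0 q R) * phi (a1 q R) q := hit_ne hqK hit1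
  have ha0' : phi (a1 q R) (v0 q R) ≠ 0 := by
    intro h
    rw [h, zero_mul] at ha0
    exact lt_irrefl _ ha0
  have ha1 : ∀ i : Fin 3, phi (a1 q R) (vert q R i.succ) = 0 := by
    intro i
    fin_cases i
    · exact hv1.2 _ (by simp)
    · exact hv2.2 _ (by simp)
    · exact hv3.2 _ (by simp)
  obtain ⟨w, hw0, hw1, hwx⟩ := exists_weights (vert q R) hconv
  have hphi : ∀ y, phi y x = ∑ i, w i * phi y (vert q R i) := by
    intro y
    rw [← phi_weights _ _ hw1, hwx]
  have hz : ∀ y ∈ T, ∀ j, 0 < w j → phi y (vert q R j) = 0 := by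
    intro y hy j hj
    refine zero_of_not_crosses (vert q R) w hw0 ?_ (hT y hy).2 hj
    rw [← hphi]
    exact (inc_iff_phi x y).mp (hT y hy).1
  have hw00 : 0 < w 0 := by
    rcases lt_or_eq_of_le (hw0 0) with h | h
    · exact h
    · exfalso
      have h1 := hx (a1 q R) hit1.1
      rw [hphi, Fin.sum_univ_succ, ← h, zero_mul, zero_add] at h1
      simp only [ha1, mul_zero, Finset.sum_const_zero, zero_mul] at h1
      exact lt_irrefl _ h1
  have hxv : x ≠ v0 q R := by
    intro h
    obtain ⟨t, ht0, ht1, htK⟩ := exists_smul_mem hx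
    have h1 := hmin _ htK
    rw [← h, norm_smul, Real.norm_eq_abs, abs_of_pos ht0] at h1
    have h2 : 0 < ‖x‖ := norm_pos_iff.mpr hx0
    nlinarith
  have hex : ∃ i : Fin 3, 0 < w i.succ := by
    by_contra hcon
    push Not at hcon
    have h0 : ∀ i : Fin 3, w i.succ = 0 := fun i => le_antisymm (hcon i) (hw0 _)
    rw [Fin.sum_univ_succ] at hw1 hwx
    simp only [h0, Finset.sum_const_zero, add_zero, zero_smul] at hw1 hwx
    rw [hw1, one_smul] at hwx
    exact hxv hwx.symm
  obtain ⟨i, hi⟩ := hex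
  have hne : vert q R 0 ≠ vert q R i.succ := by
    intro h
    apply ha0'
    have h2 := ha1 i
    rw [← h] at h2
    exact h2
  have hinc : ∀ y ∈ T, Inc (vert q R 0) y ∧ Inc (vert q R i.succ) y := by
    intro y hy
    exact ⟨(inc_iff_phi _ _).mpr (hz y hy 0 hw00), (inc_iff_phi _ _).mpr (hz y hy i.succ hi)⟩
  by_cases hl : ∃ c : ℝ, x = vert q R 0 + c • (vert q R i.succ - vert q R 0)
  · right
    exact ⟨i, hne, hl, hinc⟩
  · left
    rw [Finset.card_le_one]
    intro y hy y' hy'
    exact eq_of_three hne hl (hT y hy).1 (hinc y hy).1 (hinc y hy).2 (hT y' hy').1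
      (hinc y' hy').1 (hinc y' hy').2

end Pool.Agent.H72.PP
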