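import Pool.Agent.H72.PP.Avoid
import Pool.Agent.Results.MP_06b5a3_co.UnbalancedLower

set_option autoImplicit false
open Finset

namespace Pool.Agent.H72.PP

open Pool.Agent.Results.MP_06b5a3_co.UnbalancedLower

/-- coordinates as a vector of `E`. -/
noncomputable def toE (x : Fin 3 → ℝ) : E := WithLp.toLp 2 x

theorem toE_inj : Function.Injective toE := fun _ _ h => WithLp.toLp_injective 2 h

theorem inner_toE (a x : Fin 3 → ℝ) : inner ℝ (toE a) (toE x) = ∑ i, a i * x i := by
  unfold toE
  rw [PiLp.inner_apply]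
  refine Finset.sum_congr rfl fun i _ => ?_
  simp [mul_comm]

theorem toE_zero : toE 0 = 0 := rfl

/-- every configuration of points and affine planes becomes, after a translation, one of the form
`⟪y, x⟫ = 1`. -/
theorem translate (P : Finset (Fin 3 → ℝ)) (H : Finset (Set (Fin 3 → ℝ)))
    (hH : ∀ h ∈ H, IsPlane h) (t : ℕ) (hf : ¬ ContainsK 3 t P H) :
    ∃ X Y : Finset E, X.card = P.card ∧ Y.card = H.card ∧ I X Y = incidences P H ∧
      Free (max 3 t) X Y := by
  classical
  unfold IsPlane at hH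
  choose! a b hab using hH
  obtain ⟨x0, _, hx0⟩ := avoid (H.image fun h => (-b h, toE (a h))) (by
    intro f hf
    obtain ⟨h, hh, rfl⟩ := mem_image.1 hf
    intro h0
    have h1 := (Prod.ext_iff.1 h0).2
    simp only [Prod.snd_zero] at h1
    rw [← toE_zero] at h1
    exact (hab h hh).1 (toE_inj h1)) 0 (U := Set.univ) Filter.univ_mem
  have hd : ∀ h ∈ H, b h - inner ℝ (toE (a h)) x0 ≠ 0 := by
    intro h hh h0
    have := hx0 (-b h, toE (a h)) (mem_image_of_mem _ hh)
    unfold aff at this
    exact this (by linarith)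
  obtain ⟨f, hfdef⟩ : ∃ f : (Fin 3 → ℝ) → E, f = fun x => toE x - x0 := ⟨_, rfl⟩
  obtain ⟨g, hgdef⟩ : ∃ g : Set (Fin 3 → ℝ) → E,
    g = fun h => (b h - inner ℝ (toE (a h)) x0)⁻¹ • toE (a h) := ⟨_, rfl⟩
  have hinc : ∀ h ∈ H, ∀ x : Fin 3 → ℝ, Inc (f x) (g h) ↔ x ∈ h := by
    intro h hh x
    have hx : x ∈ h ↔ ∑ i, a h i * x i = b h := by
      conv_lhs => rw [(hab h hh).2]
      exact Iff.rfl
    rw [hx, ← inner_toE, hfdef, hgdef]
    unfold Inc
    simp only
    rw [real_inner_smul_left, inner_sub_right, inv_mul_eq_one₀ (hd h hh)]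
    constructor <;> intro h' <;> linarith
  have hfi : Function.Injective f := by
    intro x y hxy
    rw [hfdef] at hxy
    simp only [sub_left_inj] at hxy
    exact toE_inj hxy
  have hgi : Set.InjOn g (H : Set (Set (Fin 3 → ℝ))) := by
    intro h hh h' hh' e
    ext x
    rw [← hinc h (mem_coe.1 hh) x, ← hinc h' (mem_coe.1 hh') x, e]
  refine ⟨P.image f, H.image g, card_image_of_injective _ hfi, card_image_of_injOn hgi, ?_, ?_⟩
  · unfold I incidences
    rw [sum_image (fun x _ y _ h => hfi h)]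
    have h1 : ∀ x ∈ P, (nb (H.image g) (f x)).card = (H.filter fun h => x ∈ h).card := by
      intro x _
      unfold nb
      rw [filter_image, card_image_of_injOn (hgi.mono (by
        intro h hh
        exact mem_coe.2 (mem_filter.1 (mem_coe.1 hh)).1))]
      congr 1
      refine filter_congr fun h hh => ?_
      exact hinc h hh x
    rw [sum_congr rfl h1]
    simp only [card_filter]
    rw [sum_product]
  · intro S hS hSc T hT hTc
    by_contra hcon
    push Not at hcon
    apply hf
    obtain ⟨S', hS', rfl⟩ := subset_image_iff.1 hS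
    obtain ⟨T', hT', rfl⟩ := subset_image_iff.1 hT
    rw [card_image_of_injective _ hfi] at hSc
    rw [card_image_of_injOn (hgi.mono hT')] at hTc
    obtain ⟨S'', hS'', hS3⟩ := exists_subset_card_eq (show 3 ≤ S'.card by omega)
    obtain ⟨T'', hT'', hT3⟩ := exists_subset_card_eq (show t ≤ T'.card by omega)
    refine ⟨S'', fun x hx => mem_coe.1 (hS' (mem_coe.2 (hS'' hx))), hS3, T'',
      fun x hx => mem_coe.1 (hT' (mem_coe.2 (hT'' hx))), hT3, fun p hp h hh => ?_⟩
    have hhH : h ∈ H := mem_coe.1 (hT' (mem_coe.2 (hT'' hh)))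
    rw [← hinc h hhH p]
    exact hcon _ (mem_image_of_mem f (hS'' hp)) _ (mem_image_of_mem g (hT'' hh))

end Pool.Agent.H72.PP
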