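import Pool.Agent.H72.PP.T2
import Pool.Agent.H72.PP.Trans

set_option autoImplicit false
open Finset

namespace Pool.Agent.H72.PP

open Pool.Agent.Results.MP_06b5a3_co.UnbalancedLower

/-- the middle term written with the smaller number first. -/
theorem middle_eq (a b : ℝ) (ha : 0 < a) (hb : 0 < b) :
    a ^ (1 / 17 : ℝ) * (a * b) ^ (12 / 17 : ℝ) = a ^ (13 / 17 : ℝ) * b ^ (12 / 17 : ℝ) := by
  rw [Real.mul_rpow ha.le hb.le, ← mul_assoc, ← Real.rpow_add ha]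
  norm_num

/-- the upper bound for `I_t(m,n)` in terms of the four main terms and the middle term. -/
theorem maxInc_le (t : ℕ) : ∃ C : ℝ, 0 < C ∧ ∀ m n : ℕ, 1 ≤ m → 1 ≤ n →
    (maxInc t m n : ℝ) ≤ C * ((m : ℝ) ^ (4 / 5 : ℝ) * (n : ℝ) ^ (3 / 5 : ℝ) +
      (m : ℝ) ^ (3 / 5 : ℝ) * (n : ℝ) ^ (4 / 5 : ℝ) + m + n +
      ((min m n : ℕ) : ℝ) ^ (1 / 17 : ℝ) * ((m : ℝ) * n) ^ (12 / 17 : ℝ)) := by
  obtain ⟨C, hC, hup⟩ := upper (max 3 t) (by omega)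
  refine ⟨C, hC, fun m n hm hn => ?_⟩
  set B : ℝ := C * ((m : ℝ) ^ (4 / 5 : ℝ) * (n : ℝ) ^ (3 / 5 : ℝ) +
      (m : ℝ) ^ (3 / 5 : ℝ) * (n : ℝ) ^ (4 / 5 : ℝ) + m + n +
      ((min m n : ℕ) : ℝ) ^ (1 / 17 : ℝ) * ((m : ℝ) * n) ^ (12 / 17 : ℝ)) with hB
  have hB0 : 0 ≤ B := by positivity
  have hm0 : (0 : ℝ) < m := by exact_mod_cast hm
  have hn0 : (0 : ℝ) < n := by exact_mod_cast hn
  have h1 : 0 ≤ (m : ℝ) ^ (4 / 5 : ℝ) * (n : ℝ) ^ (3 / 5 : ℝ) := by positivity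
  have h2 : 0 ≤ (m : ℝ) ^ (3 / 5 : ℝ) * (n : ℝ) ^ (4 / 5 : ℝ) := by positivity
  have key : ∀ k ∈ values t m n, (k : ℝ) ≤ B := by
    rintro k ⟨P, H, hP, hH, hpl, hK, rfl⟩
    obtain ⟨X, Y, hX, hY, hI, hf⟩ := translate P H hpl t hK
    rw [hP] at hX
    rw [hH] at hY
    rw [← hI]
    rcases le_total m n with hmn | hmn
    · have h3 := hup X Y hf (by omega)
      rw [hX, hY] at h3
      refine h3.trans ?_
      rw [hB, min_eq_left hmn, middle_eq _ _ hm0 hn0]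
      apply mul_le_mul_of_nonneg_left _ hC.le
      linarith
    · have h3 := hup Y X hf.symm (by omega)
      rw [hX, hY, I_comm] at h3
      refine h3.trans ?_
      rw [hB, min_eq_right hmn, mul_comm (m : ℝ) (n : ℝ), middle_eq _ _ hn0 hm0]
      apply mul_le_mul_of_nonneg_left _ hC.le
      have h4 : (n : ℝ) ^ (3 / 5 : ℝ) * (m : ℝ) ^ (4 / 5 : ℝ) =
        (m : ℝ) ^ (4 / 5 : ℝ) * (n : ℝ) ^ (3 / 5 : ℝ) := mul_comm _ _
      linarith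
  have h5 : maxInc t m n ≤ ⌊B⌋₊ := by
    unfold maxInc
    rcases (values t m n).eq_empty_or_nonempty with h | h
    · rw [h]
      simp
    · exact csSup_le h fun k hk => Nat.le_floor (key k hk)
  calc (maxInc t m n : ℝ) ≤ (⌊B⌋₊ : ℝ) := by exact_mod_cast h5
    _ ≤ B := Nat.floor_le hB0

theorem middle_aux (m n : ℕ) (hm : 1 ≤ m) (hn : 1 ≤ n) (h : m ^ 7 ≤ n ^ 4) :
    ((min m n : ℕ) : ℝ) ^ (1 / 17 : ℝ) * ((m : ℝ) * n) ^ (12 / 17 : ℝ) ≤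
      (m : ℝ) ^ (3 / 5 : ℝ) * (n : ℝ) ^ (4 / 5 : ℝ) := by
  have hmn : m ≤ n := by
    have h1 : m ^ 7 ≤ n ^ 7 := h.trans (Nat.pow_le_pow_right hn (by norm_num))
    exact le_of_pow_le_pow_left₀ (by norm_num) (Nat.zero_le _) h1
  have hm0 : (0 : ℝ) < m := by exact_mod_cast hm
  have hn0 : (0 : ℝ) < n := by exact_mod_cast hn
  obtain ⟨a, ha⟩ : ∃ a : ℝ, Real.exp a = (m : ℝ) := ⟨Real.log m, Real.exp_log hm0⟩
  obtain ⟨b, hb⟩ : ∃ b : ℝ, Real.exp b = (n : ℝ) := ⟨Real.log n, Real.exp_log hn0⟩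
  have h74 : 7 * a ≤ 4 * b := by
    rw [← Real.exp_le_exp]
    have h1 : Real.exp (7 * a) = (m : ℝ) ^ 7 := by
      rw [← ha, ← Real.exp_nat_mul]
      norm_num
    have h2 : Real.exp (4 * b) = (n : ℝ) ^ 4 := by
      rw [← hb, ← Real.exp_nat_mul]
      norm_num
    rw [h1, h2]
    exact_mod_cast h
  rw [min_eq_left hmn, middle_eq _ _ hm0 hn0, ← ha, ← hb, ← Real.exp_mul, ← Real.exp_mul,
    ← Real.exp_mul, ← Real.exp_mul, ← Real.exp_add, ← Real.exp_add, Real.exp_le_exp]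
  linarith

/-- the middle term is dominated outside the middle range. -/
theorem middle_le (m n : ℕ) (hm : 1 ≤ m) (hn : 1 ≤ n) (h : m ^ 7 ≤ n ^ 4 ∨ n ^ 7 ≤ m ^ 4) :
    ((min m n : ℕ) : ℝ) ^ (1 / 17 : ℝ) * ((m : ℝ) * n) ^ (12 / 17 : ℝ) ≤
      (m : ℝ) ^ (4 / 5 : ℝ) * (n : ℝ) ^ (3 / 5 : ℝ) +
      (m : ℝ) ^ (3 / 5 : ℝ) * (n : ℝ) ^ (4 / 5 : ℝ) := by
  have h1 : 0 ≤ (m : ℝ) ^ (4 / 5 : ℝ) * (n : ℝ) ^ (3 / 5 : ℝ) := by positivity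
  have h2 : 0 ≤ (m : ℝ) ^ (3 / 5 : ℝ) * (n : ℝ) ^ (4 / 5 : ℝ) := by positivity
  rcases h with h | h
  · have := middle_aux m n hm hn h
    linarith
  · have h3 := middle_aux n m hn hm h
    rw [min_comm, mul_comm (n : ℝ) (m : ℝ), mul_comm ((n : ℝ) ^ (3 / 5 : ℝ))] at h3
    linarith

end Pool.Agent.H72.PP
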