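import Pool.Agent.H72.PP.Defs

set_option autoImplicit false
open Finset

namespace Pool.Agent.H72.PP

theorem phi_add_smul (b v x : E) (t : ℝ) :
    phi b (v + t • (x - v)) = phi b v + t * (phi b x - phi b v) := by
  unfold phi
  rw [inner_add_right, inner_smul_right, inner_sub_right]
  ring

theorem phi_pt (v x a b : E) :
    phi b (pt v x a) = phi b v + tt a v x * (phi b x - phi b v) := by
  unfold pt
  exact phi_add_smul b v x (tt a v x)

theorem phi_single (i : Fin 3) (c : ℝ) (z : E) :
    phi (EuclideanSpace.single i c) z = 1 - c * z i := by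
  unfold phi
  rw [EuclideanSpace.inner_single_left]
  simp

theorem single_mem_Bx (L : ℝ) (i : Fin 3) (s : Bool) :
    (EuclideanSpace.single i (if s then L⁻¹ else -L⁻¹) : E) ∈ Bx L := by
  unfold Bx
  exact mem_image.mpr ⟨(i, s), mem_univ _, rfl⟩

/-- some plane of the box is approached. -/
theorem exists_dec {L : ℝ} (hL : 0 < L) {q : E} (hq : InBox L q)
    {v x : E} (h : x ≠ v) : ∃ b ∈ Bx L, Dec q v x b := by
  have hex : ∃ i, x i ≠ v i := by
    by_contra hcon
    push Not at hcon
    exact h (by ext i; exact hcon i)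
  obtain ⟨i, hi⟩ := hex
  have hLi : 0 < L⁻¹ := inv_pos.mpr hL
  have hLL : L⁻¹ * L = 1 := inv_mul_cancel₀ hL.ne'
  have hqi := abs_lt.mp (hq i)
  rcases lt_or_gt_of_ne hi with hlt | hgt
  · refine ⟨_, single_mem_Bx L i false, ?_⟩
    unfold Dec
    rw [phi_single, phi_single, phi_single]
    simp only [Bool.false_eq_true, if_false]
    have h1 : 0 < 1 - -L⁻¹ * q i := by
      have : L⁻¹ * (-L) < L⁻¹ * q i := by
        apply mul_lt_mul_of_pos_left hqi.1 hLi
      nlinarith
    apply mul_lt_mul_of_pos_right _ h1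
    have : L⁻¹ * x i < L⁻¹ * v i := mul_lt_mul_of_pos_left hlt hLi
    linarith
  · refine ⟨_, single_mem_Bx L i true, ?_⟩
    unfold Dec
    rw [phi_single, phi_single, phi_single]
    simp only [if_true]
    have h1 : 0 < 1 - L⁻¹ * q i := by
      have : L⁻¹ * q i < L⁻¹ * L := by
        apply mul_lt_mul_of_pos_left hqi.2 hLi
      nlinarith
    apply mul_lt_mul_of_pos_right _ h1
    have : L⁻¹ * v i < L⁻¹ * x i := mul_lt_mul_of_pos_left hgt hLi
    linarith

/-- inside the box every ray hits a plane. -/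
theorem exists_hit {L : ℝ} (hL : 0 < L) {R : Finset E} (hB : Bx L ⊆ R) {q : E} (hq : InBox L q)
    {v x : E} (h : x ≠ v) : ∃ a, IsHit q R v x a := by
  classical
  obtain ⟨b, hb, hbd⟩ := exists_dec hL hq h
  set T : Finset E := R.filter (fun b => Dec q v x b) with hT
  have hTne : T.Nonempty := ⟨b, mem_filter.mpr ⟨hB hb, hbd⟩⟩
  obtain ⟨m, hm, hmin⟩ := Finset.exists_min_image T (fun a => tt a v x) hTne
  set U : Finset E := T.filter (fun a => tt a v x = tt m v x) with hU
  have hUne : (U : Set E).Nonempty := ⟨m, Finset.mem_coe.mpr (mem_filter.mpr ⟨hm, rfl⟩)⟩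
  have hwf : WellFounded (WellOrderingRel : E → E → Prop) := WellOrderingRel.isWellOrder.wf
  obtain ⟨a, haU, hamin⟩ := hwf.has_min (U : Set E) hUne
  have haU' : a ∈ U := haU
  rw [hU, mem_filter] at haU'
  obtain ⟨haT, hat⟩ := haU'
  rw [hT, mem_filter] at haT
  refine ⟨a, haT.1, haT.2, ?_⟩
  intro c hc hcd
  have hcT : c ∈ T := mem_filter.mpr ⟨hc, hcd⟩
  rcases lt_or_eq_of_le (hmin c hcT) with h1 | h1
  · left
    rw [hat]
    exact h1
  · right
    refine ⟨by rw [hat]; exact h1, ?_⟩
    apply hamin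
    show c ∈ (U : Set E)
    rw [Finset.mem_coe, hU, mem_filter]
    exact ⟨hcT, h1.symm⟩

theorem hit_unique {q : E} {R : Finset E} {v x a b : E} (ha : IsHit q R v x a)
    (hb : IsHit q R v x b) : a = b := by
  obtain ⟨haR, had, hamin⟩ := ha
  obtain ⟨hbR, hbd, hbmin⟩ := hb
  rcases hamin b hbR hbd with h1 | ⟨h1, h1'⟩
  · rcases hbmin a haR had with h2 | ⟨h2, _⟩
    · exact absurd h1 (not_lt.mpr h2.le)
    · exact absurd h1 (by rw [h2]; exact lt_irrefl _)
  · rcases hbmin a haR had with h2 | ⟨_, h2'⟩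
    · exact absurd h2 (by rw [h1]; exact lt_irrefl _)
    · have : IsWellOrder E WellOrderingRel := WellOrderingRel.isWellOrder
      rcases trichotomous_of (WellOrderingRel : E → E → Prop) a b with h3 | h3 | h3
      · exact absurd h3 h2'
      · exact h3
      · exact absurd h3 h1'

theorem hit_spec {q : E} {R : Finset E} {v x : E} (h : ∃ a, IsHit q R v x a) :
    IsHit q R v x (hit q R v x) := by
  unfold hit
  rw [dif_pos h]
  exact h.choose_spec

theorem hit_subset {q : E} {R R' : Finset E} {v x : E} (hR : R' ⊆ R)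
    (h : ∃ a, IsHit q R v x a) (ha : hit q R v x ∈ R') : hit q R' v x = hit q R v x := by
  have h1 := hit_spec h
  have h2 : IsHit q R' v x (hit q R v x) := ⟨ha, h1.2.1, fun b hb hbd => h1.2.2 b (hR hb) hbd⟩
  exact hit_unique (hit_spec ⟨_, h2⟩) h2

/-- the plane hit by the ray does not contain the starting point. -/
theorem hit_ne {q : E} {R S : Finset E} {v x a : E} (hx : x ∈ K q R S)
    (ha : IsHit q R v x a) : 0 < phi a v * phi a q :=
  lt_of_le_of_lt (hx.1 a ha.1) ha.2.1

theorem tt_eq {q v x a : E} (h : phi a q ≠ 0) :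
    tt a v x = (phi a v * phi a q) / (phi a v * phi a q - phi a x * phi a q) := by
  unfold tt
  rw [← sub_mul, mul_div_mul_right _ _ h]

theorem tt_ge {q : E} {R S : Finset E} {v x a : E} (hv : v ∈ K q R S) (hx : x ∈ K q R S)
    (ha : IsHit q R v x a) : 1 ≤ tt a v x := by
  have h0 := hit_ne hx ha
  have hq : phi a q ≠ 0 := by
    intro h
    rw [h, mul_zero] at h0
    exact lt_irrefl _ h0
  have h1 : 0 ≤ phi a x * phi a q := hx.1 a ha.1
  have h2 : phi a x * phi a q < phi a v * phi a q := ha.2.1
  rw [tt_eq hq, le_div_iff₀ (by linarith)]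
  linarith

theorem pt_mem {q : E} {R S : Finset E} {v x a : E} (hv : v ∈ K q R S) (hx : x ∈ K q R S)
    (ha : IsHit q R v x a) : pt v x a ∈ K q R (insert a S) := by
  have hT : 1 ≤ tt a v x := tt_ge hv hx ha
  have h0 := hit_ne hx ha
  have h2 : phi a x * phi a q < phi a v * phi a q := ha.2.1
  constructor
  · intro y hy
    rw [phi_pt]
    have hvy := hv.1 y hy
    have hxy := hx.1 y hy
    have hexp : (phi y v + tt a v x * (phi y x - phi y v)) * phi y q
        = phi y v * phi y q + tt a v x * (phi y x * phi y q - phi y v * phi y q) := by ring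
    rw [hexp]
    by_cases hd : Dec q v x y
    · have hle : tt a v x ≤ tt y v x := by
        rcases ha.2.2 y hy hd with h3 | h3
        · exact h3.le
        · exact h3.1.le
      have hd' : phi y x * phi y q < phi y v * phi y q := hd
      have hqy : phi y q ≠ 0 := by
        intro h
        rw [h, mul_zero, mul_zero] at hd'
        exact lt_irrefl _ hd'
      rw [tt_eq hqy, le_div_iff₀ (by linarith)] at hle
      linarith
    · have hd' : phi y v * phi y q ≤ phi y x * phi y q := not_lt.mp hd
      have : 0 ≤ tt a v x * (phi y x * phi y q - phi y v * phi y q) :=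
        mul_nonneg (by linarith) (by linarith)
      linarith
  · intro y hy
    rw [phi_pt]
    rcases mem_insert.mp hy with rfl | hyS
    · have hne : phi y v - phi y x ≠ 0 := by
        intro h
        have : phi y v = phi y x := by linarith
        rw [this] at h2
        exact lt_irrefl _ h2
      unfold tt
      field_simp
      ring
    · rw [hv.2 y hyS, hx.2 y hyS]
      ring

theorem mem_segment_pt {q : E} {R S : Finset E} {v x a : E} (hv : v ∈ K q R S)
    (hx : x ∈ K q R S) (ha : IsHit q R v x a) : x ∈ segment ℝ v (pt v x a) := by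
  have hT : 1 ≤ tt a v x := tt_ge hv hx ha
  have hT0 : tt a v x ≠ 0 := by
    intro h
    rw [h] at hT
    linarith
  rw [segment_eq_image']
  refine ⟨(tt a v x)⁻¹, ⟨by positivity, inv_le_one_of_one_le₀ hT⟩, ?_⟩
  unfold pt
  simp only [add_sub_cancel_left]
  rw [smul_smul, inv_mul_cancel₀ hT0, one_smul]
  abel

end Pool.Agent.H72.PP
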