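import Pool.Agent.H72.PP.MinNorm
import Pool.Agent.H72.PP.Hit

set_option autoImplicit false
open Finset

namespace Pool.Agent.H72.PP

variable {L : ℝ} {R : Finset E} {q : E}

theorem flag0 (hR : ∀ y ∈ R, phi y q ≠ 0) :
    q ∈ K q R ∅ ∧ v0 q R ∈ K q R ∅ ∧ ∀ z ∈ K q R ∅, ‖v0 q R‖ ≤ ‖z‖ := by
  have hq : q ∈ K q R ∅ := ⟨fun y _ => mul_self_nonneg _, fun y hy => by simp at hy⟩
  have h := mn_spec (isClosed_K q R ∅) ⟨q, hq⟩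
  exact ⟨hq, h.1, h.2⟩

theorem flag1 (hL : 0 < L) (hB : Bx L ⊆ R) (hq : InBox L q) (hR : ∀ y ∈ R, phi y q ≠ 0)
    (h0 : q ≠ v0 q R) :
    IsHit q R (v0 q R) q (a1 q R) ∧ x1 q R ∈ K q R {a1 q R} ∧ v1 q R ∈ K q R {a1 q R} ∧
      q ∈ segment ℝ (v0 q R) (x1 q R) := by
  obtain ⟨hqK, hvK, _⟩ := flag0 hR
  have hh : IsHit q R (v0 q R) q (a1 q R) := hit_spec (exists_hit hL hB hq h0)
  have hx : x1 q R ∈ K q R {a1 q R} := by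
    have := pt_mem hvK hqK hh
    simpa [x1] using this
  refine ⟨hh, hx, (mn_spec (isClosed_K q R _) ⟨_, hx⟩).1, mem_segment_pt hvK hqK hh⟩

theorem flag2 (hL : 0 < L) (hB : Bx L ⊆ R) (hq : InBox L q) (hR : ∀ y ∈ R, phi y q ≠ 0)
    (h0 : q ≠ v0 q R) (h1 : x1 q R ≠ v1 q R) :
    IsHit q R (v1 q R) (x1 q R) (a2 q R) ∧ x2 q R ∈ K q R {a1 q R, a2 q R} ∧
      v2 q R ∈ K q R {a1 q R, a2 q R} ∧ x1 q R ∈ segment ℝ (v1 q R) (x2 q R) := by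
  obtain ⟨_, hxK, hvK, _⟩ := flag1 hL hB hq hR h0
  have hh : IsHit q R (v1 q R) (x1 q R) (a2 q R) := hit_spec (exists_hit hL hB hq h1)
  have hx : x2 q R ∈ K q R {a1 q R, a2 q R} := by
    have := pt_mem hvK hxK hh
    rwa [Finset.pair_comm (a2 q R) (a1 q R)] at this
  refine ⟨hh, hx, (mn_spec (isClosed_K q R _) ⟨_, hx⟩).1, mem_segment_pt hvK hxK hh⟩

theorem flag3 (hL : 0 < L) (hB : Bx L ⊆ R) (hq : InBox L q) (hR : ∀ y ∈ R, phi y q ≠ 0)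
    (h0 : q ≠ v0 q R) (h1 : x1 q R ≠ v1 q R) (h2 : x2 q R ≠ v2 q R) :
    IsHit q R (v2 q R) (x2 q R) (a3 q R) ∧ x3 q R ∈ K q R {a1 q R, a2 q R, a3 q R} ∧
      v3 q R ∈ K q R {a1 q R, a2 q R, a3 q R} ∧ x2 q R ∈ segment ℝ (v2 q R) (x3 q R) := by
  obtain ⟨_, hxK, hvK, _⟩ := flag2 hL hB hq hR h0 h1
  have hh : IsHit q R (v2 q R) (x2 q R) (a3 q R) := hit_spec (exists_hit hL hB hq h2)
  have hset : (insert (a3 q R) {a1 q R, a2 q R} : Finset E) = {a1 q R, a2 q R, a3 q R} := by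
    ext z
    simp only [mem_insert, mem_singleton]
    tauto
  have hx : x3 q R ∈ K q R {a1 q R, a2 q R, a3 q R} := by
    have := pt_mem hvK hxK hh
    rwa [hset] at this
  refine ⟨hh, hx, (mn_spec (isClosed_K q R _) ⟨_, hx⟩).1, mem_segment_pt hvK hxK hh⟩

end Pool.Agent.H72.PP
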