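import Pool.Agent.H72.PP.Flag
import Pool.Agent.H72.PP.Avoid

set_option autoImplicit false
open Finset

namespace Pool.Agent.H72.PP

/-- the cell given by the sets of planes on whose positive and negative sides it lies. -/
def KK (P N R S : Finset E) : Set E :=
  {z | (∀ y ∈ R, (y ∈ P → 0 ≤ phi y z) ∧ (y ∈ N → phi y z ≤ 0)) ∧ ∀ y ∈ S, phi y z = 0}

open Classical in
theorem K_eq_KK (q : E) (W R S : Finset E) (hR : R ⊆ W) :
    K q R S = KK (W.filter fun y => 0 < phi y q) (W.filter fun y => phi y q < 0) R S := by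
  ext z
  constructor
  · rintro ⟨h1, h2⟩
    refine ⟨fun y hy => ⟨fun hp => ?_, fun hn => ?_⟩, h2⟩
    · exact nonneg_of_mul_nonneg_left (h1 y hy) (mem_filter.1 hp).2
    · by_contra hc
      push Not at hc
      have := mul_neg_of_pos_of_neg hc (mem_filter.1 hn).2
      exact absurd (h1 y hy) (not_le.2 this)
  · rintro ⟨h1, h2⟩
    refine ⟨fun y hy => ?_, h2⟩
    rcases lt_trichotomy (phi y q) 0 with h | h | h
    · exact mul_nonneg_of_nonpos_of_nonpos ((h1 y hy).2 (mem_filter.2 ⟨hR hy, h⟩)) h.le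
    · rw [h, mul_zero]
    · exact mul_nonneg ((h1 y hy).1 (mem_filter.2 ⟨hR hy, h⟩)) h.le

/-- only finitely many minimal-norm points occur. -/
theorem finite_mn (W : Finset E) :
    ∃ F : Finset E, ∀ q : E, ∀ R ⊆ W, ∀ S ⊆ W, mn (K q R S) ∈ F := by
  classical
  refine ⟨(W.powerset ×ˢ W.powerset ×ˢ W.powerset ×ˢ W.powerset).image
    fun t => mn (KK t.1 t.2.1 t.2.2.1 t.2.2.2), fun q R hR S hS => ?_⟩
  rw [K_eq_KK q W R S hR, mem_image]
  refine ⟨⟨W.filter fun y => 0 < phi y q, W.filter fun y => phi y q < 0, R, S⟩, ?_, rfl⟩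
  simp only [mem_product, mem_powerset]
  exact ⟨filter_subset _ _, filter_subset _ _, hR, hS⟩

theorem aff_segment (f : ℝ × E) {v w z : E} (hz : z ∈ segment ℝ v w) (hv : aff f v = 0)
    (hw : aff f w = 0) : aff f z = 0 := by
  rw [segment_eq_image'] at hz
  obtain ⟨t, _, rfl⟩ := hz
  simp only
  rw [aff_add_smul, hv, hw]
  ring

/-- the non-degeneracy conditions `g0`, `g1`, `g2` hold outside finitely many planes. -/
theorem genA (L : ℝ) (hL : 0 < L) (W : Finset E) :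
    ∃ F : Finset (ℝ × E), (∀ f ∈ F, f ≠ 0) ∧ ∀ q : E, InBox L q → (∀ f ∈ F, aff f q ≠ 0) →
      (∀ y ∈ W, phi y q ≠ 0) ∧
      ∀ R ⊆ W, Bx L ⊆ R → q ≠ v0 q R ∧ x1 q R ≠ v1 q R ∧ x2 q R ≠ v2 q R := by
  classical
  obtain ⟨V, hV⟩ := finite_mn W
  refine ⟨(W.image fun y => ((1 : ℝ), -y)) ∪ (V ×ˢ V ×ˢ V).image
    fun t => (exists_three t.1 t.2.1 t.2.2).choose, ?_, ?_⟩
  · intro f hf
    rw [mem_union, mem_image, mem_image] at hf
    rcases hf with ⟨y, _, rfl⟩ | ⟨t, _, rfl⟩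
    · intro h
      have := (Prod.ext_iff.1 h).1
      simp at this
    · exact (exists_three t.1 t.2.1 t.2.2).choose_spec.1
  intro q hq hF
  have hne : ∀ y ∈ W, phi y q ≠ 0 := by
    intro y hy
    have := hF (1, -y) (mem_union_left _ (mem_image_of_mem _ hy))
    unfold aff at this
    unfold phi
    rw [inner_neg_left] at this
    exact fun h => this (by linarith)
  have h3 : ∀ p ∈ V, ∀ r ∈ V, ∀ s ∈ V, ∃ f : ℝ × E, aff f p = 0 ∧ aff f r = 0 ∧ aff f s = 0 ∧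
      aff f q ≠ 0 := by
    intro p hp r hr s hs
    have hsp := (exists_three p r s).choose_spec
    refine ⟨(exists_three p r s).choose, hsp.2.1, hsp.2.2.1, hsp.2.2.2, ?_⟩
    refine hF _ (mem_union_right _ (mem_image.2 ⟨⟨p, r, s⟩, ?_, rfl⟩))
    simp only [mem_product]
    exact ⟨hp, hr, hs⟩
  refine ⟨hne, fun R hR hB => ?_⟩
  have hneR : ∀ y ∈ R, phi y q ≠ 0 := fun y hy => hne y (hR hy)
  have m0 : v0 q R ∈ V := hV q R hR ∅ (empty_subset _)
  have g0 : q ≠ v0 q R := by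
    intro h
    obtain ⟨f, f1, _, _, f4⟩ := h3 _ m0 _ m0 _ m0
    exact f4 (by rw [h]; exact f1)
  obtain ⟨e1, _, _, s1⟩ := flag1 hL hB hq hneR g0
  have ha1 : a1 q R ∈ W := hR e1.1
  have m1 : v1 q R ∈ V := hV q R hR {a1 q R} (by simpa using ha1)
  have g1 : x1 q R ≠ v1 q R := by
    intro h
    obtain ⟨f, f1, f2, _, f4⟩ := h3 _ m0 _ m1 _ m1
    rw [h] at s1
    exact f4 (aff_segment f s1 f1 f2)
  obtain ⟨e2, _, _, s2⟩ := flag2 hL hB hq hneR g0 g1
  have ha2 : a2 q R ∈ W := hR e2.1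
  have m2 : v2 q R ∈ V := hV q R hR {a1 q R, a2 q R} (by
    intro z hz
    rw [mem_insert, mem_singleton] at hz
    rcases hz with rfl | rfl
    · exact ha1
    · exact ha2)
  refine ⟨g0, g1, fun h => ?_⟩
  obtain ⟨f, f1, f2, f3, f4⟩ := h3 _ m0 _ m1 _ m2
  rw [h] at s2
  exact f4 (aff_segment f s1 f1 (aff_segment f s2 f2 f3))

end Pool.Agent.H72.PP
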