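import Pool.Agent.H72.PP.GenA

set_option autoImplicit false
open Finset

namespace Pool.Agent.H72.PP

/-- If the ray from `v` through `q` meets the plane `a` at a point of another plane `b`, then an
explicit affine function vanishes at `q`. -/
theorem psi_zero {v q a b : E} (ha : phi a v ≠ phi a q) (hb : phi b (pt v q a) = 0) :
    phi a v * phi b q - phi b v * phi a q = 0 := by
  have hD : phi a v - phi a q ≠ 0 := sub_ne_zero.2 ha
  rw [phi_pt] at hb
  unfold tt at hb
  field_simp at hb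
  linear_combination hb

/-- the value of an affine function at the hitting point. -/
theorem genB_val {v q a : E} (ha : phi a v ≠ phi a q) (c : E) :
    phi c (pt v q a) * (phi a v - phi a q) = phi a v * phi c q - phi c v * phi a q := by
  have hD : phi a v - phi a q ≠ 0 := sub_ne_zero.2 ha
  rw [phi_pt]
  unfold tt
  field_simp
  ring

/-- the same one step later. -/
theorem theta_zero {v v' q a b c : E} (ha : phi a v ≠ phi a q) (hv' : phi a v' = 0)
    (hb : phi b v' ≠ phi b (pt v q a)) (hc : phi c (pt v' (pt v q a) b) = 0) :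
    phi b v' * (phi a v * phi c q - phi c v * phi a q) -
      phi c v' * (phi a v * phi b q - phi b v * phi a q) = 0 := by
  have h1 := psi_zero hb hc
  rw [← genB_val ha c, ← genB_val ha b]
  linear_combination (phi a v - phi a q) * h1

/-- the first family of affine functions. -/
noncomputable def genB_f1 (a b v : E) : ℝ × E :=
  (phi a v - phi b v, phi b v • a - phi a v • b)

theorem genB_aff1 (a b v z : E) :
    aff (genB_f1 a b v) z = phi a v * phi b z - phi b v * phi a z := by
  unfold aff genB_f1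
  simp only
  rw [inner_sub_left, real_inner_smul_left, real_inner_smul_left]
  have h1 : phi b z = 1 - inner ℝ b z := rfl
  have h2 : phi a z = 1 - inner ℝ a z := rfl
  rw [h1, h2]
  ring

theorem genB_f1_ne {a b v : E} (hab : a ≠ b) (hv : phi a v ≠ 0) : genB_f1 a b v ≠ 0 := by
  intro h
  have h1 : phi a v - phi b v = 0 := congrArg Prod.fst h
  have h2 : phi b v • a - phi a v • b = 0 := congrArg Prod.snd h
  have h3 : phi b v = phi a v := by linarith
  rw [h3, ← smul_sub] at h2
  rcases smul_eq_zero.1 h2 with h4 | h4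
  · exact hv h4
  · exact hab (sub_eq_zero.1 h4)

/-- the second family of affine functions. -/
noncomputable def genB_f2 (a b c v v' : E) : ℝ × E :=
  (-((phi b v' * phi c v - phi c v' * phi b v) + phi c v' * phi a v - phi b v' * phi a v),
    (phi b v' * phi c v - phi c v' * phi b v) • a + (phi c v' * phi a v) • b +
      (-(phi b v' * phi a v)) • c)

theorem genB_aff2 (a b c v v' z : E) :
    aff (genB_f2 a b c v v') z = phi b v' * (phi a v * phi c z - phi c v * phi a z) -
      phi c v' * (phi a v * phi b z - phi b v * phi a z) := by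
  unfold aff genB_f2
  simp only
  rw [inner_add_left, inner_add_left, real_inner_smul_left, real_inner_smul_left,
    real_inner_smul_left]
  have h1 : phi b z = 1 - inner ℝ b z := rfl
  have h2 : phi a z = 1 - inner ℝ a z := rfl
  have h3 : phi c z = 1 - inner ℝ c z := rfl
  rw [h1, h2, h3]
  ring

/-- linear independence of three vectors, spelled out. -/
def genB_ind (a b c : E) : Prop :=
  ∀ α β γ : ℝ, α • a + β • b + γ • c = 0 → γ = 0

theorem genB_f2_ne {a b c v v' : E} (h : genB_ind a b c) (hv : phi a v ≠ 0) (hv' : phi b v' ≠ 0) :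
    genB_f2 a b c v v' ≠ 0 := by
  intro h0
  have h2 : (phi b v' * phi c v - phi c v' * phi b v) • a + (phi c v' * phi a v) • b +
      (-(phi b v' * phi a v)) • c = 0 := congrArg Prod.snd h0
  have h3 := h _ _ _ h2
  rw [neg_eq_zero] at h3
  exact mul_ne_zero hv' hv h3

open Classical in
/-- the conditions `g1'` and `g2'` hold outside finitely many planes. -/
theorem genB (L : ℝ) (hL : 0 < L) (W : Finset E) :
    ∃ F : Finset (ℝ × E), (∀ f ∈ F, f ≠ 0) ∧ ∀ q : E, InBox L q → (∀ f ∈ F, aff f q ≠ 0) →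
      (∀ y ∈ W, phi y q ≠ 0) →
      (∀ R ⊆ W, Bx L ⊆ R → q ≠ v0 q R ∧ x1 q R ≠ v1 q R ∧ x2 q R ≠ v2 q R) →
      ∀ R ⊆ W, Bx L ⊆ R →
        (∀ y ∈ R, y ≠ a1 q R → 0 < phi y (x1 q R) * phi y q) ∧
        (∀ y ∈ R, phi y (x2 q R) = 0 → ∃ μ : ℝ, y = a1 q R + μ • (a2 q R - a1 q R)) := by
  obtain ⟨V, hV⟩ := finite_mn W
  set F1 : Finset (ℝ × E) := ((W ×ˢ W ×ˢ V).filter
    (fun p => p.1 ≠ p.2.1 ∧ phi p.1 p.2.2 ≠ 0)).image (fun p => genB_f1 p.1 p.2.1 p.2.2) with hF1
  set F2 : Finset (ℝ × E) := ((W ×ˢ W ×ˢ W ×ˢ V ×ˢ V).filter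
    (fun p => genB_ind p.1 p.2.1 p.2.2.1 ∧ phi p.1 p.2.2.2.1 ≠ 0 ∧ phi p.2.1 p.2.2.2.2 ≠ 0)).image
      (fun p => genB_f2 p.1 p.2.1 p.2.2.1 p.2.2.2.1 p.2.2.2.2) with hF2
  have m1 : ∀ a ∈ W, ∀ b ∈ W, ∀ v ∈ V, a ≠ b → phi a v ≠ 0 → genB_f1 a b v ∈ F1 := by
    intro a ha b hb v hv hab h
    rw [hF1, mem_image]
    refine ⟨(a, b, v), ?_, rfl⟩
    rw [mem_filter]
    exact ⟨mem_product.2 ⟨ha, mem_product.2 ⟨hb, hv⟩⟩, hab, h⟩
  have m2 : ∀ a ∈ W, ∀ b ∈ W, ∀ c ∈ W, ∀ v ∈ V, ∀ v' ∈ V, genB_ind a b c → phi a v ≠ 0 →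
      phi b v' ≠ 0 → genB_f2 a b c v v' ∈ F2 := by
    intro a ha b hb c hc v hv v' hv' hi h h'
    rw [hF2, mem_image]
    refine ⟨(a, b, c, v, v'), ?_, rfl⟩
    rw [mem_filter]
    exact ⟨mem_product.2 ⟨ha, mem_product.2 ⟨hb, mem_product.2 ⟨hc,
      mem_product.2 ⟨hv, hv'⟩⟩⟩⟩, hi, h, h'⟩
  refine ⟨F1 ∪ F2, ?_, ?_⟩
  · intro f hf
    rcases mem_union.1 hf with hf | hf
    · rw [hF1, mem_image] at hf
      obtain ⟨p, hp, rfl⟩ := hf
      rw [mem_filter] at hp
      exact genB_f1_ne hp.2.1 hp.2.2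
    · rw [hF2, mem_image] at hf
      obtain ⟨p, hp, rfl⟩ := hf
      rw [mem_filter] at hp
      exact genB_f2_ne hp.2.1 hp.2.2.1 hp.2.2.2
  intro q hq hF hW hA R hR hB
  obtain ⟨n0, n1, n2⟩ := hA R hR hB
  have hRq : ∀ y ∈ R, phi y q ≠ 0 := fun y hy => hW y (hR hy)
  obtain ⟨hqK, hv0K, _⟩ := flag0 hRq
  obtain ⟨hh1, hx1K, hv1K, _⟩ := flag1 hL hB hq hRq n0
  obtain ⟨hh2, hx2K, hv2K, _⟩ := flag2 hL hB hq hRq n0 n1
  have ha1R : a1 q R ∈ R := hh1.1
  have ha2R : a2 q R ∈ R := hh2.1
  have hv0V : v0 q R ∈ V := hV q R hR ∅ (Finset.empty_subset _)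
  have hv1V : v1 q R ∈ V := hV q R hR {a1 q R} (by
    intro y hy
    rw [mem_singleton] at hy
    rw [hy]
    exact hR ha1R)
  have hd1 : phi (a1 q R) (v0 q R) ≠ phi (a1 q R) q := by
    intro h
    have := hh1.2.1
    unfold Dec at this
    rw [h] at this
    exact lt_irrefl _ this
  have hd2 : phi (a2 q R) (v1 q R) ≠ phi (a2 q R) (x1 q R) := by
    intro h
    have := hh2.2.1
    unfold Dec at this
    rw [h] at this
    exact lt_irrefl _ this
  have hp1 : phi (a1 q R) (v0 q R) ≠ 0 := by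
    intro h
    have := hit_ne hqK hh1
    rw [h, zero_mul] at this
    exact lt_irrefl _ this
  have hp2 : phi (a2 q R) (v1 q R) ≠ 0 := by
    intro h
    have := hit_ne hx1K hh2
    rw [h, zero_mul] at this
    exact lt_irrefl _ this
  refine ⟨?_, ?_⟩
  · intro y hy hya
    have h0 : 0 ≤ phi y (x1 q R) * phi y q := hx1K.1 y hy
    refine lt_of_le_of_ne h0 fun h => ?_
    have h1 : phi y (x1 q R) = 0 := by
      rcases mul_eq_zero.1 h.symm with h2 | h2
      · exact h2
      · exact absurd h2 (hRq y hy)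
    have h2 := psi_zero hd1 h1
    rw [← genB_aff1] at h2
    exact hF _ (mem_union_left _ (m1 _ (hR ha1R) _ (hR hy) _ hv0V (Ne.symm hya) hp1)) h2
  · intro y hy hy2
    have hne : a1 q R ≠ a2 q R := by
      intro h
      apply hp2
      rw [← h]
      exact hv1K.2 _ (mem_singleton_self _)
    by_cases hi : genB_ind (a1 q R) (a2 q R) y
    · exfalso
      have hv' : phi (a1 q R) (v1 q R) = 0 := hv1K.2 _ (mem_singleton_self _)
      have h2 := theta_zero (v := v0 q R) (v' := v1 q R) (q := q) (a := a1 q R) (b := a2 q R)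
        (c := y) hd1 hv' hd2 hy2
      rw [← genB_aff2] at h2
      exact hF _ (mem_union_right _ (m2 _ (hR ha1R) _ (hR ha2R) _ (hR hy) _ hv0V _ hv1V hi hp1
        hp2)) h2
    · unfold genB_ind at hi
      push Not at hi
      obtain ⟨α, β, γ, h0, hγ⟩ := hi
      have e1 : inner ℝ (a1 q R) (x2 q R) = (1 : ℝ) := by
        have : phi (a1 q R) (x2 q R) = 0 := hx2K.2 _ (by simp)
        unfold phi at this
        linarith
      have e2 : inner ℝ (a2 q R) (x2 q R) = (1 : ℝ) := by
        have : phi (a2 q R) (x2 q R) = 0 := hx2K.2 _ (by simp)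
        unfold phi at this
        linarith
      have e3 : inner ℝ y (x2 q R) = (1 : ℝ) := by
        unfold phi at hy2
        linarith
      have h1 : α + β + γ = 0 := by
        have h2 := congrArg (fun w : E => (inner ℝ w (x2 q R) : ℝ)) h0
        simp only [inner_add_left, real_inner_smul_left, inner_zero_left] at h2
        rw [e1, e2, e3] at h2
        linarith
      refine ⟨-(β / γ), ?_⟩
      have h3 : γ • y = -(α • a1 q R) - β • a2 q R := by
        have h4 : γ • y = (α • a1 q R + β • a2 q R + γ • y) - α • a1 q R - β • a2 q R := by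
          abel
        rw [h4, h0]
        abel
      have h5 : y = (γ⁻¹ * γ) • y := by rw [inv_mul_cancel₀ hγ, one_smul]
      rw [mul_smul, h3] at h5
      have h6 : α = -γ - β := by linarith
      rw [h5, h6]
      rw [smul_sub, smul_neg, smul_smul, smul_smul]
      have h7 : γ⁻¹ * (-γ - β) = -1 - β / γ := by
        field_simp
      have h8 : γ⁻¹ * β = β / γ := by
        field_simp
      rw [h7, h8]
      module

/-- generic points are dense in the box. -/
theorem exists_gen (L : ℝ) (hL : 0 < L) (W : Finset E) (x : E) (hx : InBox L x) {U : Set E}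
    (hU : U ∈ nhds x) : ∃ q ∈ U, Gen L W q := by
  classical
  obtain ⟨FA, hFA, hA⟩ := genA L hL W
  obtain ⟨FB, hFB, hB⟩ := genB L hL W
  have hbox : {z : E | InBox L z} ∈ nhds x := by
    apply IsOpen.mem_nhds _ hx
    have h1 : {z : E | InBox L z} = ⋂ i : Fin 3, {z : E | |z i| < L} := by
      ext z
      simp [InBox]
    rw [h1]
    refine isOpen_iInter_of_finite fun i => ?_
    apply isOpen_lt _ continuous_const
    fun_prop
  obtain ⟨q, ⟨hqU, hqb⟩, hq⟩ := avoid (FA ∪ FB) (by
    intro f hf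
    rcases mem_union.1 hf with hf | hf
    · exact hFA f hf
    · exact hFB f hf) x (Filter.inter_mem hU hbox)
  have h1 := hA q hqb (fun f hf => hq f (mem_union_left _ hf))
  have h2 := hB q hqb (fun f hf => hq f (mem_union_right _ hf)) h1.1 h1.2
  exact ⟨q, hqU, {
    box := hqb
    ne := h1.1
    g0 := fun R hR hBR => (h1.2 R hR hBR).1
    g1 := fun R hR hBR => (h1.2 R hR hBR).2.1
    g1' := fun R hR hBR => (h2 R hR hBR).1
    g2 := fun R hR hBR => (h1.2 R hR hBR).2.2
    g2' := fun R hR hBR => (h2 R hR hBR).2 }⟩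

end Pool.Agent.H72.PP
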