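import Pool.Agent.H72.PP.GenB
import Pool.Agent.H72.PP.Descr
import Pool.Agent.H72.PP.Excep

set_option autoImplicit false
open Finset

namespace Pool.Agent.H72.PP

theorem exists_box (X : Finset E) : ∃ L : ℝ, 0 < L ∧ ∀ x ∈ X, InBox L x := by
  have hn : 0 ≤ ∑ x ∈ X, ‖x‖ := Finset.sum_nonneg fun x _ => norm_nonneg x
  refine ⟨1 + ∑ x ∈ X, ‖x‖, by linarith, ?_⟩
  intro x hx i
  have h1 : ‖x‖ ≤ ∑ x ∈ X, ‖x‖ :=
    Finset.single_le_sum (f := fun x : E => ‖x‖) (fun x _ => norm_nonneg x) hx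
  have h2 : ‖x i‖ ≤ ‖x‖ := PiLp.norm_apply_le x i
  rw [Real.norm_eq_abs] at h2
  linarith

theorem card_Bx (L : ℝ) : (Bx L).card ≤ 6 := by
  unfold Bx
  refine Finset.card_image_le.trans ?_
  simp

theorem phi_pos_of_box {L : ℝ} (hL : 0 < L) {x y : E} (hx : InBox L x) (hy : y ∈ Bx L) :
    0 < phi y x := by
  unfold Bx at hy
  obtain ⟨⟨i, s⟩, -, rfl⟩ := mem_image.mp hy
  have hLi : 0 < L⁻¹ := inv_pos.mpr hL
  have hLL : L⁻¹ * L = 1 := inv_mul_cancel₀ hL.ne'
  have hxi := abs_lt.mp (hx i)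
  show 0 < phi (EuclideanSpace.single i (if s = true then L⁻¹ else -L⁻¹)) x
  rw [phi_single]
  have h1 : L⁻¹ * x i < L⁻¹ * L := mul_lt_mul_of_pos_left hxi.2 hLi
  have h2 : L⁻¹ * (-L) < L⁻¹ * x i := mul_lt_mul_of_pos_left hxi.1 hLi
  cases s
  · simp only [Bool.false_eq_true, if_false]
    linarith
  · simp only [if_true]
    linarith

/-- the vertices are minimal-norm points of cells. -/
theorem vert_mem_mn {L : ℝ} {W R : Finset E} {q : E} (hL : 0 < L) (hg : Gen L W q) (hR : R ⊆ W)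
    (hB : Bx L ⊆ R) {F : Finset E} (hF : ∀ q : E, ∀ R ⊆ W, ∀ S ⊆ W, mn (K q R S) ∈ F) (i : Fin 4) :
    vert q R i ∈ F := by
  have hqR : ∀ y ∈ R, phi y q ≠ 0 := fun y hy => hg.ne y (hR hy)
  obtain ⟨hit1, -, -, -⟩ := flag1 hL hB hg.box hqR (hg.g0 R hR hB)
  obtain ⟨hit2, -, -, -⟩ := flag2 hL hB hg.box hqR (hg.g0 R hR hB) (hg.g1 R hR hB)
  obtain ⟨hit3, -, -, -⟩ := flag3 hL hB hg.box hqR (hg.g0 R hR hB) (hg.g1 R hR hB)
    (hg.g2 R hR hB)
  have h1 := hR hit1.1
  have h2 := hR hit2.1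
  have h3 := hR hit3.1
  fin_cases i
  · exact hF q R hR ∅ (empty_subset _)
  · exact hF q R hR {a1 q R} (by
      intro z hz
      rw [mem_singleton] at hz
      rw [hz]
      exact h1)
  · exact hF q R hR {a1 q R, a2 q R} (by
      intro z hz
      rw [mem_insert, mem_singleton] at hz
      rcases hz with rfl | rfl
      · exact h1
      · exact h2)
  · exact hF q R hR {a1 q R, a2 q R, a3 q R} (by
      intro z hz
      rw [mem_insert, mem_insert, mem_singleton] at hz
      rcases hz with rfl | rfl | rfl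
      · exact h1
      · exact h2
      · exact h3)

/-- a generic point near `x`. -/
theorem exists_near {L : ℝ} (hL : 0 < L) (W F : Finset E) {x : E} (hx : InBox L x) :
    ∃ q, Gen L W q ∧ (∀ y ∈ W, phi y x ≠ 0 → 0 < phi y x * phi y q) ∧
      ∀ V : Fin 4 → E, (∀ i, V i ∈ F) → q ∈ convexHull ℝ (Set.range V) →
        x ∈ convexHull ℝ (Set.range V) := by
  classical
  have hU : {z : E | (∀ y ∈ W, phi y x ≠ 0 → 0 < phi y x * phi y z) ∧
      ∀ V ∈ Fintype.piFinset (fun _ : Fin 4 => F), x ∉ convexHull ℝ (Set.range V) →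
        z ∉ convexHull ℝ (Set.range V)} ∈ nhds x := by
    apply Filter.inter_mem
    · show ∀ᶠ z in nhds x, ∀ y ∈ W, phi y x ≠ 0 → 0 < phi y x * phi y z
      rw [Filter.eventually_all_finset]
      intro y _
      by_cases h : phi y x = 0
      · exact Filter.Eventually.of_forall fun z hz => absurd h hz
      · have hcont : Continuous fun z : E => phi y x * phi y z := by
          unfold phi
          fun_prop
        have h1 : 0 < phi y x * phi y x := mul_self_pos.mpr h
        have h2 := hcont.continuousAt.eventually (lt_mem_nhds h1)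
        exact h2.mono fun z hz _ => hz
    · show ∀ᶠ z in nhds x, ∀ V ∈ Fintype.piFinset (fun _ : Fin 4 => F),
        x ∉ convexHull ℝ (Set.range V) → z ∉ convexHull ℝ (Set.range V)
      rw [Filter.eventually_all_finset]
      intro V _
      by_cases h : x ∈ convexHull ℝ (Set.range V)
      · exact Filter.Eventually.of_forall fun z hz => absurd h hz
      · have hcl : IsClosed (convexHull ℝ (Set.range V)) :=
          (Set.finite_range V).isClosed_convexHull (𝕜 := ℝ)
        have h2 : ∀ᶠ z in nhds x, z ∈ (convexHull ℝ (Set.range V))ᶜ :=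
          hcl.isOpen_compl.mem_nhds h
        exact h2.mono fun z hz _ => hz
  obtain ⟨q, hqU, hq⟩ := exists_gen L hL W x hx hU
  refine ⟨q, hq, hqU.1, ?_⟩
  intro V hV hqV
  by_contra hcon
  exact hqU.2 V (Fintype.mem_piFinset.mpr hV) hcon hqV

open Classical in
/-- Canonical simplices: summary of the geometry. -/
theorem geo (X Y : Finset E) (hX : ∀ x ∈ X, x ≠ 0) :
    ∃ V : E → Finset E → (Fin 4 → E),
      (∀ x ∈ X, ∀ R ⊆ Y, (R.filter fun y => V x (R.erase y) ≠ V x R).card ≤ 19) ∧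
      (∀ x ∈ X, ∀ R ⊆ Y, ∀ y ∈ R, ¬ Crosses y (V x R)) ∧
      (∀ R ⊆ Y, (X.image fun x => V x R).card ≤ 8 * (R.card + 6) ^ 3) ∧
      (∀ x ∈ X, ∀ R ⊆ Y, (∀ y ∈ R, ¬ Inc x y) → ∀ T ⊆ Y,
        (∀ y ∈ T, Inc x y ∧ ¬ Crosses y (V x R)) →
        T.card ≤ 1 ∨ ∃ i : Fin 3, V x R 0 ≠ V x R i.succ ∧
          (∃ c : ℝ, x = V x R 0 + c • (V x R i.succ - V x R 0)) ∧
          ∀ y ∈ T, Inc (V x R 0) y ∧ Inc (V x R i.succ) y) := by
  obtain ⟨L, hL, hbox⟩ := exists_box X
  obtain ⟨F, hF⟩ := finite_mn (Y ∪ Bx L)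
  have hex : ∀ x : E, ∃ q, x ∈ X → Gen L (Y ∪ Bx L) q ∧
      (∀ y ∈ Y ∪ Bx L, phi y x ≠ 0 → 0 < phi y x * phi y q) ∧
      ∀ V : Fin 4 → E, (∀ i, V i ∈ F) → q ∈ convexHull ℝ (Set.range V) →
        x ∈ convexHull ℝ (Set.range V) := by
    intro x
    by_cases h : x ∈ X
    · obtain ⟨q, hq⟩ := exists_near hL (Y ∪ Bx L) F (hbox x h)
      exact ⟨q, fun _ => hq⟩
    · exact ⟨0, fun h' => absurd h' h⟩
  choose qq hqq using hex
  have hRW : ∀ R ⊆ Y, R ∪ Bx L ⊆ Y ∪ Bx L := fun R hR => union_subset_union_left hR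
  have hBR : ∀ R : Finset E, Bx L ⊆ R ∪ Bx L := fun R => subset_union_right
  refine ⟨fun x R => vert (qq x) (R ∪ Bx L), ?_, ?_, ?_, ?_⟩
  · intro x hx R hR
    refine (Finset.card_le_card ?_).trans
      (vert_erase hL (hqq x hx).1 (hRW R hR) (hBR R))
    intro y hy
    rw [mem_filter] at hy ⊢
    obtain ⟨hyR, hyne⟩ := hy
    have hyB : y ∉ Bx L := by
      intro hyB
      apply hyne
      have : R.erase y ∪ Bx L = R ∪ Bx L := by
        ext z
        simp only [mem_union, mem_erase]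
        constructor
        · rintro (h | h)
          · exact Or.inl h.2
          · exact Or.inr h
        · rintro (h | h)
          · by_cases hz : z = y
            · exact Or.inr (hz ▸ hyB)
            · exact Or.inl ⟨hz, h⟩
          · exact Or.inr h
      show vert (qq x) (R.erase y ∪ Bx L) = vert (qq x) (R ∪ Bx L)
      rw [this]
    have heq : R.erase y ∪ Bx L = (R ∪ Bx L).erase y := by
      ext z
      simp only [mem_union, mem_erase]
      constructor
      · rintro (h | h)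
        · exact ⟨h.1, Or.inl h.2⟩
        · exact ⟨fun hz => hyB (hz ▸ h), Or.inr h⟩
      · rintro ⟨h1, h | h⟩
        · exact Or.inl ⟨h1, h⟩
        · exact Or.inr h
    refine ⟨mem_union_left _ hyR, hyB, ?_⟩
    rw [← heq]
    exact hyne
  · intro x hx R hR y hy
    exact not_crosses hL (hqq x hx).1 (hRW R hR) (hBR R) (mem_union_left _ hy)
  · intro R hR
    refine (card_vert hL X qq (fun x hx => (hqq x hx).1) (hRW R hR) (hBR R)).trans ?_
    have h1 : (R ∪ Bx L).card ≤ R.card + 6 :=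
      (card_union_le _ _).trans (Nat.add_le_add_left (card_Bx L) _)
    exact Nat.mul_le_mul_left _ (Nat.pow_le_pow_left h1 3)
  · intro x hx R hR hni T hT hTc
    obtain ⟨hg, hpos, hconv⟩ := hqq x hx
    apply excep hL hg (hRW R hR) (hBR R) (hX x hx)
    · intro y hy
      apply hpos y (hRW R hR hy)
      rcases mem_union.mp hy with h | h
      · intro h0
        exact hni y h ((inc_iff_phi x y).mpr h0)
      · exact (phi_pos_of_box hL (hbox x hx) h).ne'
    · exact hconv _ (fun i => vert_mem_mn hL hg (hRW R hR) (hBR R) hF i)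
        (mem_conv hL hg (hRW R hR) (hBR R))
    · exact hTc

end Pool.Agent.H72.PP
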