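import Pool.Agent.H72.PP.Defs

set_option autoImplicit false
open Finset

namespace Pool.Agent.H72.PP

theorem mn_spec {A : Set E} (hc : IsClosed A) (hne : A.Nonempty) :
    mn A ∈ A ∧ ∀ z ∈ A, ‖mn A‖ ≤ ‖z‖ := by
  have h : ∃ v ∈ A, ∀ z ∈ A, ‖v‖ ≤ ‖z‖ := by
    obtain ⟨v, hv, hd⟩ := hc.exists_infDist_eq_dist hne (0 : E)
    refine ⟨v, hv, fun z hz => ?_⟩
    have h1 : Metric.infDist (0 : E) A ≤ dist (0 : E) z := Metric.infDist_le_dist_of_mem hz
    rw [hd, dist_zero_left, dist_zero_left] at h1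
    exact h1
  unfold mn
  rw [dif_pos h]
  exact h.choose_spec

theorem mn_unique {A : Set E} (hconv : Convex ℝ A) {v : E} (hv : v ∈ A)
    (hmin : ∀ z ∈ A, ‖v‖ ≤ ‖z‖) : mn A = v := by
  have h : ∃ v ∈ A, ∀ z ∈ A, ‖v‖ ≤ ‖z‖ := ⟨v, hv, hmin⟩
  have hm : mn A ∈ A ∧ ∀ z ∈ A, ‖mn A‖ ≤ ‖z‖ := by
    unfold mn
    rw [dif_pos h]
    exact h.choose_spec
  have heq : ‖mn A‖ = ‖v‖ := le_antisymm (hm.2 v hv) (hmin _ hm.1)
  have hmid : (1 / 2 : ℝ) • mn A + (1 / 2 : ℝ) • v ∈ A :=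
    hconv hm.1 hv (by norm_num) (by norm_num) (by norm_num)
  have h1 := hmin _ hmid
  have h2 : ‖(1 / 2 : ℝ) • mn A + (1 / 2 : ℝ) • v‖ = (1 / 2 : ℝ) * ‖mn A + v‖ := by
    rw [← smul_add, norm_smul]
    norm_num
  rw [h2] at h1
  have h3 := parallelogram_law_with_norm ℝ (mn A) v
  have h4 : 2 * ‖v‖ ≤ ‖mn A + v‖ := by linarith
  have h5 : (2 * ‖v‖) * (2 * ‖v‖) ≤ ‖mn A + v‖ * ‖mn A + v‖ :=
    mul_self_le_mul_self (by positivity) h4
  have h6 : ‖mn A - v‖ * ‖mn A - v‖ ≤ 0 := by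
    rw [heq] at h3
    nlinarith
  have h7 : ‖mn A - v‖ = 0 := by
    have := mul_self_nonneg ‖mn A - v‖
    exact mul_self_eq_zero.1 (le_antisymm h6 this)
  exact sub_eq_zero.1 (norm_eq_zero.1 h7)

theorem continuous_phi (y : E) : Continuous (phi y) := by
  unfold phi
  fun_prop

theorem phi_combo (y z w : E) (a b : ℝ) (hab : a + b = 1) :
    phi y (a • z + b • w) = a * phi y z + b * phi y w := by
  unfold phi
  rw [inner_add_right, real_inner_smul_right, real_inner_smul_right]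
  have : (1 : ℝ) = a + b := hab.symm
  linear_combination this

theorem isClosed_K (q : E) (R S : Finset E) : IsClosed (K q R S) := by
  have h : K q R S = (⋂ y ∈ R, {z | 0 ≤ phi y z * phi y q}) ∩ ⋂ y ∈ S, {z | phi y z = 0} := by
    ext z
    simp [K]
  rw [h]
  refine IsClosed.inter ?_ ?_
  · refine isClosed_biInter fun y _ => ?_
    exact isClosed_le continuous_const ((continuous_phi y).mul continuous_const)
  · refine isClosed_biInter fun y _ => ?_
    exact isClosed_eq (continuous_phi y) continuous_const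

theorem convex_K (q : E) (R S : Finset E) : Convex ℝ (K q R S) := by
  intro z hz w hw a b ha hb hab
  refine ⟨fun y hy => ?_, fun y hy => ?_⟩
  · rw [phi_combo y z w a b hab]
    have h1 := mul_nonneg ha (hz.1 y hy)
    have h2 := mul_nonneg hb (hw.1 y hy)
    nlinarith
  · rw [phi_combo y z w a b hab, hz.2 y hy, hw.2 y hy]
    ring

/-- the minimal-norm point of a cell is determined by at most four of its planes (Helly). -/
theorem mn_basis (q : E) (R S : Finset E) (hne : (K q R S).Nonempty) :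
    ∃ B ⊆ R, B.card ≤ 4 ∧ ∀ R' ⊆ R, B ⊆ R' → mn (K q R' S) = mn (K q R S) := by
  obtain ⟨hv, hmin⟩ := mn_spec (isClosed_K q R S) hne
  set v := mn (K q R S) with hvdef
  rcases lt_or_ge R.card 4 with hR | hR
  · refine ⟨R, Subset.rfl, by omega, fun R' hR' hB => ?_⟩
    rw [Subset.antisymm hR' hB]
  obtain ⟨B, hB, hB4, hBe⟩ : ∃ B ⊆ R, B.card = 4 ∧ ∀ z : E, (∀ y ∈ B, z ∈ K q {y} S) →
      ‖v‖ ≤ ‖z‖ := by
    by_contra hcon
    push Not at hcon
    have hE : Module.finrank ℝ E = 3 := by simp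
    have := Convex.helly_theorem (𝕜 := ℝ) (F := fun y : E => K q {y} S ∩ Metric.ball (0 : E) ‖v‖)
      (s := R) (by rw [hE]; exact hR) (fun y _ => (convex_K q {y} S).inter (convex_ball _ _))
      (by
        intro I hI hc
        rw [hE] at hc
        obtain ⟨z, hz, hzv⟩ := hcon I hI hc
        refine ⟨z, ?_⟩
        simp only [Set.mem_iInter]
        intro y hy
        exact ⟨hz y hy, by rwa [mem_ball_zero_iff]⟩)
    obtain ⟨z, hz⟩ := this
    simp only [Set.mem_iInter] at hz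
    have hRne : R.Nonempty := card_pos.1 (by omega)
    obtain ⟨y0, hy0⟩ := hRne
    have hzK : z ∈ K q R S :=
      ⟨fun y hy => (hz y hy).1.1 y (mem_singleton_self _), (hz y0 hy0).1.2⟩
    have h1 := hmin z hzK
    have h2 := (hz y0 hy0).2
    rw [mem_ball_zero_iff] at h2
    linarith
  refine ⟨B, hB, hB4.le, fun R' hR' hBR' => ?_⟩
  refine mn_unique (convex_K q R' S) ⟨fun y hy => hv.1 y (hR' hy), hv.2⟩ fun z hz => ?_
  refine hBe z fun y hy => ⟨fun y' hy' => ?_, hz.2⟩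
  rw [mem_singleton] at hy'
  rw [hy']
  exact hz.1 y (hBR' hy)

end Pool.Agent.H72.PP
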