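import Pool.Agent.H72.PP.Flag

set_option autoImplicit false
open Finset

namespace Pool.Agent.H72.PP

variable {L : ℝ} {W R : Finset E} {q : E}

theorem K_mono_right {q : E} {R S : Finset E} {z : E} (h : z ∈ K q R S) : z ∈ K q R ∅ :=
  ⟨h.1, fun y hy => by simp at hy⟩

/-- the flag of a generic point. -/
theorem flag_gen (hL : 0 < L) (hg : Gen L W q) (hR : R ⊆ W) (hB : Bx L ⊆ R) :
    (q ∈ K q R ∅ ∧ v0 q R ∈ K q R ∅ ∧ ∀ z ∈ K q R ∅, ‖v0 q R‖ ≤ ‖z‖) ∧
    (IsHit q R (v0 q R) q (a1 q R) ∧ x1 q R ∈ K q R {a1 q R} ∧ v1 q R ∈ K q R {a1 q R} ∧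
      q ∈ segment ℝ (v0 q R) (x1 q R)) ∧
    (IsHit q R (v1 q R) (x1 q R) (a2 q R) ∧ x2 q R ∈ K q R {a1 q R, a2 q R} ∧
      v2 q R ∈ K q R {a1 q R, a2 q R} ∧ x1 q R ∈ segment ℝ (v1 q R) (x2 q R)) ∧
    (IsHit q R (v2 q R) (x2 q R) (a3 q R) ∧ x3 q R ∈ K q R {a1 q R, a2 q R, a3 q R} ∧
      v3 q R ∈ K q R {a1 q R, a2 q R, a3 q R} ∧ x2 q R ∈ segment ℝ (v2 q R) (x3 q R)) := by
  have hne : ∀ y ∈ R, phi y q ≠ 0 := fun y hy => hg.ne y (hR hy)
  exact ⟨flag0 hne, flag1 hL hB hg.box hne (hg.g0 R hR hB),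
    flag2 hL hB hg.box hne (hg.g0 R hR hB) (hg.g1 R hR hB),
    flag3 hL hB hg.box hne (hg.g0 R hR hB) (hg.g1 R hR hB) (hg.g2 R hR hB)⟩

/-- all vertices lie in the closed cell. -/
theorem vert_mem (hL : 0 < L) (hg : Gen L W q) (hR : R ⊆ W) (hB : Bx L ⊆ R) (i : Fin 4) :
    vert q R i ∈ K q R ∅ := by
  obtain ⟨h0, h1, h2, h3⟩ := flag_gen hL hg hR hB
  fin_cases i
  · exact h0.2.1
  · exact K_mono_right h1.2.2.1
  · exact K_mono_right h2.2.2.1
  · exact K_mono_right h3.2.2.1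

/-- a plane of the sample does not cross the simplex. -/
theorem not_crosses (hL : 0 < L) (hg : Gen L W q) (hR : R ⊆ W) (hB : Bx L ⊆ R) {y : E}
    (hy : y ∈ R) : ¬ Crosses y (vert q R) := by
  rintro ⟨i, j, hi, hj⟩
  have hi' := (vert_mem hL hg hR hB i).1 y hy
  have hj' := (vert_mem hL hg hR hB j).1 y hy
  have hne := hg.ne y (hR hy)
  rcases lt_or_gt_of_ne hne with h | h
  · have := mul_neg_of_pos_of_neg hj h
    linarith
  · have := mul_neg_of_neg_of_pos hi h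
    linarith

theorem inner_of_phi {y z w : E} (h1 : phi y z = 0) (h2 : phi y w = 0) :
    inner ℝ y (z - w) = 0 := by
  unfold phi at h1 h2
  rw [inner_sub_right]
  linarith

/-- vectors orthogonal to two distinct planes through a point. -/
theorem orth_line {x y y' : E} (hy : phi y x = 0) (hy' : phi y' x = 0) (hne : y ≠ y') {u w : E}
    (hu : u ≠ 0) (h1 : inner ℝ y u = 0) (h2 : inner ℝ y' u = 0) (h3 : inner ℝ y w = 0)
    (h4 : inner ℝ y' w = 0) : ∃ c : ℝ, w = c • u := by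
  have hli : LinearIndependent ℝ ![y, y'] := by
    rw [LinearIndependent.pair_iff]
    intro s t hst
    have hx := congrArg (fun z => inner ℝ z x) hst
    simp only [inner_add_left, real_inner_smul_left, inner_zero_left] at hx
    unfold phi at hy hy'
    have e1 : inner ℝ y x = 1 := by linarith
    have e2 : inner ℝ y' x = 1 := by linarith
    rw [e1, e2] at hx
    have ht : t = -s := by linarith
    rw [ht] at hst
    have hs : s • (y - y') = 0 := by
      rw [smul_sub, ← hst, neg_smul]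
      abel
    rcases smul_eq_zero.1 hs with h | h
    · exact ⟨h, by rw [ht, h, neg_zero]⟩
    · exact absurd (sub_eq_zero.1 h) hne
  set S : Submodule ℝ E := Submodule.span ℝ (Set.range ![y, y']) with hS
  have hS2 : Module.finrank ℝ S = 2 := by
    rw [hS, finrank_span_eq_card hli]
    simp
  have hE : Module.finrank ℝ E = 3 := by simp
  have hS1 : Module.finrank ℝ Sᗮ = 1 := by
    have := Submodule.finrank_add_finrank_orthogonal S
    omega
  have hmem : ∀ z : E, inner ℝ y z = 0 → inner ℝ y' z = 0 → z ∈ Sᗮ := by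
    intro z hz hz'
    rw [Submodule.mem_orthogonal]
    intro v hv
    rw [hS] at hv
    induction hv using Submodule.span_induction with
    | mem v hv =>
      obtain ⟨i, rfl⟩ := hv
      fin_cases i
      · exact hz
      · exact hz'
    | zero => exact inner_zero_left _
    | add a b _ _ ha hb => rw [inner_add_left, ha, hb, add_zero]
    | smul c a _ ha => rw [real_inner_smul_left, ha, mul_zero]
  have hu' : (⟨u, hmem u h1 h2⟩ : Sᗮ) ≠ 0 := by
    intro h
    apply hu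
    simpa using congrArg Subtype.val h
  obtain ⟨c, hc⟩ := (finrank_eq_one_iff_of_nonzero' _ hu').1 hS1 ⟨w, hmem w h3 h4⟩
  refine ⟨c, ?_⟩
  have := congrArg Subtype.val hc
  simpa using this.symm

theorem a1_ne_a2 (hL : 0 < L) (hg : Gen L W q) (hR : R ⊆ W) (hB : Bx L ⊆ R) :
    a1 q R ≠ a2 q R := by
  obtain ⟨_, h1, h2, _⟩ := flag_gen hL hg hR hB
  intro h
  have hd := h2.1.2.1
  unfold Dec at hd
  rw [← h, h1.2.1.2 _ (mem_singleton_self _), h1.2.2.1.2 _ (mem_singleton_self _)] at hd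
  exact lt_irrefl _ hd

/-- the three planes of the flag meet in one point. -/
theorem x3_unique (hL : 0 < L) (hg : Gen L W q) (hR : R ⊆ W) (hB : Bx L ⊆ R) {z : E}
    (h1 : phi (a1 q R) z = 0) (h2 : phi (a2 q R) z = 0) (h3 : phi (a3 q R) z = 0) :
    z = x3 q R := by
  obtain ⟨_, _, f2, f3⟩ := flag_gen hL hg hR hB
  have hx1 : phi (a1 q R) (x2 q R) = 0 := f2.2.1.2 _ (by simp)
  have hx2 : phi (a2 q R) (x2 q R) = 0 := f2.2.1.2 _ (by simp)
  have hv1 : phi (a1 q R) (v2 q R) = 0 := f2.2.2.1.2 _ (by simp)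
  have hv2 : phi (a2 q R) (v2 q R) = 0 := f2.2.2.1.2 _ (by simp)
  have hu : x2 q R - v2 q R ≠ 0 := sub_ne_zero.2 (hg.g2 R hR hB)
  have key : ∀ w : E, phi (a1 q R) w = 0 → phi (a2 q R) w = 0 →
      ∃ c : ℝ, w = v2 q R + c • (x2 q R - v2 q R) := by
    intro w hw1 hw2
    obtain ⟨c, hc⟩ := orth_line hx1 hx2 (a1_ne_a2 hL hg hR hB) hu (inner_of_phi hx1 hv1)
      (inner_of_phi hx2 hv2) (inner_of_phi hw1 hv1) (inner_of_phi hw2 hv2)
    exact ⟨c, by rw [← hc]; abel⟩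
  have hd : phi (a3 q R) (x2 q R) ≠ phi (a3 q R) (v2 q R) := by
    intro h
    have hd := f3.1.2.1
    unfold Dec at hd
    rw [h] at hd
    exact lt_irrefl _ hd
  obtain ⟨c, hc⟩ := key z h1 h2
  obtain ⟨c', hc'⟩ := key (x3 q R) (f3.2.1.2 _ (by simp)) (f3.2.1.2 _ (by simp))
  have e : phi (a3 q R) (v2 q R + c • (x2 q R - v2 q R)) = 0 := by rw [← hc]; exact h3
  have e' : phi (a3 q R) (v2 q R + c' • (x2 q R - v2 q R)) = 0 := by
    rw [← hc']; exact f3.2.1.2 _ (by simp)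
  rw [phi_add_smul] at e e'
  have : c = c' := by
    have h0 : (c - c') * (phi (a3 q R) (x2 q R) - phi (a3 q R) (v2 q R)) = 0 := by linarith
    rcases mul_eq_zero.1 h0 with h | h
    · linarith
    · exact absurd (by linarith) hd
  rw [hc, hc', this]

/-- the base point lies in the simplex. -/
theorem mem_conv (hL : 0 < L) (hg : Gen L W q) (hR : R ⊆ W) (hB : Bx L ⊆ R) :
    q ∈ convexHull ℝ (Set.range (vert q R)) := by
  obtain ⟨_, f1, f2, f3⟩ := flag_gen hL hg hR hB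
  have hc := convex_convexHull ℝ (Set.range (vert q R))
  have hv : ∀ i, vert q R i ∈ convexHull ℝ (Set.range (vert q R)) := fun i =>
    subset_convexHull ℝ _ ⟨i, rfl⟩
  have h33 : v3 q R = x3 q R :=
    x3_unique hL hg hR hB (f3.2.2.1.2 _ (by simp)) (f3.2.2.1.2 _ (by simp))
      (f3.2.2.1.2 _ (by simp))
  have hx3 : x3 q R ∈ convexHull ℝ (Set.range (vert q R)) := by
    rw [← h33]
    exact hv 3
  have hx2 : x2 q R ∈ convexHull ℝ (Set.range (vert q R)) :=
    hc.segment_subset (hv 2) hx3 f3.2.2.2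
  have hx1 : x1 q R ∈ convexHull ℝ (Set.range (vert q R)) :=
    hc.segment_subset (hv 1) hx2 f2.2.2.2
  exact hc.segment_subset (hv 0) hx1 f1.2.2.2

/-- at most 19 planes of the sample are essential for the simplex. -/
theorem vert_erase (hL : 0 < L) (hg : Gen L W q) (hR : R ⊆ W) (hB : Bx L ⊆ R) :
    (R.filter fun y => y ∉ Bx L ∧ vert q (R.erase y) ≠ vert q R).card ≤ 19 := by
  obtain ⟨f0, f1, f2, f3⟩ := flag_gen hL hg hR hB
  obtain ⟨B0, hB0, c0, b0⟩ := mn_basis q R ∅ ⟨_, f0.1⟩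
  obtain ⟨B1, hB1, c1, b1⟩ := mn_basis q R {a1 q R} ⟨_, f1.2.1⟩
  obtain ⟨B2, hB2, c2, b2⟩ := mn_basis q R {a1 q R, a2 q R} ⟨_, f2.2.1⟩
  obtain ⟨B3, hB3, c3, b3⟩ := mn_basis q R {a1 q R, a2 q R, a3 q R} ⟨_, f3.2.1⟩
  have hsub : (R.filter fun y => y ∉ Bx L ∧ vert q (R.erase y) ≠ vert q R) ⊆
      B0 ∪ (B1 ∪ (B2 ∪ (B3 ∪ {a1 q R, a2 q R, a3 q R}))) := by
    intro y hy
    rw [mem_filter] at hy
    by_contra hn
    simp only [mem_union, mem_insert, mem_singleton, not_or] at hn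
    obtain ⟨n0, n1, n2, n3, m1, m2, m3⟩ := hn
    have hsub : R.erase y ⊆ R := erase_subset _ _
    have hmem : ∀ {z : E}, z ∈ R → z ≠ y → z ∈ R.erase y := fun h h' => mem_erase.2 ⟨h', h⟩
    have hBs : ∀ {B : Finset E}, B ⊆ R → y ∉ B → B ⊆ R.erase y := fun h h' z hz =>
      mem_erase.2 ⟨fun he => h' (he ▸ hz), h hz⟩
    have e0 : v0 q (R.erase y) = v0 q R := b0 _ hsub (hBs hB0 n0)
    have ea1 : a1 q (R.erase y) = a1 q R := by
      unfold a1
      rw [e0]
      exact hit_subset hsub ⟨_, f1.1⟩ (hmem f1.1.1 (Ne.symm m1))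
    have ex1 : x1 q (R.erase y) = x1 q R := by
      unfold x1
      rw [e0, ea1]
    have e1 : v1 q (R.erase y) = v1 q R := by
      unfold v1
      rw [ea1]
      exact b1 _ hsub (hBs hB1 n1)
    have ea2 : a2 q (R.erase y) = a2 q R := by
      unfold a2
      rw [e1, ex1]
      exact hit_subset hsub ⟨_, f2.1⟩ (hmem f2.1.1 (Ne.symm m2))
    have ex2 : x2 q (R.erase y) = x2 q R := by
      unfold x2
      rw [e1, ex1, ea2]
    have e2 : v2 q (R.erase y) = v2 q R := by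
      unfold v2
      rw [ea1, ea2]
      exact b2 _ hsub (hBs hB2 n2)
    have ea3 : a3 q (R.erase y) = a3 q R := by
      unfold a3
      rw [e2, ex2]
      exact hit_subset hsub ⟨_, f3.1⟩ (hmem f3.1.1 (Ne.symm m3))
    have e3 : v3 q (R.erase y) = v3 q R := by
      unfold v3
      rw [ea1, ea2, ea3]
      exact b3 _ hsub (hBs hB3 n3)
    apply hy.2.2
    unfold vert
    rw [e0, e1, e2, e3]
  refine (card_le_card hsub).trans ?_
  have h1 := card_union_le B0 (B1 ∪ (B2 ∪ (B3 ∪ {a1 q R, a2 q R, a3 q R})))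
  have h2 := card_union_le B1 (B2 ∪ (B3 ∪ {a1 q R, a2 q R, a3 q R}))
  have h3 := card_union_le B2 (B3 ∪ {a1 q R, a2 q R, a3 q R})
  have h4 := card_union_le B3 {a1 q R, a2 q R, a3 q R}
  have h5 : ({a1 q R, a2 q R, a3 q R} : Finset E).card ≤ 3 := card_le_three
  omega

end Pool.Agent.H72.PP
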