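import Pool.Agent.H72.PP.T1class

set_option autoImplicit false
open Finset

namespace Pool.Agent.H72.PP

theorem I_comm (X Y : Finset E) : I X Y = I Y X := by
  classical
  unfold I nb
  simp_rw [Finset.card_filter]
  rw [Finset.sum_comm]
  apply Finset.sum_congr rfl
  intro y _
  apply Finset.sum_congr rfl
  intro x _
  simp only [inc_comm x y]

theorem Free.symm {s : ℕ} {X Y : Finset E} (h : Free s X Y) : Free s Y X := by
  intro S hS hSc T hT hTc
  obtain ⟨x, hx, y, hy, hn⟩ := h T hT hTc S hS hSc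
  exact ⟨y, hy, x, hx, fun hi => hn hi.symm⟩

theorem Free.mono {s : ℕ} {X Y X' Y' : Finset E} (h : Free s X Y) (hX : X' ⊆ X) (hY : Y' ⊆ Y) :
    Free s X' Y' := fun S hS hSc T hT hTc => h S (hS.trans hX) hSc T (hT.trans hY) hTc

open Classical in
/-- the A-degree. -/
noncomputable def ad (s : ℕ) (Y : Finset E) (x : E) : ℕ := (Y.filter fun y => AInc s Y x y).card

theorem deg_eq (s : ℕ) (Y : Finset E) (x : E) : (nb Y x).card = ad s Y x + nd s Y x := by
  classical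
  unfold nb ad nd
  rw [← Finset.card_filter_add_card_filter_not (s := Y.filter fun y => Inc x y)
    (fun y => AInc s Y x y), Finset.filter_filter, Finset.filter_filter]
  congr 2
  ext y
  simp only [Finset.mem_filter]
  constructor
  · rintro ⟨h1, h2, h3⟩
    exact ⟨h1, h3⟩
  · rintro ⟨h1, h3⟩
    exact ⟨h1, h3.1, h3⟩

theorem nb_zero (Y : Finset E) : (nb Y 0).card = 0 := by
  classical
  unfold nb
  rw [Finset.card_eq_zero, Finset.filter_eq_empty_iff]
  intro y _ h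
  unfold Inc at h
  rw [inner_zero_right] at h
  exact zero_ne_one h

theorem nd_le_card (s : ℕ) (Y : Finset E) (x : E) : nd s Y x ≤ Y.card := by
  classical
  unfold nd
  exact Finset.card_filter_le _ _

theorem sum_filter_split (X : Finset E) (f : E → ℕ) (p : E → Prop) [DecidablePred p] :
    ∑ x ∈ X, f x = ∑ x ∈ X.filter p, f x + ∑ x ∈ X.filter (fun x => ¬ p x), f x :=
  (Finset.sum_filter_add_sum_filter_not X _ _).symm

/-- the induction over the dyadic classes. -/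
theorem t1_dyadic {s C k0 : ℕ} (Y : Finset E)
    (hcl : ∀ (X : Finset E) (k : ℕ), k0 ≤ k → (∀ x ∈ X, x ≠ 0) →
      (∀ x ∈ X, k ≤ nd s Y x ∧ (nb Y x).card ≤ 4 * k) →
      (k : ℝ) * X.card ≤ C * ((Y.card : ℝ) ^ 3 / (k : ℝ) ^ 4 + Y.card)) :
    ∀ (n : ℕ) (X : Finset E) (k : ℕ), Y.card < k + n → 1 ≤ k → k0 ≤ k → (∀ x ∈ X, x ≠ 0) →
      (∀ x ∈ X, k ≤ nd s Y x ∧ (nb Y x).card ≤ 2 * nd s Y x) →
      (I X Y : ℝ) ≤ 4 * C * (2 * ((Y.card : ℝ) ^ 3 / (k : ℝ) ^ 4) + n * Y.card) := by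
  classical
  intro n
  induction n with
  | zero =>
    intro X k hn h1 h0 hne hX
    have hX0 : I X Y = 0 := by
      unfold I
      apply Finset.sum_eq_zero
      intro x hx
      have h2 := (hX x hx).1
      have h3 := nd_le_card s Y x
      omega
    rw [hX0]
    push_cast
    positivity
  | succ n ih =>
    intro X k hn h1 h0 hne hX
    have hsplit : I X Y = I (X.filter fun x => nd s Y x < 2 * k) Y +
        I (X.filter fun x => ¬ nd s Y x < 2 * k) Y := by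
      unfold I
      exact sum_filter_split X _ _
    have hA := hcl (X.filter fun x => nd s Y x < 2 * k) k h0
      (fun x hx => hne x (Finset.mem_filter.1 hx).1) (by
        intro x hx
        rw [Finset.mem_filter] at hx
        have h2 := hX x hx.1
        exact ⟨h2.1, by omega⟩)
    have hA2 : I (X.filter fun x => nd s Y x < 2 * k) Y ≤
        (X.filter fun x => nd s Y x < 2 * k).card * (4 * k) := by
      unfold I
      have := Finset.sum_le_card_nsmul (X.filter fun x => nd s Y x < 2 * k)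
        (fun x => (nb Y x).card) (4 * k) (by
          intro x hx
          rw [Finset.mem_filter] at hx
          have h2 := hX x hx.1
          show (nb Y x).card ≤ 4 * k
          omega)
      simpa using this
    have hB := ih (X.filter fun x => ¬ nd s Y x < 2 * k) (2 * k) (by omega) (by omega) (by omega)
      (fun x hx => hne x (Finset.mem_filter.1 hx).1) (by
        intro x hx
        rw [Finset.mem_filter] at hx
        exact ⟨not_lt.1 hx.2, (hX x hx.1).2⟩)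
    rw [hsplit]
    generalize X.filter (fun x => nd s Y x < 2 * k) = X1 at hA hA2 ⊢
    generalize X.filter (fun x => ¬ nd s Y x < 2 * k) = X2 at hB ⊢
    have hk0 : (0 : ℝ) < k := by exact_mod_cast h1
    have hA2' : (I X1 Y : ℝ) ≤ X1.card * (4 * k) := by exact_mod_cast hA2
    have h2 : (I X1 Y : ℝ) ≤ 4 * (C * ((Y.card : ℝ) ^ 3 / (k : ℝ) ^ 4 + Y.card)) := by
      calc (I X1 Y : ℝ) ≤ X1.card * (4 * k) := hA2'
        _ = 4 * (k * X1.card) := by ring
        _ ≤ _ := by linarith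
    have h3 : (Y.card : ℝ) ^ 3 / ((2 * k : ℕ) : ℝ) ^ 4 = (Y.card : ℝ) ^ 3 / (k : ℝ) ^ 4 / 16 := by
      push_cast
      rw [div_div]
      congr 1
      ring
    rw [h3] at hB
    have h4 : (0 : ℝ) ≤ (Y.card : ℝ) ^ 3 / (k : ℝ) ^ 4 := by positivity
    push_cast
    have h5 : (0 : ℝ) ≤ C * ((Y.card : ℝ) ^ 3 / (k : ℝ) ^ 4) := by positivity
    nlinarith [h2, hB, h5]

/-- **First theorem.** -/
theorem t1 (s : ℕ) (hs : 2 ≤ s) : ∃ C : ℕ, 1 ≤ C ∧ ∀ (X Y : Finset E), Free s X Y →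
    ∀ κ : ℕ, 1 ≤ κ → (I X Y : ℝ) ≤ C * (κ * X.card + (Y.card : ℝ) ^ 3 / (κ : ℝ) ^ 4 +
      (Y.card : ℝ) ^ 2) := by
  classical
  obtain ⟨C, k0, hC, hk0, hcl⟩ := t1class s hs
  refine ⟨4 + 2 * k0 + 8 * C, by omega, ?_⟩
  intro X Y hF κ hκ
  -- the A-incidences
  have hA : ∑ x ∈ X, ad s Y x ≤ 2 * Y.card ^ 2 := by
    have := aInc_count s hs X Y hF
    unfold ad
    exact this
  -- the three parts
  have h1 : I X Y = ∑ x ∈ X.filter (fun x => (nb Y x).card ≤ 2 * ad s Y x), (nb Y x).card +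
      ∑ x ∈ X.filter (fun x => ¬ (nb Y x).card ≤ 2 * ad s Y x), (nb Y x).card := by
    unfold I
    exact sum_filter_split X _ _
  have h2 : ∑ x ∈ X.filter (fun x => (nb Y x).card ≤ 2 * ad s Y x), (nb Y x).card ≤
      4 * Y.card ^ 2 := by
    calc ∑ x ∈ X.filter (fun x => (nb Y x).card ≤ 2 * ad s Y x), (nb Y x).card ≤
          ∑ x ∈ X.filter (fun x => (nb Y x).card ≤ 2 * ad s Y x), 2 * ad s Y x :=
          Finset.sum_le_sum (fun x hx => (Finset.mem_filter.1 hx).2)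
      _ ≤ ∑ x ∈ X, 2 * ad s Y x :=
          Finset.sum_le_sum_of_subset (Finset.filter_subset _ _)
      _ = 2 * ∑ x ∈ X, ad s Y x := by rw [Finset.mul_sum]
      _ ≤ 4 * Y.card ^ 2 := by omega
  obtain ⟨Z, hZ⟩ : ∃ Z, Z = X.filter (fun x => ¬ (nb Y x).card ≤ 2 * ad s Y x) := ⟨_, rfl⟩
  rw [← hZ] at h1
  have hZX : Z ⊆ X := by rw [hZ]; exact Finset.filter_subset _ _
  have hZd : ∀ x ∈ Z, (nb Y x).card ≤ 2 * nd s Y x ∧ x ≠ 0 := by
    intro x hx
    rw [hZ, Finset.mem_filter] at hx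
    have h3 := deg_eq s Y x
    refine ⟨by omega, ?_⟩
    rintro rfl
    have h4 := nb_zero Y
    omega
  have h3 : ∑ x ∈ Z, (nb Y x).card =
      ∑ x ∈ Z.filter (fun x => nd s Y x < κ * k0), (nb Y x).card +
      ∑ x ∈ Z.filter (fun x => ¬ nd s Y x < κ * k0), (nb Y x).card := sum_filter_split Z _ _
  have h4 : ∑ x ∈ Z.filter (fun x => nd s Y x < κ * k0), (nb Y x).card ≤
      X.card * (2 * (κ * k0)) := by
    have h5 := Finset.sum_le_card_nsmul (Z.filter (fun x => nd s Y x < κ * k0))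
      (fun x => (nb Y x).card) (2 * (κ * k0)) (by
        intro x hx
        rw [Finset.mem_filter] at hx
        have h6 := (hZd x hx.1).1
        show (nb Y x).card ≤ 2 * (κ * k0)
        omega)
    rw [smul_eq_mul] at h5
    refine h5.trans (Nat.mul_le_mul_right _ ?_)
    exact (Finset.card_filter_le _ _).trans (Finset.card_le_card hZX)
  have hK1 : κ ≤ κ * k0 := by
    calc κ = κ * 1 := by ring
      _ ≤ κ * k0 := Nat.mul_le_mul_left _ hk0
  have hK2 : k0 ≤ κ * k0 := by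
    calc k0 = 1 * k0 := by ring
      _ ≤ κ * k0 := Nat.mul_le_mul_right _ hκ
  have h5 := t1_dyadic (s := s) (C := C) (k0 := k0) Y (fun X k => hcl X Y k) Y.card
    (Z.filter (fun x => ¬ nd s Y x < κ * k0)) (κ * k0) (by omega) (by omega) hK2
    (fun x hx => (hZd x (Finset.mem_filter.1 hx).1).2) (by
      intro x hx
      rw [Finset.mem_filter] at hx
      exact ⟨not_lt.1 hx.2, (hZd x hx.1).1⟩)
  have h6 : I (Z.filter (fun x => ¬ nd s Y x < κ * k0)) Y =
      ∑ x ∈ Z.filter (fun x => ¬ nd s Y x < κ * k0), (nb Y x).card := rfl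
  rw [h6] at h5
  have hκr : (0 : ℝ) < κ := by exact_mod_cast hκ
  have h7 : (Y.card : ℝ) ^ 3 / ((κ * k0 : ℕ) : ℝ) ^ 4 ≤ (Y.card : ℝ) ^ 3 / (κ : ℝ) ^ 4 := by
    apply div_le_div_of_nonneg_left (by positivity) (by positivity)
    apply pow_le_pow_left₀ hκr.le
    exact_mod_cast hK1
  rw [h1, h3]
  generalize ∑ x ∈ X.filter (fun x => (nb Y x).card ≤ 2 * ad s Y x), (nb Y x).card = S1 at *
  generalize ∑ x ∈ Z.filter (fun x => nd s Y x < κ * k0), (nb Y x).card = S2 at *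
  generalize ∑ x ∈ Z.filter (fun x => ¬ nd s Y x < κ * k0), (nb Y x).card = S3 at *
  have h2' : (S1 : ℝ) ≤ 4 * (Y.card : ℝ) ^ 2 := by exact_mod_cast h2
  have h4' : (S2 : ℝ) ≤ X.card * (2 * (κ * k0)) := by exact_mod_cast h4
  have h8 : (S3 : ℝ) ≤ 4 * C * (2 * ((Y.card : ℝ) ^ 3 / (κ : ℝ) ^ 4) + (Y.card : ℝ) ^ 2) := by
    calc (S3 : ℝ) ≤ 4 * C * (2 * ((Y.card : ℝ) ^ 3 / ((κ * k0 : ℕ) : ℝ) ^ 4) +
          Y.card * Y.card) := h5
      _ ≤ 4 * C * (2 * ((Y.card : ℝ) ^ 3 / (κ : ℝ) ^ 4) + Y.card * Y.card) := by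
          apply mul_le_mul_of_nonneg_left _ (by positivity)
          linarith
      _ = _ := by ring
  have p1 : (0 : ℝ) ≤ κ * X.card := by positivity
  have p2 : (0 : ℝ) ≤ (Y.card : ℝ) ^ 3 / (κ : ℝ) ^ 4 := by positivity
  have p3 : (0 : ℝ) ≤ (Y.card : ℝ) ^ 2 := by positivity
  have e4 : (X.card : ℝ) * (2 * (κ * k0)) = 2 * k0 * (κ * X.card) := by ring
  rw [e4] at h4'
  push_cast
  generalize (κ : ℝ) * X.card = u at *
  generalize (Y.card : ℝ) ^ 3 / (κ : ℝ) ^ 4 = v at *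
  generalize (Y.card : ℝ) ^ 2 = w at *
  have q1 : (0 : ℝ) ≤ k0 := Nat.cast_nonneg _
  have q2 : (0 : ℝ) ≤ C := Nat.cast_nonneg _
  nlinarith [mul_nonneg q1 p1, mul_nonneg q1 p2, mul_nonneg q1 p3, mul_nonneg q2 p1,
    mul_nonneg q2 p2, mul_nonneg q2 p3]

/-- the dual form. -/
theorem t1' (s : ℕ) (hs : 2 ≤ s) : ∃ C : ℕ, 1 ≤ C ∧ ∀ (X Y : Finset E), Free s X Y →
    ∀ κ : ℕ, 1 ≤ κ → (I X Y : ℝ) ≤ C * (κ * Y.card + (X.card : ℝ) ^ 3 / (κ : ℝ) ^ 4 +
      (X.card : ℝ) ^ 2) := by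
  obtain ⟨C, hC, h⟩ := t1 s hs
  refine ⟨C, hC, fun X Y hf κ hκ => ?_⟩
  rw [I_comm]
  exact h Y X hf.symm κ hκ

end Pool.Agent.H72.PP
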