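import Pool.Agent.H72.PP.Cut
import Pool.Agent.H72.PP.AInc

set_option autoImplicit false
open Finset

namespace Pool.Agent.H72.PP

open Classical in
/-- the non-A-degree. -/
noncomputable def nd (s : ℕ) (Y : Finset E) (x : E) : ℕ :=
  (Y.filter fun y => Inc x y ∧ ¬ AInc s Y x y).card

/-- points of non-A-degree about `k`. -/
theorem t1class (s : ℕ) (hs : 2 ≤ s) : ∃ C k0 : ℕ, 1 ≤ C ∧ 1 ≤ k0 ∧
    ∀ (X Y : Finset E) (k : ℕ), k0 ≤ k → (∀ x ∈ X, x ≠ 0) →
      (∀ x ∈ X, k ≤ nd s Y x ∧ (nb Y x).card ≤ 4 * k) →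
      (k : ℝ) * X.card ≤ C * ((Y.card : ℝ) ^ 3 / (k : ℝ) ^ 4 + Y.card) := by
  classical
  obtain ⟨C0, hC0, hcut⟩ := cutting
  obtain ⟨C', hC'⟩ : ∃ C' : ℕ, C' = 128 * s * C0 := ⟨_, rfl⟩
  have hC'1 : 1 ≤ C' := by rw [hC']; nlinarith
  refine ⟨32 * C0 ^ 2 * C' ^ 2 + 2, 64 * C', by omega, by omega, ?_⟩
  intro X Y k hk hX0 hX
  have hC0R : (1 : ℝ) ≤ C0 := by exact_mod_cast hC0
  have hC'R : (1 : ℝ) ≤ C' := by exact_mod_cast hC'1
  have hkR : (64 : ℝ) * C' ≤ k := by exact_mod_cast hk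
  have hk0 : (0 : ℝ) < k := by linarith
  have hsR : (2 : ℝ) ≤ s := by exact_mod_cast hs
  have hC'eq : (C' : ℝ) = 128 * s * C0 := by rw [hC']; push_cast; ring
  have h2s : (2 : ℝ) * s ≤ k := by
    have : (s : ℝ) * 1 ≤ s * C0 := mul_le_mul_of_nonneg_left hC0R (by linarith)
    nlinarith
  have hMnn : (0 : ℝ) ≤ Y.card := Nat.cast_nonneg _
  have hrhs : (0 : ℝ) ≤ (Y.card : ℝ) ^ 3 / (k : ℝ) ^ 4 := by positivity
  rcases X.eq_empty_or_nonempty with hXe | ⟨x0, hx0⟩
  · rw [hXe]
    simp only [Finset.card_empty, Nat.cast_zero, mul_zero]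
    positivity
  have hN : (1 : ℝ) ≤ X.card := by
    exact_mod_cast Finset.card_pos.mpr ⟨x0, hx0⟩
  have hMk : (k : ℝ) ≤ Y.card := by
    exact_mod_cast (hX x0 hx0).1.trans (Finset.card_filter_le _ _)
  have hM1 : (0 : ℝ) < Y.card := by linarith
  -- the relation of non-A-incidence
  obtain ⟨G, hG⟩ : ∃ G : E → E → Prop, ∀ x y, G x y ↔ (Inc x y ∧ ¬ AInc s Y x y) :=
    ⟨fun x y => Inc x y ∧ ¬ AInc s Y x y, fun _ _ => Iff.rfl⟩
  have hnd : ∀ x ∈ X, k ≤ (Y.filter fun y => G x y).card := by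
    intro x hx
    refine (hX x hx).1.trans (Finset.card_le_card ?_)
    intro y hy
    rw [Finset.mem_filter] at hy ⊢
    exact ⟨hy.1, (hG x y).mpr hy.2⟩
  have hcommon : ∀ Z ⊆ Y, ∀ x ∈ X, ∀ x' ∈ X, x ≠ x' →
      (Z.filter fun y => G x y ∧ G x' y).card ≤ s := by
    intro Z hZ x _ x' _ hne
    refine le_trans (Finset.card_le_card ?_) (common_le s Y hne)
    intro y hy
    rw [Finset.mem_filter] at hy ⊢
    exact ⟨hZ hy.1, (hG x y).mp hy.2.1, (hG x' y).mp hy.2.2⟩
  by_cases hcase : (C' : ℝ) * Y.card < (k : ℝ) ^ 2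
  · -- few planes
    have hkst := kst X Y G s (hcommon Y (Finset.Subset.refl _))
    have hsum : (k : ℝ) * X.card ≤
        ((∑ x ∈ X, (Y.filter fun y => G x y).card : ℕ) : ℝ) := by
      have : k * X.card ≤ ∑ x ∈ X, (Y.filter fun y => G x y).card := by
        rw [mul_comm]
        exact Finset.card_nsmul_le_sum X _ k (fun x hx => hnd x hx)
      exact_mod_cast this
    rcases hkst with h | h
    · have h1 : (k : ℝ) * X.card ≤ 2 * Y.card := hsum.trans (by exact_mod_cast h)
      have h2 : (2 : ℝ) * Y.card ≤ ((32 * C0 ^ 2 * C' ^ 2 + 2 : ℕ) : ℝ) * Y.card := by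
        apply mul_le_mul_of_nonneg_right _ hMnn
        push_cast
        nlinarith [sq_nonneg ((C0 : ℝ) * C')]
      calc (k : ℝ) * X.card ≤ 2 * Y.card := h1
        _ ≤ ((32 * C0 ^ 2 * C' ^ 2 + 2 : ℕ) : ℝ) * Y.card := h2
        _ ≤ _ := by
          apply mul_le_mul_of_nonneg_left _ (by positivity)
          linarith
    · exfalso
      have h1 : (((∑ x ∈ X, (Y.filter fun y => G x y).card : ℕ) : ℝ)) ^ 2 ≤
          2 * s * Y.card * (X.card : ℝ) ^ 2 := by exact_mod_cast h
      have h2 : ((k : ℝ) * X.card) ^ 2 ≤ 2 * s * Y.card * (X.card : ℝ) ^ 2 :=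
        (pow_le_pow_left₀ (by positivity) hsum 2).trans h1
      have h3 : (0 : ℝ) < (X.card : ℝ) ^ 2 := by positivity
      have h4 : (k : ℝ) ^ 2 ≤ 2 * s * Y.card := by
        rw [mul_pow] at h2
        exact le_of_mul_le_mul_right h2 h3
      have h5 : (2 : ℝ) * s * Y.card ≤ C' * Y.card := by
        apply mul_le_mul_of_nonneg_right _ hMnn
        rw [hC'eq]
        nlinarith
      linarith
  · push Not at hcase
    have hk2 : (0 : ℝ) < (k : ℝ) ^ 2 := by positivity
    obtain ⟨ρ, hρ⟩ : ∃ ρ : ℕ, ρ = ⌈(C' : ℝ) * Y.card / (k : ℝ) ^ 2⌉₊ := ⟨_, rfl⟩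
    have hq1 : (1 : ℝ) ≤ (C' : ℝ) * Y.card / (k : ℝ) ^ 2 := by
      rw [le_div_iff₀ hk2]; linarith
    have hρ1 : (C' : ℝ) * Y.card / (k : ℝ) ^ 2 ≤ ρ := by rw [hρ]; exact Nat.le_ceil _
    have hρ2 : (ρ : ℝ) ≤ 2 * ((C' : ℝ) * Y.card / (k : ℝ) ^ 2) := by
      have := Nat.ceil_lt_add_one (le_trans zero_le_one hq1)
      rw [← hρ] at this
      linarith
    have hρR : (1 : ℝ) ≤ ρ := hq1.trans hρ1
    have hρN : 1 ≤ ρ := by exact_mod_cast hρR
    have hsize : 8 * (4 * k) * ρ ≤ Y.card := by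
      have h1 : (8 : ℝ) * (4 * k) * ρ ≤ Y.card := by
        calc (8 : ℝ) * (4 * k) * ρ ≤ 8 * (4 * k) * (2 * ((C' : ℝ) * Y.card / (k : ℝ) ^ 2)) :=
              mul_le_mul_of_nonneg_left hρ2 (by positivity)
          _ = (64 * C') * Y.card / k := by field_simp; ring
          _ ≤ k * Y.card / k := by
              apply div_le_div_of_nonneg_right _ hk0.le
              exact mul_le_mul_of_nonneg_right hkR hMnn
          _ = Y.card := by field_simp
      exact_mod_cast h1
    obtain ⟨X', hX'X, hXX', cl, Z, p, r, hcl, hZ, hT⟩ :=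
      hcut X Y (4 * k) ρ hX0 (fun x hx => (hX x hx).2) (by
        have : 0 < k := by exact_mod_cast hk0
        omega) hρN hsize
    -- the degrees inside the cells
    have hdeg : ∀ x ∈ X', (k : ℝ) / 2 ≤
        (((Z (cl x)).filter fun y => G x y).card : ℝ) := by
      intro x hx
      obtain ⟨Nx, hNx⟩ : ∃ Nx : Finset E, Nx = Y.filter fun y => G x y :=
        ⟨_, rfl⟩
      have hT1 : (Nx \ Z (cl x)).card < s := by
        have hsub : Nx \ Z (cl x) ⊆ Y := by
          intro y hy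
          rw [Finset.mem_sdiff, hNx, Finset.mem_filter] at hy
          exact hy.1.1
        have hmem : ∀ y ∈ Nx \ Z (cl x), Inc x y ∧ y ∉ Z (cl x) := by
          intro y hy
          rw [Finset.mem_sdiff, hNx, Finset.mem_filter] at hy
          exact ⟨((hG x y).mp hy.1.2).1, hy.2⟩
        rcases hT x hx _ hsub hmem with h | ⟨i, hi, hline, hinc⟩
        · omega
        · by_contra hcon
          push Not at hcon
          have hA := aInc_of_line s Y hi hline _ hsub hcon hinc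
          have hne : (Nx \ Z (cl x)).Nonempty := Finset.card_pos.mp (by omega)
          obtain ⟨y, hy⟩ := hne
          have h1 := hA y hy
          rw [Finset.mem_sdiff, hNx, Finset.mem_filter] at hy
          exact ((hG x y).mp hy.1.2).2 h1
      have hT2 : k ≤ Nx.card := by
        rw [hNx]; exact hnd x (hX'X hx)
      have hT3 : Nx.card ≤ (Nx \ Z (cl x)).card +
          ((Z (cl x)).filter fun y => G x y).card := by
        rw [← Finset.card_sdiff_add_card_inter Nx (Z (cl x))]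
        apply Nat.add_le_add_left
        apply Finset.card_le_card
        intro y hy
        rw [Finset.mem_inter, hNx, Finset.mem_filter] at hy
        exact Finset.mem_filter.mpr ⟨hy.2, hy.1.2⟩
      have hT4 : (k : ℝ) ≤ s + (((Z (cl x)).filter fun y => G x y).card : ℝ) := by
        have : k ≤ s + ((Z (cl x)).filter fun y => G x y).card := by omega
        exact_mod_cast this
      linarith
    -- one cell
    have hcell : ∀ c : ℕ, (k : ℝ) / 2 * ((X'.filter fun x => cl x = c).card : ℝ) ≤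
        2 * (C0 * Y.card / ρ) := by
      intro c
      obtain ⟨Xc, hXc⟩ : ∃ Xc : Finset E, Xc = X'.filter fun x => cl x = c := ⟨_, rfl⟩
      rw [← hXc]
      have hZc : ((Z c).card : ℝ) ≤ C0 * Y.card / ρ := by
        rw [le_div_iff₀ (by linarith)]
        exact_mod_cast (hZ c).2
      have hkst := kst Xc (Z c) G s (by
        intro x hx x' hx' hne
        rw [hXc, Finset.mem_filter] at hx hx'
        exact hcommon _ (hZ c).1 x (hX'X hx.1) x' (hX'X hx'.1) hne)
      have hsum : (k : ℝ) / 2 * Xc.card ≤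
          ((∑ x ∈ Xc, ((Z c).filter fun y => G x y).card : ℕ) : ℝ) := by
        push_cast
        have h1 : ∀ x ∈ Xc, (k : ℝ) / 2 ≤
            (((Z c).filter fun y => G x y).card : ℝ) := by
          intro x hx
          rw [hXc, Finset.mem_filter] at hx
          have := hdeg x hx.1
          rwa [hx.2] at this
        have h2 := Finset.card_nsmul_le_sum Xc _ _ h1
        rw [nsmul_eq_mul] at h2
        linarith
      rcases hkst with h | h
      · have h1 : (((∑ x ∈ Xc, ((Z c).filter fun y => G x y).card : ℕ)) : ℝ) ≤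
            2 * (Z c).card := by exact_mod_cast h
        calc (k : ℝ) / 2 * Xc.card ≤ _ := hsum
          _ ≤ 2 * (Z c).card := h1
          _ ≤ _ := by linarith
      · have h1 : (((∑ x ∈ Xc, ((Z c).filter fun y => G x y).card : ℕ) : ℝ)) ^ 2 ≤
            2 * s * (Z c).card * (Xc.card : ℝ) ^ 2 := by exact_mod_cast h
        rcases Xc.eq_empty_or_nonempty with he | hne
        · rw [he]
          simp only [Finset.card_empty, Nat.cast_zero, mul_zero]
          positivity
        · exfalso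
          have hn1 : (0 : ℝ) < (Xc.card : ℝ) ^ 2 := by
            have : (0 : ℝ) < Xc.card := by exact_mod_cast Finset.card_pos.mpr hne
            positivity
          have h2 : ((k : ℝ) / 2 * Xc.card) ^ 2 ≤ 2 * s * (Z c).card * (Xc.card : ℝ) ^ 2 :=
            (pow_le_pow_left₀ (by positivity) hsum 2).trans h1
          have h3 : ((k : ℝ) / 2) ^ 2 ≤ 2 * s * (Z c).card := by
            rw [mul_pow] at h2
            exact le_of_mul_le_mul_right h2 hn1
          have h4 : (2 : ℝ) * s * (Z c).card ≤ 2 * s * (C0 * Y.card / ρ) :=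
            mul_le_mul_of_nonneg_left hZc (by positivity)
          have h5 : (C' : ℝ) * Y.card / ρ ≤ (k : ℝ) ^ 2 := by
            rw [div_le_iff₀ (by linarith)]
            rw [div_le_iff₀ hk2] at hρ1
            linarith
          have h6 : 2 * (s : ℝ) * (C0 * Y.card / ρ) = (C' * Y.card / ρ) / 64 := by
            rw [hC'eq]; ring
          rw [h6] at h4
          nlinarith
    -- summation
    have hsumcells : (X'.card : ℝ) = ∑ c ∈ Finset.range (C0 * ρ ^ 3),
        ((X'.filter fun x => cl x = c).card : ℝ) := by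
      have := Finset.card_eq_sum_card_fiberwise (f := cl) (s := X')
        (t := Finset.range (C0 * ρ ^ 3)) (fun x hx => by
          have := hcl x (by simpa using hx)
          simpa using this)
      exact_mod_cast this
    have hmain : (k : ℝ) / 2 * X'.card ≤ 2 * (C0 : ℝ) ^ 2 * Y.card * (ρ : ℝ) ^ 2 := by
      rw [hsumcells, Finset.mul_sum]
      calc ∑ c ∈ Finset.range (C0 * ρ ^ 3), (k : ℝ) / 2 * ((X'.filter fun x => cl x = c).card : ℝ)
          ≤ ∑ _c ∈ Finset.range (C0 * ρ ^ 3), 2 * ((C0 : ℝ) * Y.card / ρ) :=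
            Finset.sum_le_sum (fun c _ => hcell c)
        _ = ((C0 * ρ ^ 3 : ℕ) : ℝ) * (2 * ((C0 : ℝ) * Y.card / ρ)) := by
            rw [Finset.sum_const, Finset.card_range, nsmul_eq_mul]
        _ = 2 * (C0 : ℝ) ^ 2 * Y.card * (ρ : ℝ) ^ 2 := by
            push_cast
            field_simp
    have hXX'R : (X.card : ℝ) ≤ 2 * X'.card := by exact_mod_cast hXX'
    have hρsq : (ρ : ℝ) ^ 2 ≤ 4 * (C' : ℝ) ^ 2 * (Y.card : ℝ) ^ 2 / (k : ℝ) ^ 4 := by
      calc (ρ : ℝ) ^ 2 ≤ (2 * ((C' : ℝ) * Y.card / (k : ℝ) ^ 2)) ^ 2 :=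
            pow_le_pow_left₀ (by positivity) hρ2 2
        _ = _ := by field_simp; ring
    calc (k : ℝ) * X.card ≤ k * (2 * X'.card) := mul_le_mul_of_nonneg_left hXX'R hk0.le
      _ = 4 * ((k : ℝ) / 2 * X'.card) := by ring
      _ ≤ 4 * (2 * (C0 : ℝ) ^ 2 * Y.card * (ρ : ℝ) ^ 2) := by linarith
      _ ≤ 4 * (2 * (C0 : ℝ) ^ 2 * Y.card *
            (4 * (C' : ℝ) ^ 2 * (Y.card : ℝ) ^ 2 / (k : ℝ) ^ 4)) := by
          apply mul_le_mul_of_nonneg_left _ (by norm_num)
          exact mul_le_mul_of_nonneg_left hρsq (by positivity)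
      _ = (32 * (C0 : ℝ) ^ 2 * (C' : ℝ) ^ 2) * ((Y.card : ℝ) ^ 3 / (k : ℝ) ^ 4) := by ring
      _ ≤ ((32 * C0 ^ 2 * C' ^ 2 + 2 : ℕ) : ℝ) * ((Y.card : ℝ) ^ 3 / (k : ℝ) ^ 4 + Y.card) := by
          push_cast
          apply mul_le_mul _ _ hrhs (by positivity)
          · linarith
          · linarith

end Pool.Agent.H72.PP
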