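import Pool.Agent.H72.PP.T2int

set_option autoImplicit false
open Finset

namespace Pool.Agent.H72.PP

theorem I_of_card_zero {X Y : Finset E} (h : X.card = 0) : I X Y = 0 := by
  rw [Finset.card_eq_zero] at h
  subst h
  simp [I]

/-- **Second theorem.** -/
theorem t2 (s : ℕ) (hs : 2 ≤ s) : ∃ C : ℝ, 0 < C ∧ ∀ (X Y : Finset E), Free s X Y →
    X.card ≤ Y.card → Y.card ^ 4 ≤ X.card ^ 7 →
    (I X Y : ℝ) ≤ C * ((Y.card : ℝ) ^ (12 / 17 : ℝ) * (X.card : ℝ) ^ (13 / 17 : ℝ)) := by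
  obtain ⟨C, κ0, hC, hκ0, H⟩ := t2int s hs
  refine ⟨C * ((2 * κ0 : ℝ) ^ 4 + 2), by positivity, fun X Y hf hNM h47 => ?_⟩
  rcases Nat.eq_zero_or_pos X.card with h0 | hN
  · rw [I_of_card_zero h0]
    push_cast
    positivity
  have hM : 0 < Y.card := lt_of_lt_of_le hN hNM
  have hNr : (0 : ℝ) < (X.card : ℝ) := by exact_mod_cast hN
  have hMr : (0 : ℝ) < (Y.card : ℝ) := by exact_mod_cast hM
  obtain ⟨b, hb⟩ : ∃ b : ℝ, Real.exp b = (X.card : ℝ) := ⟨Real.log X.card, Real.exp_log hNr⟩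
  obtain ⟨a, ha⟩ : ∃ a : ℝ, Real.exp a = (Y.card : ℝ) := ⟨Real.log Y.card, Real.exp_log hMr⟩
  have hb0 : 0 ≤ b := by
    rw [← Real.one_le_exp_iff, hb]
    exact_mod_cast hN
  have hba : b ≤ a := by
    rw [← Real.exp_le_exp, hb, ha]
    exact_mod_cast hNM
  have h47' : 4 * a ≤ 7 * b := by
    rw [← Real.exp_le_exp]
    have h1 : Real.exp (4 * a) = (Y.card : ℝ) ^ 4 := by
      rw [← ha, ← Real.exp_nat_mul]
      norm_num
    have h2 : Real.exp (7 * b) = (X.card : ℝ) ^ 7 := by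
      rw [← hb, ← Real.exp_nat_mul]
      norm_num
    rw [h1, h2]
    exact_mod_cast h47
  have hP : (Y.card : ℝ) ^ (12 / 17 : ℝ) * (X.card : ℝ) ^ (13 / 17 : ℝ) =
      Real.exp (12 / 17 * a + 13 / 17 * b) := by
    rw [← ha, ← hb, ← Real.exp_mul, ← Real.exp_mul, ← Real.exp_add]
    congr 1
    ring
  set t : ℝ := Real.exp ((3 * a - b) / 17) with ht
  have ht1 : 1 ≤ t := by
    rw [ht, Real.one_le_exp_iff]
    linarith
  have ht0 : 0 < t := by linarith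
  set c : ℕ := ⌈t⌉₊ with hc
  have hct : t ≤ c := Nat.le_ceil t
  have hct2 : (c : ℝ) ≤ 2 * t := by
    have := Nat.ceil_lt_add_one (le_of_lt ht0)
    rw [← hc] at this
    linarith
  have hc1 : 1 ≤ c := by
    have : (1 : ℝ) ≤ c := ht1.trans hct
    exact_mod_cast this
  have hκr : (1 : ℝ) ≤ κ0 := by exact_mod_cast hκ0
  have hκt : t ≤ ((κ0 * c : ℕ) : ℝ) := by
    push_cast
    nlinarith
  have hκ2 : ((κ0 * c : ℕ) : ℝ) ≤ 2 * κ0 * t := by
    push_cast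
    nlinarith
  have ht7 : t ^ 7 ≤ (Y.card : ℝ) := by
    rw [ht, ← Real.exp_nat_mul, ← ha, Real.exp_le_exp]
    push_cast
    linarith
  have ht17 : (Y.card : ℝ) ^ 2 ≤ t ^ 17 := by
    rw [ht, ← Real.exp_nat_mul, ← ha, ← Real.exp_nat_mul, Real.exp_le_exp]
    push_cast
    linarith
  have hmain := H X Y (κ0 * c) hf hNM (Nat.le_mul_of_pos_right _ hc1) (by
    have : (((κ0 * c : ℕ) : ℝ)) ^ 7 ≤ 128 * (κ0 : ℝ) ^ 7 * (Y.card : ℝ) := by
      calc (((κ0 * c : ℕ) : ℝ)) ^ 7 ≤ (2 * κ0 * t) ^ 7 :=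
            pow_le_pow_left₀ (by positivity) hκ2 7
        _ = 128 * (κ0 : ℝ) ^ 7 * t ^ 7 := by ring
        _ ≤ 128 * (κ0 : ℝ) ^ 7 * (Y.card : ℝ) := by
            apply mul_le_mul_of_nonneg_left ht7
            positivity
    exact_mod_cast this) (by
    have : (Y.card : ℝ) ^ 2 ≤ (((κ0 * c : ℕ) : ℝ)) ^ 17 :=
      ht17.trans (pow_le_pow_left₀ ht0.le hκt 17)
    exact_mod_cast this)
  have e1 : (((κ0 * c : ℕ) : ℝ)) ^ 4 * X.card ≤
      (2 * κ0 : ℝ) ^ 4 * Real.exp (12 / 17 * a + 13 / 17 * b) := by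
    calc (((κ0 * c : ℕ) : ℝ)) ^ 4 * X.card ≤ (2 * κ0 * t) ^ 4 * X.card := by
          apply mul_le_mul_of_nonneg_right _ hNr.le
          exact pow_le_pow_left₀ (by positivity) hκ2 4
      _ = (2 * κ0 : ℝ) ^ 4 * (t ^ 4 * X.card) := by ring
      _ = (2 * κ0 : ℝ) ^ 4 * Real.exp (12 / 17 * a + 13 / 17 * b) := by
          congr 1
          rw [ht, ← Real.exp_nat_mul, ← hb, ← Real.exp_add]
          congr 1
          push_cast
          ring
  have e2 : (Y.card : ℝ) ^ 3 / (((κ0 * c : ℕ) : ℝ)) ^ 13 ≤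
      Real.exp (12 / 17 * a + 13 / 17 * b) := by
    calc (Y.card : ℝ) ^ 3 / (((κ0 * c : ℕ) : ℝ)) ^ 13 ≤ (Y.card : ℝ) ^ 3 / t ^ 13 := by
          apply div_le_div_of_nonneg_left (by positivity) (by positivity)
          exact pow_le_pow_left₀ ht0.le hκt 13
      _ = Real.exp (12 / 17 * a + 13 / 17 * b) := by
          rw [ht, ← Real.exp_nat_mul, ← ha, ← Real.exp_nat_mul, ← Real.exp_sub]
          congr 1
          push_cast
          ring
  have e3 : (Y.card : ℝ) ^ (8 / 7 : ℝ) ≤ Real.exp (12 / 17 * a + 13 / 17 * b) := by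
    rw [← ha, ← Real.exp_mul, Real.exp_le_exp]
    linarith
  rw [hP]
  have hexp : 0 ≤ Real.exp (12 / 17 * a + 13 / 17 * b) := (Real.exp_pos _).le
  calc (I X Y : ℝ) ≤ C * ((((κ0 * c : ℕ) : ℝ)) ^ 4 * X.card +
        (Y.card : ℝ) ^ 3 / (((κ0 * c : ℕ) : ℝ)) ^ 13 + (Y.card : ℝ) ^ (8 / 7 : ℝ)) := hmain
    _ ≤ C * ((2 * κ0 : ℝ) ^ 4 * Real.exp (12 / 17 * a + 13 / 17 * b) +
        Real.exp (12 / 17 * a + 13 / 17 * b) + Real.exp (12 / 17 * a + 13 / 17 * b)) := by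
          apply mul_le_mul_of_nonneg_left _ (by positivity)
          linarith
    _ = C * ((2 * κ0 : ℝ) ^ 4 + 2) * Real.exp (12 / 17 * a + 13 / 17 * b) := by ring

/-- the upper bound for at most as many points as planes. -/
theorem upper (s : ℕ) (hs : 2 ≤ s) : ∃ C : ℝ, 0 < C ∧ ∀ (X Y : Finset E), Free s X Y →
    X.card ≤ Y.card →
    (I X Y : ℝ) ≤ C * ((X.card : ℝ) ^ (3 / 5 : ℝ) * (Y.card : ℝ) ^ (4 / 5 : ℝ) +
      (X.card : ℝ) ^ (13 / 17 : ℝ) * (Y.card : ℝ) ^ (12 / 17 : ℝ) + Y.card) := by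
  obtain ⟨C2, hC2, H2⟩ := t2 s hs
  obtain ⟨C1, hC1, H1⟩ := t1' s hs
  refine ⟨C2 + 3 * C1, by positivity, fun X Y hf hNM => ?_⟩
  have hA : 0 ≤ (X.card : ℝ) ^ (3 / 5 : ℝ) * (Y.card : ℝ) ^ (4 / 5 : ℝ) := by positivity
  have hB : 0 ≤ (X.card : ℝ) ^ (13 / 17 : ℝ) * (Y.card : ℝ) ^ (12 / 17 : ℝ) := by positivity
  have hD : (0 : ℝ) ≤ Y.card := by positivity
  have hC1r : (0 : ℝ) ≤ C1 := by positivity
  rcases le_or_gt (Y.card ^ 4) (X.card ^ 7) with h47 | h47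
  · have h := H2 X Y hf hNM h47
    rw [mul_comm ((Y.card : ℝ) ^ (12 / 17 : ℝ))] at h
    have h3 := mul_nonneg hC2.le hA
    have h4 := mul_nonneg hC2.le hD
    have h5 := mul_nonneg hC1r (add_nonneg (add_nonneg hA hB) hD)
    nlinarith
  rcases Nat.eq_zero_or_pos X.card with h0 | hN
  · rw [I_of_card_zero h0]
    have : (0 : ℝ) ≤ C2 + 3 * C1 := by positivity
    have h2 := mul_nonneg this (add_nonneg (add_nonneg hA hB) hD)
    simpa using h2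
  have hM : 0 < Y.card := lt_of_lt_of_le hN hNM
  have hNr : (0 : ℝ) < (X.card : ℝ) := by exact_mod_cast hN
  have hMr : (0 : ℝ) < (Y.card : ℝ) := by exact_mod_cast hM
  obtain ⟨b, hb⟩ : ∃ b : ℝ, Real.exp b = (X.card : ℝ) := ⟨Real.log X.card, Real.exp_log hNr⟩
  obtain ⟨a, ha⟩ : ∃ a : ℝ, Real.exp a = (Y.card : ℝ) := ⟨Real.log Y.card, Real.exp_log hMr⟩
  have h47' : 7 * b ≤ 4 * a := by
    rw [← Real.exp_le_exp]
    have h1 : Real.exp (4 * a) = (Y.card : ℝ) ^ 4 := by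
      rw [← ha, ← Real.exp_nat_mul]
      norm_num
    have h2 : Real.exp (7 * b) = (X.card : ℝ) ^ 7 := by
      rw [← hb, ← Real.exp_nat_mul]
      norm_num
    rw [h1, h2]
    exact_mod_cast h47.le
  have hP : (X.card : ℝ) ^ (3 / 5 : ℝ) * (Y.card : ℝ) ^ (4 / 5 : ℝ) =
      Real.exp (3 / 5 * b + 4 / 5 * a) := by
    rw [← ha, ← hb, ← Real.exp_mul, ← Real.exp_mul, ← Real.exp_add]
    congr 1
    ring
  set u : ℝ := Real.exp ((3 * b - a) / 5) with hu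
  have hu0 : 0 < u := Real.exp_pos _
  set κ : ℕ := ⌈u⌉₊ with hκ
  have hκu : u ≤ κ := Nat.le_ceil u
  have hκu1 : (κ : ℝ) ≤ u + 1 := (Nat.ceil_lt_add_one hu0.le).le
  have hκ1 : 1 ≤ κ := Nat.ceil_pos.mpr hu0
  have hmain := H1 X Y hf κ hκ1
  have e1 : (κ : ℝ) * Y.card ≤ Real.exp (3 / 5 * b + 4 / 5 * a) + Y.card := by
    calc (κ : ℝ) * Y.card ≤ (u + 1) * Y.card := mul_le_mul_of_nonneg_right hκu1 hMr.le
      _ = u * Y.card + Y.card := by ring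
      _ = Real.exp (3 / 5 * b + 4 / 5 * a) + Y.card := by
          congr 1
          rw [hu, ← ha, ← Real.exp_add]
          congr 1
          ring
  have e2 : (X.card : ℝ) ^ 3 / (κ : ℝ) ^ 4 ≤ Real.exp (3 / 5 * b + 4 / 5 * a) := by
    calc (X.card : ℝ) ^ 3 / (κ : ℝ) ^ 4 ≤ (X.card : ℝ) ^ 3 / u ^ 4 := by
          apply div_le_div_of_nonneg_left (by positivity) (by positivity)
          exact pow_le_pow_left₀ hu0.le hκu 4
      _ = Real.exp (3 / 5 * b + 4 / 5 * a) := by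
          rw [hu, ← Real.exp_nat_mul, ← hb, ← Real.exp_nat_mul, ← Real.exp_sub]
          congr 1
          push_cast
          ring
  have e3 : (X.card : ℝ) ^ 2 ≤ Real.exp (3 / 5 * b + 4 / 5 * a) := by
    rw [← hb, ← Real.exp_nat_mul, Real.exp_le_exp]
    push_cast
    linarith
  rw [hP] at hA ⊢
  have h6 : (I X Y : ℝ) ≤ C1 * (3 * Real.exp (3 / 5 * b + 4 / 5 * a) + Y.card) := by
    refine hmain.trans ?_
    apply mul_le_mul_of_nonneg_left _ hC1r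
    linarith
  have h7 := mul_nonneg hC2.le (add_nonneg (add_nonneg hA hB) hD)
  have h8 := mul_nonneg hC1r hB
  have h9 := mul_nonneg hC1r hD
  nlinarith

end Pool.Agent.H72.PP
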