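import Pool.Agent.H72.PP.T2step

set_option autoImplicit false
open Finset

namespace Pool.Agent.H72.PP

theorem t2class_aux1 (b κ M : ℝ) (hb : 0 < b) (hκ : 0 < κ) :
    M = (b ^ 2 * M / κ ^ 7) * κ ^ 7 / b ^ 2 := by
  field_simp

theorem t2class_aux2 (b κ M : ℝ) (hb : 0 < b) (hκ : 0 < κ) :
    b ^ 5 * M ^ 3 / κ ^ 17 = (b ^ 2 * M / κ ^ 7) ^ 3 * κ ^ 4 / b := by
  field_simp

theorem t2class_const (C b κ : ℝ) (hC : 1 ≤ C) (hb : 100 * C ≤ b)
    (hκ : 1000 * b ^ 2 * C ≤ κ) :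
    C * (4 / b + 4 / b ^ 2 + 2 / b + 1 / κ + 1 / κ + 8 * b / κ) < 1 := by
  have hC0 : 0 < C := by linarith
  have hb0 : 0 < b := by linarith
  have hb1 : 1 ≤ b := by linarith
  have hbb : b ≤ b ^ 2 := by nlinarith
  have hbb1 : 1 ≤ b ^ 2 := by linarith
  have hCb : 1 * C ≤ b ^ 2 * C := mul_le_mul_of_nonneg_right hbb1 hC0.le
  have hbC : b * C ≤ b ^ 2 * C := mul_le_mul_of_nonneg_right hbb hC0.le
  have hκ1 : 1000 * C ≤ κ := by linarith
  have hκ2 : 1000 * (b * C) ≤ κ := by linarith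
  have hκ0 : 0 < κ := by linarith
  have f1 : C * (4 / b) ≤ 4 / 100 := by
    rw [mul_div_assoc', div_le_div_iff₀ hb0 (by norm_num)]
    linarith
  have f2 : C * (4 / b ^ 2) ≤ 4 / 100 := by
    rw [mul_div_assoc', div_le_div_iff₀ (by positivity) (by norm_num)]
    linarith
  have f3 : C * (2 / b) ≤ 2 / 100 := by
    rw [mul_div_assoc', div_le_div_iff₀ hb0 (by norm_num)]
    linarith
  have f4 : C * (1 / κ) ≤ 1 / 1000 := by
    rw [mul_div_assoc', div_le_div_iff₀ hκ0 (by norm_num)]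
    linarith
  have f6 : C * (8 * b / κ) ≤ 8 / 1000 := by
    rw [mul_div_assoc', div_le_div_iff₀ hκ0 (by norm_num)]
    linarith
  have : C * (4 / b + 4 / b ^ 2 + 2 / b + 1 / κ + 1 / κ + 8 * b / κ) =
      C * (4 / b) + C * (4 / b ^ 2) + C * (2 / b) + C * (1 / κ) + C * (1 / κ) +
        C * (8 * b / κ) := by ring
  rw [this]
  linarith

/-- the real inequality behind `t2class`. -/
theorem t2class_real (C b κ A B M N ρ : ℝ) (hC : 1 ≤ C) (hb : 100 * C ≤ b)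
    (hκ : 1000 * b ^ 2 * C ≤ κ) (hA1 : 1 ≤ A) (hM : M = A * κ ^ 7 / b ^ 2)
    (hB : B = A ^ 3 * κ ^ 4 / b) (hρ1 : A ≤ ρ) (hρ2 : ρ ≤ 2 * A) (hN1 : B ≤ N) (hN2 : N ≤ 2 * B)
    (hMs : Real.sqrt M ≤ κ ^ 7)
    (h : κ ^ 4 * N ≤ C * (κ * M * ρ ^ 2 + N ^ 3 / (ρ ^ 6 * κ ^ 4) + N ^ 2 / ρ ^ 3 + N + M +
      Real.sqrt M * ρ ^ 3)) : False := by
  have hC0 : 0 < C := by linarith
  have hb0 : 0 < b := by linarith
  have hb100 : 100 ≤ b := by linarith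
  have hbb : (10000 : ℝ) ≤ b ^ 2 := by nlinarith
  have hκbig : b ^ 2 ≤ κ := by nlinarith [mul_pos (pow_pos hb0 2) hC0]
  have hκ0 : 0 < κ := by nlinarith
  have hA0 : 0 < A := by linarith
  have hB0 : 0 < B := by rw [hB]; positivity
  have hN0 : 0 < N := by linarith
  have hρ0 : 0 < ρ := by linarith
  have hM0 : 0 < M := by rw [hM]; positivity
  set D : ℝ := κ ^ 4 * N with hD
  have hD0 : 0 < D := by positivity
  have hDB : A ^ 3 * κ ^ 8 / b ≤ D := by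
    calc A ^ 3 * κ ^ 8 / b = κ ^ 4 * B := by rw [hB]; field_simp
      _ ≤ D := mul_le_mul_of_nonneg_left hN1 (by positivity)
  have e1 : κ * M * ρ ^ 2 ≤ 4 / b * D := by
    calc κ * M * ρ ^ 2 ≤ κ * M * (2 * A) ^ 2 := by
          apply mul_le_mul_of_nonneg_left _ (by positivity)
          exact pow_le_pow_left₀ hρ0.le hρ2 2
      _ = 4 / b * (A ^ 3 * κ ^ 8 / b) := by rw [hM]; field_simp; ring
      _ ≤ 4 / b * D := mul_le_mul_of_nonneg_left hDB (by positivity)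
  have e2 : N ^ 3 / (ρ ^ 6 * κ ^ 4) ≤ 4 / b ^ 2 * D := by
    calc N ^ 3 / (ρ ^ 6 * κ ^ 4) ≤ N ^ 3 / (A ^ 6 * κ ^ 4) := by
          apply div_le_div_of_nonneg_left (by positivity) (by positivity)
          exact mul_le_mul_of_nonneg_right (pow_le_pow_left₀ hA0.le hρ1 6) (by positivity)
      _ = N * N ^ 2 / (A ^ 6 * κ ^ 4) := by ring
      _ ≤ N * (2 * B) ^ 2 / (A ^ 6 * κ ^ 4) := by
          apply div_le_div_of_nonneg_right _ (by positivity)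
          exact mul_le_mul_of_nonneg_left (pow_le_pow_left₀ hN0.le hN2 2) hN0.le
      _ = 4 / b ^ 2 * D := by rw [hB, hD]; field_simp; ring
  have e3 : N ^ 2 / ρ ^ 3 ≤ 2 / b * D := by
    calc N ^ 2 / ρ ^ 3 ≤ N ^ 2 / A ^ 3 := by
          apply div_le_div_of_nonneg_left (by positivity) (by positivity)
          exact pow_le_pow_left₀ hA0.le hρ1 3
      _ = N * N / A ^ 3 := by ring
      _ ≤ N * (2 * B) / A ^ 3 := by
          apply div_le_div_of_nonneg_right _ (by positivity)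
          exact mul_le_mul_of_nonneg_left hN2 hN0.le
      _ = 2 / b * D := by rw [hB, hD]; field_simp
  have hκ4 : κ ≤ κ ^ 4 := by
    have h1 : (1 : ℝ) ≤ κ := by nlinarith
    calc κ = κ ^ 1 := (pow_one κ).symm
      _ ≤ κ ^ 4 := pow_le_pow_right₀ h1 (by norm_num)
  have e4 : N ≤ 1 / κ * D := by
    calc N = κ * N / κ := by field_simp
      _ ≤ κ ^ 4 * N / κ := by
          apply div_le_div_of_nonneg_right _ hκ0.le
          exact mul_le_mul_of_nonneg_right hκ4 hN0.le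
      _ = 1 / κ * D := by rw [hD]; ring
  have e5 : M ≤ 1 / κ * D := by
    calc M = A * κ ^ 7 / b ^ 2 := hM
      _ ≤ A ^ 3 * κ ^ 7 / b := by
          rw [div_le_div_iff₀ (by positivity) (by positivity)]
          have h1 : A ≤ A ^ 3 := by
            calc A = A ^ 1 := (pow_one A).symm
              _ ≤ A ^ 3 := pow_le_pow_right₀ hA1 (by norm_num)
          have h2 : b ≤ b ^ 2 := by nlinarith
          calc A * κ ^ 7 * b ≤ A ^ 3 * κ ^ 7 * b := by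
                apply mul_le_mul_of_nonneg_right _ hb0.le
                exact mul_le_mul_of_nonneg_right h1 (by positivity)
            _ ≤ A ^ 3 * κ ^ 7 * b ^ 2 := mul_le_mul_of_nonneg_left h2 (by positivity)
      _ = 1 / κ * (A ^ 3 * κ ^ 8 / b) := by field_simp
      _ ≤ 1 / κ * D := mul_le_mul_of_nonneg_left hDB (by positivity)
  have e6 : Real.sqrt M * ρ ^ 3 ≤ 8 * b / κ * D := by
    calc Real.sqrt M * ρ ^ 3 ≤ κ ^ 7 * (2 * A) ^ 3 := by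
          apply mul_le_mul hMs (pow_le_pow_left₀ hρ0.le hρ2 3) (by positivity) (by positivity)
      _ = 8 * b / κ * (A ^ 3 * κ ^ 8 / b) := by field_simp; ring
      _ ≤ 8 * b / κ * D := mul_le_mul_of_nonneg_left hDB (by positivity)
  have hsum : D ≤ C * (4 / b + 4 / b ^ 2 + 2 / b + 1 / κ + 1 / κ + 8 * b / κ) * D := by
    calc D ≤ C * (κ * M * ρ ^ 2 + N ^ 3 / (ρ ^ 6 * κ ^ 4) + N ^ 2 / ρ ^ 3 + N + M +
          Real.sqrt M * ρ ^ 3) := h
      _ ≤ C * (4 / b * D + 4 / b ^ 2 * D + 2 / b * D + 1 / κ * D + 1 / κ * D +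
          8 * b / κ * D) := by
          apply mul_le_mul_of_nonneg_left _ hC0.le
          linarith
      _ = C * (4 / b + 4 / b ^ 2 + 2 / b + 1 / κ + 1 / κ + 8 * b / κ) * D := by ring
  have hlt := t2class_const C b κ hC hb hκ
  have h2 := mul_lt_mul_of_pos_right hlt hD0
  linarith

/-- the number of points of degree about `κ ^ 4`. -/
theorem t2class (s : ℕ) (hs : 2 ≤ s) : ∃ b0 : ℕ, ∀ b : ℕ, b0 ≤ b → ∃ κ0 : ℕ, 1 ≤ κ0 ∧
    ∀ (X Y : Finset E) (κ : ℕ), Free s X Y → X.card ≤ Y.card → κ0 ≤ κ →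
      κ ^ 7 ≤ b ^ 2 * Y.card → Y.card ^ 2 ≤ κ ^ 17 →
      (∀ x ∈ X, κ ^ 4 ≤ (nb Y x).card ∧ (nb Y x).card ≤ 16 * κ ^ 4) →
      X.card * κ ^ 17 ≤ b ^ 5 * Y.card ^ 3 := by
  obtain ⟨C, hC, H⟩ := t2step s hs
  refine ⟨100 * C, fun b hb => ⟨1000 * b ^ 2 * C, ?_, ?_⟩⟩
  · have : 1 ≤ b := by omega
    have h2 : 1 ≤ b ^ 2 := Nat.one_le_pow _ _ this
    nlinarith
  intro X Y κ hf hNM hκ h7 h17 hdeg
  by_contra hcon
  push Not at hcon
  have hCr : (1 : ℝ) ≤ C := by exact_mod_cast hC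
  have hbr : 100 * (C : ℝ) ≤ b := by exact_mod_cast hb
  have hκr : 1000 * (b : ℝ) ^ 2 * C ≤ κ := by exact_mod_cast hκ
  have hb0 : (0 : ℝ) < b := by linarith
  have hb100 : (100 : ℝ) ≤ b := by linarith
  have hbb : (10000 : ℝ) ≤ (b : ℝ) ^ 2 := by nlinarith
  have hκb : 1000 * (b : ℝ) ^ 2 ≤ κ := by nlinarith [pow_pos hb0 2]
  have hκ1 : (1 : ℝ) ≤ κ := by nlinarith
  have hκ0 : (0 : ℝ) < κ := by linarith
  have hκn : 1 ≤ κ := by exact_mod_cast hκ1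
  -- the set is nonempty
  have hXpos : 0 < X.card := by
    rcases Nat.eq_zero_or_pos X.card with h0 | h0
    · rw [h0] at hcon
      omega
    · exact h0
  have hMκ : κ ^ 4 ≤ Y.card := by
    obtain ⟨x, hx⟩ := Finset.card_pos.mp hXpos
    refine (hdeg x hx).1.trans ?_
    unfold nb
    classical
    exact Finset.card_filter_le _ _
  have hM0 : 0 < Y.card := lt_of_lt_of_le (by positivity) hMκ
  have hMr0 : (0 : ℝ) < Y.card := by exact_mod_cast hM0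
  obtain ⟨A, hA⟩ : ∃ A : ℝ, A = (b : ℝ) ^ 2 * Y.card / (κ : ℝ) ^ 7 := ⟨_, rfl⟩
  obtain ⟨B, hB⟩ : ∃ B : ℝ, B = (b : ℝ) ^ 5 * (Y.card : ℝ) ^ 3 / (κ : ℝ) ^ 17 := ⟨_, rfl⟩
  have hA1 : 1 ≤ A := by
    rw [hA, le_div_iff₀ (by positivity), one_mul]
    exact_mod_cast h7
  have hA0 : 0 < A := by linarith
  have hMA : (Y.card : ℝ) = A * (κ : ℝ) ^ 7 / (b : ℝ) ^ 2 := by
    rw [hA]
    exact t2class_aux1 b κ Y.card hb0 hκ0
  have hBA : B = A ^ 3 * (κ : ℝ) ^ 4 / b := by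
    rw [hA, hB]
    exact t2class_aux2 b κ Y.card hb0 hκ0
  have hB1 : 1 ≤ B := by
    rw [hBA, le_div_iff₀ hb0, one_mul]
    have h1 : (1 : ℝ) ≤ A ^ 3 := one_le_pow₀ hA1
    have h2 : (b : ℝ) ≤ (κ : ℝ) ^ 4 := by
      have h3 : (κ : ℝ) ≤ (κ : ℝ) ^ 4 := by
        calc (κ : ℝ) = (κ : ℝ) ^ 1 := (pow_one _).symm
          _ ≤ (κ : ℝ) ^ 4 := pow_le_pow_right₀ hκ1 (by norm_num)
      nlinarith
    have h4 : (0 : ℝ) ≤ (κ : ℝ) ^ 4 := by positivity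
    nlinarith
  have hB0 : 0 < B := by linarith
  -- the subset
  obtain ⟨n, hn⟩ : ∃ n : ℕ, n = ⌊B⌋₊ + 1 := ⟨_, rfl⟩
  have hn1 : B ≤ n := by
    rw [hn]
    push_cast
    exact (Nat.lt_floor_add_one B).le
  have hn2 : (n : ℝ) ≤ 2 * B := by
    rw [hn]
    push_cast
    have := Nat.floor_le hB0.le
    linarith
  have hBN : B < X.card := by
    rw [hB, div_lt_iff₀ (by positivity)]
    exact_mod_cast hcon
  have hnN : n ≤ X.card := by
    rw [hn, Nat.succ_le_iff]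
    rw [Nat.floor_lt hB0.le]
    exact hBN
  obtain ⟨X', hX', hX'c⟩ := Finset.exists_subset_card_eq hnN
  obtain ⟨ρ, hρ⟩ : ∃ ρ : ℕ, ρ = ⌈A⌉₊ := ⟨_, rfl⟩
  have hρ1 : A ≤ ρ := hρ ▸ Nat.le_ceil A
  have hρ2 : (ρ : ℝ) ≤ 2 * A := by
    have := Nat.ceil_lt_add_one hA0.le
    rw [← hρ] at this
    linarith
  have hρn : 1 ≤ ρ := hρ ▸ Nat.ceil_pos.mpr hA0
  have hf' : Free s X' Y := fun S hS hSc T hT hTc => hf S (hS.trans hX') hSc T hT hTc
  have c1 : 128 * κ ^ 4 * ρ ≤ Y.card := by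
    have : 128 * (κ : ℝ) ^ 4 * ρ ≤ Y.card := by
      calc 128 * (κ : ℝ) ^ 4 * ρ ≤ 128 * (κ : ℝ) ^ 4 * (2 * A) :=
            mul_le_mul_of_nonneg_left hρ2 (by positivity)
        _ = A * (κ : ℝ) ^ 4 * 256 := by ring
        _ ≤ A * (κ : ℝ) ^ 4 * ((κ : ℝ) ^ 3 / (b : ℝ) ^ 2) := by
            apply mul_le_mul_of_nonneg_left _ (by positivity)
            rw [le_div_iff₀ (by positivity)]
            have h3 : (κ : ℝ) ≤ (κ : ℝ) ^ 3 := by
              calc (κ : ℝ) = (κ : ℝ) ^ 1 := (pow_one _).symm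
                _ ≤ (κ : ℝ) ^ 3 := pow_le_pow_right₀ hκ1 (by norm_num)
            nlinarith
        _ = A * (κ : ℝ) ^ 7 / (b : ℝ) ^ 2 := by ring
        _ = Y.card := hMA.symm
    exact_mod_cast this
  have c2 : ρ ^ 3 ≤ X'.card := by
    rw [hX'c]
    have : (ρ : ℝ) ^ 3 ≤ n := by
      calc (ρ : ℝ) ^ 3 ≤ (2 * A) ^ 3 := pow_le_pow_left₀ (by positivity) hρ2 3
        _ = A ^ 3 * 8 := by ring
        _ ≤ A ^ 3 * ((κ : ℝ) ^ 4 / b) := by
            apply mul_le_mul_of_nonneg_left _ (by positivity)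
            rw [le_div_iff₀ hb0]
            have h3 : (κ : ℝ) ≤ (κ : ℝ) ^ 4 := by
              calc (κ : ℝ) = (κ : ℝ) ^ 1 := (pow_one _).symm
                _ ≤ (κ : ℝ) ^ 4 := pow_le_pow_right₀ hκ1 (by norm_num)
            nlinarith
        _ = B := by rw [hBA]; ring
        _ ≤ n := hn1
    exact_mod_cast this
  have hmain := H X' Y (κ ^ 4) ρ κ hf' (Nat.one_le_pow _ _ hκn) hρn hκn c1 c2
    (fun x hx => hdeg x (hX' hx))
  rw [hX'c] at hmain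
  have hMs : Real.sqrt (Y.card : ℝ) ≤ (κ : ℝ) ^ 7 := by
    rw [Real.sqrt_le_left (by positivity)]
    have h1 : (Y.card : ℝ) * (κ : ℝ) ^ 4 ≤ (κ : ℝ) ^ 17 := by
      have h2 : (Y.card : ℝ) ^ 2 ≤ (κ : ℝ) ^ 17 := by exact_mod_cast h17
      have h3 : (κ : ℝ) ^ 4 ≤ (Y.card : ℝ) := by exact_mod_cast hMκ
      calc (Y.card : ℝ) * (κ : ℝ) ^ 4 ≤ (Y.card : ℝ) * (Y.card : ℝ) :=
            mul_le_mul_of_nonneg_left h3 hMr0.le
        _ = (Y.card : ℝ) ^ 2 := by ring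
        _ ≤ (κ : ℝ) ^ 17 := h2
    have h4 : (Y.card : ℝ) ≤ (κ : ℝ) ^ 13 := by
      have h5 : (κ : ℝ) ^ 17 = (κ : ℝ) ^ 13 * (κ : ℝ) ^ 4 := by ring
      rw [h5] at h1
      exact le_of_mul_le_mul_right h1 (by positivity)
    calc (Y.card : ℝ) ≤ (κ : ℝ) ^ 13 := h4
      _ ≤ (κ : ℝ) ^ 14 := pow_le_pow_right₀ hκ1 (by norm_num)
      _ = ((κ : ℝ) ^ 7) ^ 2 := by ring
  refine t2class_real C b κ A B Y.card n ρ hCr hbr hκr hA1 hMA hBA hρ1 hρ2 hn1 hn2 hMs ?_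
  push_cast at hmain
  exact hmain

end Pool.Agent.H72.PP
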