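import Pool.Agent.H72.PP.T1

set_option autoImplicit false
open Finset

namespace Pool.Agent.H72.PP

theorem rich_card {C1 : ℕ} (hC1 : 1 ≤ C1) {X Y : Finset E} {s κ : ℕ}
    (h1 : ∀ X' : Finset E, Free s X' Y → (I X' Y : ℝ) ≤ C1 * (κ * Y.card +
      (X'.card : ℝ) ^ 3 / (κ : ℝ) ^ 4 + (X'.card : ℝ) ^ 2))
    (hF : Free s X Y) (hκ : 1 ≤ κ) (hM : 32 * C1 ^ 2 * Y.card ≤ κ ^ 7)
    (hX : ∀ x ∈ X, κ ^ 4 ≤ (nb Y x).card) (hb : 4 * C1 ≤ κ ^ 4) : X.card ≤ κ ^ 4 := by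
  by_contra hcon
  rw [not_le] at hcon
  obtain ⟨n, hn⟩ : ∃ n : ℕ, n = κ ^ 4 / (4 * C1) + 1 := ⟨_, rfl⟩
  have hn1 : κ ^ 4 < 4 * C1 * n := by
    rw [hn, mul_add, mul_one]
    exact Nat.lt_mul_div_succ _ (by omega)
  have hdiv : 4 * C1 * (κ ^ 4 / (4 * C1)) ≤ κ ^ 4 := Nat.mul_div_le _ _
  have hn2 : 2 * C1 * n ≤ κ ^ 4 := by
    have h2 : 4 * C1 * n ≤ κ ^ 4 + 4 * C1 := by
      rw [hn, mul_add, mul_one]
      omega
    have h3 : 2 * (2 * C1 * n) ≤ 2 * κ ^ 4 := by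
      calc 2 * (2 * C1 * n) = 4 * C1 * n := by ring
        _ ≤ κ ^ 4 + 4 * C1 := h2
        _ ≤ 2 * κ ^ 4 := by omega
    omega
  have hn3 : n ≤ κ ^ 4 := by
    calc n = 1 * n := by ring
      _ ≤ 2 * C1 * n := Nat.mul_le_mul_right _ (by omega)
      _ ≤ κ ^ 4 := hn2
  obtain ⟨X', hX', hcard⟩ := Finset.exists_subset_card_eq (hn3.trans hcon.le)
  have hF' : Free s X' Y := fun S hS => hF S (hS.trans hX')
  have h4 := h1 X' hF'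
  have h5 : κ ^ 4 * n ≤ I X' Y := by
    unfold I
    have := Finset.card_nsmul_le_sum X' (fun x => (nb Y x).card) (κ ^ 4)
      (fun x hx => hX x (hX' hx))
    rw [hcard, smul_eq_mul, mul_comm] at this
    exact this
  rw [hcard] at h4
  have hκr : (0 : ℝ) < κ := by exact_mod_cast hκ
  have hCr : (1 : ℝ) ≤ C1 := by exact_mod_cast hC1
  have h5' : (κ : ℝ) ^ 4 * n ≤ I X' Y := by exact_mod_cast h5
  have hn0 : (0 : ℝ) < n := by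
    have : 0 < n := by
      rw [hn]
      exact Nat.succ_pos _
    exact_mod_cast this
  have hn1' : (κ : ℝ) ^ 4 ≤ 4 * C1 * n := by exact_mod_cast hn1.le
  have hn2' : 2 * (C1 : ℝ) * n ≤ (κ : ℝ) ^ 4 := by exact_mod_cast hn2
  have hM' : 32 * (C1 : ℝ) ^ 2 * Y.card ≤ (κ : ℝ) ^ 7 := by exact_mod_cast hM
  obtain ⟨K, hK⟩ : ∃ K : ℝ, K = (κ : ℝ) ^ 4 := ⟨_, rfl⟩
  have hKpos : 0 < K := by rw [hK]; positivity
  rw [← hK] at h4 h5' hn1' hn2'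
  -- first term
  have t1 : (C1 : ℝ) * (κ * Y.card) ≤ K * n / 8 := by
    have e1 : 32 * (C1 : ℝ) ^ 2 * (κ * Y.card) ≤ K * K := by
      calc 32 * (C1 : ℝ) ^ 2 * (κ * Y.card) = κ * (32 * (C1 : ℝ) ^ 2 * Y.card) := by ring
        _ ≤ κ * (κ : ℝ) ^ 7 := mul_le_mul_of_nonneg_left hM' hκr.le
        _ = K * K := by rw [hK]; ring
    have e2 : K * K ≤ K * (4 * C1 * n) := mul_le_mul_of_nonneg_left hn1' hKpos.le
    have e3 : (C1 : ℝ) * (32 * ((C1 : ℝ) * (κ * Y.card))) ≤ C1 * (4 * (K * n)) := by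
      calc (C1 : ℝ) * (32 * ((C1 : ℝ) * (κ * Y.card))) =
            32 * (C1 : ℝ) ^ 2 * (κ * Y.card) := by ring
        _ ≤ K * (4 * C1 * n) := e1.trans e2
        _ = C1 * (4 * (K * n)) := by ring
    have e4 := le_of_mul_le_mul_left e3 (by linarith)
    linarith
  have t2 : (C1 : ℝ) * ((n : ℝ) ^ 3 / K) ≤ K * n / 4 := by
    rw [← mul_div_assoc, div_le_iff₀ hKpos]
    have e1 : (2 * (C1 : ℝ) * n) * (2 * (C1 : ℝ) * n) ≤ K * K :=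
      mul_le_mul hn2' hn2' (by positivity) hKpos.le
    have e2 : 4 * ((C1 : ℝ) * (n : ℝ) ^ 3) ≤ 4 * ((C1 : ℝ) ^ 2 * (n : ℝ) ^ 3) := by
      have : (C1 : ℝ) ≤ (C1 : ℝ) ^ 2 := by nlinarith
      have := mul_le_mul_of_nonneg_right this (by positivity : (0 : ℝ) ≤ (n : ℝ) ^ 3)
      linarith
    have e3 : 4 * ((C1 : ℝ) ^ 2 * (n : ℝ) ^ 3) ≤ n * (K * K) := by
      calc 4 * ((C1 : ℝ) ^ 2 * (n : ℝ) ^ 3) = n * ((2 * (C1 : ℝ) * n) * (2 * (C1 : ℝ) * n)) := by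
            ring
        _ ≤ n * (K * K) := mul_le_mul_of_nonneg_left e1 hn0.le
    linarith
  have t3 : (C1 : ℝ) * (n : ℝ) ^ 2 ≤ K * n / 2 := by
    have := mul_le_mul_of_nonneg_right hn2' hn0.le
    nlinarith
  have t4 : (C1 : ℝ) * (κ * Y.card + (n : ℝ) ^ 3 / K + (n : ℝ) ^ 2) ≤ K * n * (7 / 8) := by
    calc (C1 : ℝ) * (κ * Y.card + (n : ℝ) ^ 3 / K + (n : ℝ) ^ 2) =
          C1 * (κ * Y.card) + C1 * ((n : ℝ) ^ 3 / K) + C1 * (n : ℝ) ^ 2 := by ring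
      _ ≤ K * n / 8 + K * n / 4 + K * n / 2 := by linarith
      _ = K * n * (7 / 8) := by ring
  have t5 : 0 < K * n := mul_pos hKpos hn0
  linarith

/-- very rich points. -/
theorem t2rich (s : ℕ) (hs : 2 ≤ s) : ∃ C b0 : ℕ, 1 ≤ C ∧ ∀ (X Y : Finset E) (κ : ℕ),
    Free s X Y → 1 ≤ κ → b0 * Y.card ≤ κ ^ 7 → (∀ x ∈ X, κ ^ 4 ≤ (nb Y x).card) →
    I X Y ≤ C * κ ^ 8 := by
  obtain ⟨C1, hC1, h1⟩ := t1' s hs
  refine ⟨3 * C1, 32 * C1 ^ 2, by omega, ?_⟩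
  intro X Y κ hF hκ hM hX
  rcases Nat.lt_or_ge (κ ^ 4) (4 * C1) with hlt | hge
  · have h2 : Y.card = 0 := by
      by_contra hne
      have h3 : 1 ≤ Y.card := Nat.one_le_iff_ne_zero.2 hne
      have h4 : 32 * C1 ^ 2 ≤ κ ^ 7 := by
        calc 32 * C1 ^ 2 = 32 * C1 ^ 2 * 1 := by ring
          _ ≤ 32 * C1 ^ 2 * Y.card := Nat.mul_le_mul_left _ h3
          _ ≤ κ ^ 7 := hM
      have h5 : κ ^ 7 ≤ κ ^ 8 := Nat.pow_le_pow_right hκ (by norm_num)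
      have h6 : κ ^ 8 = κ ^ 4 * κ ^ 4 := by ring
      have h7 : κ ^ 4 * κ ^ 4 < (4 * C1) * (4 * C1) := Nat.mul_lt_mul'' hlt hlt
      have h8 : (4 * C1) * (4 * C1) = 16 * C1 ^ 2 := by ring
      have h9 : 0 < C1 ^ 2 := Nat.pow_pos (by omega)
      omega
    have h3 : ∀ x, (nb Y x).card = 0 := by
      intro x
      have : (nb Y x).card ≤ Y.card := by
        classical
        exact Finset.card_filter_le _ _
      omega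
    have h4 : I X Y = 0 := by
      unfold I
      exact Finset.sum_eq_zero (fun x _ => h3 x)
    rw [h4]
    exact Nat.zero_le _
  · have hN := rich_card (s := s) hC1 (fun X' hF' => h1 X' Y hF' κ hκ) hF hκ hM hX hge
    have h2 := h1 X Y hF κ hκ
    have hκr : (0 : ℝ) < κ := by exact_mod_cast hκ
    have hCr : (1 : ℝ) ≤ C1 := by exact_mod_cast hC1
    have hM' : 32 * (C1 : ℝ) ^ 2 * Y.card ≤ (κ : ℝ) ^ 7 := by exact_mod_cast hM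
    have hN' : (X.card : ℝ) ≤ (κ : ℝ) ^ 4 := by exact_mod_cast hN
    have hNn : (0 : ℝ) ≤ X.card := Nat.cast_nonneg _
    have t1 : (κ : ℝ) * Y.card ≤ (κ : ℝ) ^ 8 := by
      have e1 : (Y.card : ℝ) ≤ 32 * (C1 : ℝ) ^ 2 * Y.card := by
        have : (1 : ℝ) ≤ 32 * (C1 : ℝ) ^ 2 := by nlinarith
        calc (Y.card : ℝ) = 1 * Y.card := by ring
          _ ≤ 32 * (C1 : ℝ) ^ 2 * Y.card :=
            mul_le_mul_of_nonneg_right this (Nat.cast_nonneg _)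
      calc (κ : ℝ) * Y.card ≤ κ * (κ : ℝ) ^ 7 :=
            mul_le_mul_of_nonneg_left (e1.trans hM') hκr.le
        _ = (κ : ℝ) ^ 8 := by ring
    have t2 : (X.card : ℝ) ^ 3 / (κ : ℝ) ^ 4 ≤ (κ : ℝ) ^ 8 := by
      rw [div_le_iff₀ (by positivity)]
      calc (X.card : ℝ) ^ 3 ≤ ((κ : ℝ) ^ 4) ^ 3 := pow_le_pow_left₀ hNn hN' 3
        _ = (κ : ℝ) ^ 8 * (κ : ℝ) ^ 4 := by ring
    have t3 : (X.card : ℝ) ^ 2 ≤ (κ : ℝ) ^ 8 := by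
      calc (X.card : ℝ) ^ 2 ≤ ((κ : ℝ) ^ 4) ^ 2 := pow_le_pow_left₀ hNn hN' 2
        _ = (κ : ℝ) ^ 8 := by ring
    have t4 : (I X Y : ℝ) ≤ 3 * C1 * (κ : ℝ) ^ 8 := by
      calc (I X Y : ℝ) ≤ C1 * (κ * Y.card + (X.card : ℝ) ^ 3 / (κ : ℝ) ^ 4 +
            (X.card : ℝ) ^ 2) := h2
        _ ≤ C1 * ((κ : ℝ) ^ 8 + (κ : ℝ) ^ 8 + (κ : ℝ) ^ 8) :=
            mul_le_mul_of_nonneg_left (by linarith) (by linarith)
        _ = 3 * C1 * (κ : ℝ) ^ 8 := by ring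
    exact_mod_cast t4

end Pool.Agent.H72.PP
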