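import Pool.Agent.H72.PP.T2class
import Pool.Agent.H72.PP.T2rich

set_option autoImplicit false
open Finset

namespace Pool.Agent.H72.PP

theorem I_split (X Y : Finset E) (k : ℕ) :
    I X Y = I (X.filter fun x => (nb Y x).card < k) Y +
      I (X.filter fun x => ¬ (nb Y x).card < k) Y := by
  unfold I
  exact (Finset.sum_filter_add_sum_filter_not X _ _).symm

theorem I_le_mul (X Y : Finset E) (k : ℕ) (h : ∀ x ∈ X, (nb Y x).card ≤ k) :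
    I X Y ≤ X.card * k := by
  unfold I
  have := Finset.sum_le_card_nsmul X (fun x => (nb Y x).card) k h
  simpa using this

theorem Free_of_subset {s : ℕ} {X X' Y : Finset E} (h : Free s X Y) (hX : X' ⊆ X) :
    Free s X' Y := fun S hS => h S (hS.trans hX)

theorem rich_bound (X Y : Finset E) (κ b Cr : ℕ) (D : ℝ) (hD : 1 ≤ D)
    (hκ : (κ : ℝ) ^ 7 ≤ D * Y.card) (hr : I X Y ≤ Cr * κ ^ 8) :
    (I X Y : ℝ) ≤ 32 * (b : ℝ) ^ 5 * ((Y.card : ℝ) ^ 3 / (κ : ℝ) ^ 13) +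
        Cr * D ^ 2 * (Y.card : ℝ) ^ (8 / 7 : ℝ) := by
  have hκ0 : (0 : ℝ) ≤ κ := Nat.cast_nonneg _
  have hM0 : (0 : ℝ) ≤ Y.card := Nat.cast_nonneg _
  have h1 : (κ : ℝ) ^ 8 ≤ D ^ 2 * (Y.card : ℝ) ^ (8 / 7 : ℝ) := by
    have e1 : (κ : ℝ) ^ 8 = ((κ : ℝ) ^ 7) ^ (8 / 7 : ℝ) := by
      rw [← Real.rpow_natCast (κ : ℝ) 7, ← Real.rpow_mul hκ0, ← Real.rpow_natCast (κ : ℝ) 8]
      norm_num
    rw [e1]
    calc ((κ : ℝ) ^ 7) ^ (8 / 7 : ℝ) ≤ (D * Y.card) ^ (8 / 7 : ℝ) :=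
          Real.rpow_le_rpow (by positivity) hκ (by norm_num)
      _ = D ^ (8 / 7 : ℝ) * (Y.card : ℝ) ^ (8 / 7 : ℝ) :=
          Real.mul_rpow (by linarith) hM0
      _ ≤ D ^ 2 * (Y.card : ℝ) ^ (8 / 7 : ℝ) := by
          apply mul_le_mul_of_nonneg_right _ (Real.rpow_nonneg hM0 _)
          rw [← Real.rpow_natCast D 2]
          exact Real.rpow_le_rpow_of_exponent_le hD (by norm_num)
  have h2 : (I X Y : ℝ) ≤ Cr * (κ : ℝ) ^ 8 := by exact_mod_cast hr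
  have h3 : (0 : ℝ) ≤ 32 * (b : ℝ) ^ 5 * ((Y.card : ℝ) ^ 3 / (κ : ℝ) ^ 13) := by positivity
  have h4 : (Cr : ℝ) * (κ : ℝ) ^ 8 ≤ Cr * (D ^ 2 * (Y.card : ℝ) ^ (8 / 7 : ℝ)) :=
    mul_le_mul_of_nonneg_left h1 (Nat.cast_nonneg _)
  linarith

/-- the induction over the dyadic classes. -/
theorem t2int_dyadic {s b b1 κ0 Cr : ℕ} (hb1 : b1 ≤ b ^ 2) (Y : Finset E)
    (hcl : ∀ (X : Finset E) (κ : ℕ), Free s X Y → X.card ≤ Y.card → κ0 ≤ κ →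
      κ ^ 7 ≤ b ^ 2 * Y.card → Y.card ^ 2 ≤ κ ^ 17 →
      (∀ x ∈ X, κ ^ 4 ≤ (nb Y x).card ∧ (nb Y x).card ≤ 16 * κ ^ 4) →
      X.card * κ ^ 17 ≤ b ^ 5 * Y.card ^ 3)
    (hri : ∀ (X : Finset E) (κ : ℕ), Free s X Y → 1 ≤ κ → b1 * Y.card ≤ κ ^ 7 →
      (∀ x ∈ X, κ ^ 4 ≤ (nb Y x).card) → I X Y ≤ Cr * κ ^ 8) (D : ℝ) (hD : 1 ≤ D)
    (hDb : (128 : ℝ) * b ^ 2 ≤ D) :
    ∀ (n : ℕ) (X : Finset E) (κ : ℕ), b ^ 2 * Y.card < κ + n → Free s X Y →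
      X.card ≤ Y.card → 1 ≤ κ → κ0 ≤ κ → (κ : ℝ) ^ 7 ≤ D * Y.card → Y.card ^ 2 ≤ κ ^ 17 →
      (∀ x ∈ X, κ ^ 4 ≤ (nb Y x).card) →
      (I X Y : ℝ) ≤ 32 * (b : ℝ) ^ 5 * ((Y.card : ℝ) ^ 3 / (κ : ℝ) ^ 13) +
        Cr * D ^ 2 * (Y.card : ℝ) ^ (8 / 7 : ℝ) := by
  intro n
  induction n with
  | zero =>
    intro X κ hn hF hc h1 h0 hκ hM hX
    have h7 : κ ≤ κ ^ 7 := Nat.le_self_pow (by norm_num) κ
    have hr := hri X κ hF h1 (by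
      calc b1 * Y.card ≤ b ^ 2 * Y.card := Nat.mul_le_mul_right _ hb1
        _ ≤ κ ^ 7 := by omega) hX
    exact rich_bound X Y κ b Cr D hD hκ hr
  | succ n ih =>
    intro X κ hn hF hc h1 h0 hκ hM hX
    rcases Nat.lt_or_ge (b ^ 2 * Y.card) (κ ^ 7) with hlt | hge
    · have hr := hri X κ hF h1 ((Nat.mul_le_mul_right _ hb1).trans hlt.le) hX
      exact rich_bound X Y κ b Cr D hD hκ hr
    · rw [I_split X Y (16 * κ ^ 4)]
      have hF1 := Free_of_subset hF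
        (Finset.filter_subset (fun x => (nb Y x).card < 16 * κ ^ 4) X)
      have hF2 := Free_of_subset hF
        (Finset.filter_subset (fun x => ¬ (nb Y x).card < 16 * κ ^ 4) X)
      have hc1 := (Finset.card_filter_le X (fun x => (nb Y x).card < 16 * κ ^ 4)).trans hc
      have hc2 := (Finset.card_filter_le X (fun x => ¬ (nb Y x).card < 16 * κ ^ 4)).trans hc
      have hA := hcl _ κ hF1 hc1 h0 hge hM (by
        intro x hx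
        rw [Finset.mem_filter] at hx
        exact ⟨hX x hx.1, hx.2.le⟩)
      have hB := I_le_mul (X.filter fun x => (nb Y x).card < 16 * κ ^ 4) Y (16 * κ ^ 4) (by
        intro x hx
        rw [Finset.mem_filter] at hx
        exact hx.2.le)
      have hge' : (κ : ℝ) ^ 7 ≤ (b : ℝ) ^ 2 * Y.card := by exact_mod_cast hge
      have hC := ih _ (2 * κ) (by omega) hF2 hc2 (by omega) (by omega) (by
        push_cast
        have h5 : (2 * (κ : ℝ)) ^ 7 = 128 * (κ : ℝ) ^ 7 := by ring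
        rw [h5]
        calc 128 * (κ : ℝ) ^ 7 ≤ 128 * ((b : ℝ) ^ 2 * Y.card) := by linarith
          _ = 128 * (b : ℝ) ^ 2 * Y.card := by ring
          _ ≤ D * Y.card := mul_le_mul_of_nonneg_right hDb (Nat.cast_nonneg _))
        (hM.trans (Nat.pow_le_pow_left (by omega) 17)) (by
        intro x hx
        rw [Finset.mem_filter] at hx
        have h6 : (2 * κ) ^ 4 = 16 * κ ^ 4 := by ring
        rw [h6]
        exact not_lt.1 hx.2)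
      generalize X.filter (fun x => (nb Y x).card < 16 * κ ^ 4) = X1 at hA hB ⊢
      generalize X.filter (fun x => ¬ (nb Y x).card < 16 * κ ^ 4) = X2 at hC ⊢
      have hκ0 : (0 : ℝ) < κ := by exact_mod_cast h1
      have hA' : (X1.card : ℝ) * (κ : ℝ) ^ 17 ≤ (b : ℝ) ^ 5 * (Y.card : ℝ) ^ 3 := by
        exact_mod_cast hA
      have hB' : (I X1 Y : ℝ) ≤ X1.card * (16 * (κ : ℝ) ^ 4) := by exact_mod_cast hB
      have h7 : (X1.card : ℝ) * (16 * (κ : ℝ) ^ 4) ≤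
          16 * (b : ℝ) ^ 5 * ((Y.card : ℝ) ^ 3 / (κ : ℝ) ^ 13) := by
        have h8 : (X1.card : ℝ) * (κ : ℝ) ^ 4 ≤
            (b : ℝ) ^ 5 * (Y.card : ℝ) ^ 3 / (κ : ℝ) ^ 13 := by
          rw [le_div_iff₀ (by positivity)]
          calc (X1.card : ℝ) * (κ : ℝ) ^ 4 * (κ : ℝ) ^ 13 = X1.card * (κ : ℝ) ^ 17 := by ring
            _ ≤ _ := hA'
        calc (X1.card : ℝ) * (16 * (κ : ℝ) ^ 4) = 16 * (X1.card * (κ : ℝ) ^ 4) := by ring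
          _ ≤ 16 * ((b : ℝ) ^ 5 * (Y.card : ℝ) ^ 3 / (κ : ℝ) ^ 13) := by linarith
          _ = _ := by ring
      have h9 : (Y.card : ℝ) ^ 3 / ((2 * κ : ℕ) : ℝ) ^ 13 =
          (Y.card : ℝ) ^ 3 / (κ : ℝ) ^ 13 / 8192 := by
        push_cast
        rw [div_div]
        congr 1
        ring
      rw [h9] at hC
      have h10 : (0 : ℝ) ≤ (b : ℝ) ^ 5 * ((Y.card : ℝ) ^ 3 / (κ : ℝ) ^ 13) := by positivity
      push_cast
      nlinarith [hB', h7, hC, h10]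

/-- integer form of the second theorem. -/
theorem t2int (s : ℕ) (hs : 2 ≤ s) : ∃ C κ0 : ℕ, 1 ≤ C ∧ 1 ≤ κ0 ∧ ∀ (X Y : Finset E) (κ : ℕ),
    Free s X Y → X.card ≤ Y.card → κ0 ≤ κ → κ ^ 7 ≤ 128 * κ0 ^ 7 * Y.card →
    Y.card ^ 2 ≤ κ ^ 17 →
    (I X Y : ℝ) ≤ C * ((κ : ℝ) ^ 4 * X.card + (Y.card : ℝ) ^ 3 / (κ : ℝ) ^ 13 +
      (Y.card : ℝ) ^ (8 / 7 : ℝ)) := by
  obtain ⟨b0, hb0⟩ := t2class s hs
  obtain ⟨Cr, b1, hCr, hri⟩ := t2rich s hs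
  obtain ⟨b, hb⟩ : ∃ b : ℕ, b = b0 + b1 + 1 := ⟨_, rfl⟩
  obtain ⟨κ0, hκ0, hcl⟩ := hb0 b (by omega)
  have hb1 : b1 ≤ b ^ 2 := by
    have h1 : b1 ≤ b := by omega
    exact h1.trans (Nat.le_self_pow (by norm_num) b)
  obtain ⟨D, hD⟩ : ∃ D : ℕ, D = 128 * b ^ 2 + 128 * κ0 ^ 7 := ⟨_, rfl⟩
  have hk7 : 1 ≤ κ0 ^ 7 := Nat.one_le_pow _ _ hκ0
  refine ⟨1 + 32 * b ^ 5 + Cr * D ^ 2, κ0, by omega, hκ0, ?_⟩
  intro X Y κ hF hc h0 hκ hM
  have h1 : 1 ≤ κ := hκ0.trans h0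
  have hD1 : (1 : ℝ) ≤ D := by
    have : 1 ≤ D := by omega
    exact_mod_cast this
  have hDb : (128 : ℝ) * b ^ 2 ≤ D := by
    have : 128 * b ^ 2 ≤ D := by omega
    exact_mod_cast this
  have hDk : (κ : ℝ) ^ 7 ≤ D * Y.card := by
    have h2 : κ ^ 7 ≤ D * Y.card := by
      calc κ ^ 7 ≤ 128 * κ0 ^ 7 * Y.card := hκ
        _ ≤ D * Y.card := Nat.mul_le_mul_right _ (by omega)
    exact_mod_cast h2
  rw [I_split X Y (κ ^ 4)]
  have hA := I_le_mul (X.filter fun x => (nb Y x).card < κ ^ 4) Y (κ ^ 4) (by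
    intro x hx
    rw [Finset.mem_filter] at hx
    exact hx.2.le)
  have hc1 := Finset.card_filter_le X (fun x => (nb Y x).card < κ ^ 4)
  have hB := t2int_dyadic hb1 Y (fun X κ => hcl X Y κ) (fun X κ => hri X Y κ) (D : ℝ) hD1 hDb
    (b ^ 2 * Y.card) (X.filter fun x => ¬ (nb Y x).card < κ ^ 4) κ (by omega)
    (Free_of_subset hF (Finset.filter_subset _ X))
    ((Finset.card_filter_le X _).trans hc) h1 h0 hDk hM (by
      intro x hx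
      rw [Finset.mem_filter] at hx
      exact not_lt.1 hx.2)
  generalize X.filter (fun x => (nb Y x).card < κ ^ 4) = X1 at hA hc1 ⊢
  generalize X.filter (fun x => ¬ (nb Y x).card < κ ^ 4) = X2 at hB ⊢
  have hA' : (I X1 Y : ℝ) ≤ (κ : ℝ) ^ 4 * X.card := by
    have h3 : I X1 Y ≤ κ ^ 4 * X.card := by
      calc I X1 Y ≤ X1.card * κ ^ 4 := hA
        _ ≤ X.card * κ ^ 4 := Nat.mul_le_mul_right _ hc1
        _ = κ ^ 4 * X.card := by ring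
    exact_mod_cast h3
  have hκr : (0 : ℝ) < κ := by exact_mod_cast h1
  have p1 : (0 : ℝ) ≤ (κ : ℝ) ^ 4 * X.card := by positivity
  have p2 : (0 : ℝ) ≤ (Y.card : ℝ) ^ 3 / (κ : ℝ) ^ 13 := by positivity
  have p3 : (0 : ℝ) ≤ (Y.card : ℝ) ^ (8 / 7 : ℝ) := by positivity
  generalize (κ : ℝ) ^ 4 * X.card = u at *
  generalize (Y.card : ℝ) ^ 3 / (κ : ℝ) ^ 13 = v at *
  generalize (Y.card : ℝ) ^ (8 / 7 : ℝ) = w at *
  push_cast
  have q1 : (0 : ℝ) ≤ (b : ℝ) ^ 5 := by positivity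
  have q2 : (0 : ℝ) ≤ (Cr : ℝ) * (D : ℝ) ^ 2 := by positivity
  generalize (b : ℝ) ^ 5 = β at *
  generalize (Cr : ℝ) * (D : ℝ) ^ 2 = δ at *
  nlinarith [mul_nonneg q1 p1, mul_nonneg q1 p3, mul_nonneg q2 p1, mul_nonneg q2 p2,
    mul_nonneg q1 p2, mul_nonneg q2 p3]

end Pool.Agent.H72.PP
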