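import Pool.Agent.H72.PP.T1

set_option autoImplicit false
open Finset

namespace Pool.Agent.H72.PP

namespace T2stepAux

open Classical in
theorem I_split (A B Z : Finset E) (h : B ⊆ A) : I A Z = I B Z + I (A \ B) Z := by
  unfold I
  rw [add_comm, Finset.sum_sdiff h]

theorem group (s : ℕ) (C1 : ℝ) (κ g : ℕ) (Z : Finset E) (hg : 1 ≤ g) (hC : 0 ≤ C1)
    (h : ∀ A : Finset E, Free s A Z →
      (I A Z : ℝ) ≤ C1 * (κ * Z.card + (A.card : ℝ) ^ 3 / (κ : ℝ) ^ 4 + (A.card : ℝ) ^ 2)) :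
    ∀ (n : ℕ) (A : Finset E), A.card = n → Free s A Z →
      (I A Z : ℝ) ≤ ((A.card : ℝ) / g + 1) *
        (C1 * (κ * Z.card + (g : ℝ) ^ 3 / (κ : ℝ) ^ 4 + (g : ℝ) ^ 2)) := by
  classical
  intro n
  induction n using Nat.strong_induction_on with
  | _ n ih =>
    intro A hA hf
    have hg0 : (0 : ℝ) < g := by exact_mod_cast hg
    have hbd : 0 ≤ C1 * (κ * Z.card + (g : ℝ) ^ 3 / (κ : ℝ) ^ 4 + (g : ℝ) ^ 2) := by positivity
    by_cases hle : A.card ≤ g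
    · have hle' : (A.card : ℝ) ≤ g := by exact_mod_cast hle
      calc (I A Z : ℝ) ≤ C1 * (κ * Z.card + (A.card : ℝ) ^ 3 / (κ : ℝ) ^ 4 + (A.card : ℝ) ^ 2) :=
            h A hf
        _ ≤ C1 * (κ * Z.card + (g : ℝ) ^ 3 / (κ : ℝ) ^ 4 + (g : ℝ) ^ 2) := by gcongr
        _ = 1 * (C1 * (κ * Z.card + (g : ℝ) ^ 3 / (κ : ℝ) ^ 4 + (g : ℝ) ^ 2)) := by ring
        _ ≤ _ := by
            apply mul_le_mul_of_nonneg_right _ hbd
            have : (0 : ℝ) ≤ (A.card : ℝ) / g := by positivity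
            linarith
    · push Not at hle
      obtain ⟨B, hB, hBc⟩ := Finset.exists_subset_card_eq hle.le
      have h1 : (A \ B).card = A.card - g := by rw [Finset.card_sdiff_of_subset hB, hBc]
      have h2 := ih (A.card - g) (by omega) (A \ B) h1 (hf.mono Finset.sdiff_subset (Subset.refl Z))
      have h3 := h B (hf.mono hB (Subset.refl Z))
      rw [hBc] at h3
      rw [I_split A B Z hB]
      push_cast
      have h4 : ((A \ B).card : ℝ) = A.card - g := by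
        rw [h1, Nat.cast_sub hle.le]
      rw [h4] at h2
      have h5 : ((A.card : ℝ) / g + 1) = 1 + (((A.card : ℝ) - g) / g + 1) := by
        field_simp
        ring
      rw [h5, add_mul, one_mul]
      exact add_le_add h3 h2

theorem calc1 (C0 C1 M N ρ κ g : ℝ) (hC0 : 0 ≤ C0) (hC1 : 0 ≤ C1) (hM : 0 ≤ M) (hN : 0 ≤ N)
    (hρ : 0 < ρ) (hκ : 0 < κ) (hg : 0 < g) (hgle : g ≤ N / ρ ^ 3) :
    (2 + C0) * ρ ^ 3 * (C1 * (κ * (C0 * M / ρ) + g ^ 3 / κ ^ 4 + g ^ 2)) ≤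
      (2 + C0) * C1 * (C0 + 1) * (κ * M * ρ ^ 2 + N ^ 3 / (ρ ^ 6 * κ ^ 4) + N ^ 2 / ρ ^ 3) := by
  have h1 : g ^ 3 / κ ^ 4 ≤ (N / ρ ^ 3) ^ 3 / κ ^ 4 := by gcongr
  have h2 : g ^ 2 ≤ (N / ρ ^ 3) ^ 2 := by gcongr
  have h3 : ρ ^ 3 * (κ * (C0 * M / ρ) + (N / ρ ^ 3) ^ 3 / κ ^ 4 + (N / ρ ^ 3) ^ 2) =
      C0 * (κ * M * ρ ^ 2) + N ^ 3 / (ρ ^ 6 * κ ^ 4) + N ^ 2 / ρ ^ 3 := by
    field_simp
  have h4 : 0 ≤ κ * M * ρ ^ 2 := by positivity
  have h5 : 0 ≤ N ^ 3 / (ρ ^ 6 * κ ^ 4) := by positivity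
  have h6 : 0 ≤ N ^ 2 / ρ ^ 3 := by positivity
  have h7 : 0 ≤ (2 + C0) * C1 := by positivity
  have h8 : ρ ^ 3 * (κ * (C0 * M / ρ) + g ^ 3 / κ ^ 4 + g ^ 2) ≤
      C0 * (κ * M * ρ ^ 2) + N ^ 3 / (ρ ^ 6 * κ ^ 4) + N ^ 2 / ρ ^ 3 := by
    rw [← h3]
    apply mul_le_mul_of_nonneg_left _ (by positivity)
    linarith
  have h9 : C0 * (κ * M * ρ ^ 2) + N ^ 3 / (ρ ^ 6 * κ ^ 4) + N ^ 2 / ρ ^ 3 ≤
      (C0 + 1) * (κ * M * ρ ^ 2 + N ^ 3 / (ρ ^ 6 * κ ^ 4) + N ^ 2 / ρ ^ 3) := by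
    have h10 := mul_nonneg hC0 h5
    have h11 := mul_nonneg hC0 h6
    linarith
  have h12 := mul_le_mul_of_nonneg_left (h8.trans h9) h7
  calc _ = (2 + C0) * C1 * (ρ ^ 3 * (κ * (C0 * M / ρ) + g ^ 3 / κ ^ 4 + g ^ 2)) := by ring
    _ ≤ _ := h12
    _ = _ := by ring

theorem calc2 (k C0 C1 : ℕ) (M N : ℝ) (s : ℕ) (A S : ℝ)
    (hM : 0 ≤ M) (hN : 0 ≤ N) (hA : 0 ≤ A) (hS : 0 ≤ S)
    (h : (k : ℝ) * N ≤ 2 * ((2 + C0) * C1 * (C0 + 1) * A + (s * N + s * (2 * M + 6 * C0 * S)))) :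
    (k : ℝ) * N ≤ (2 * ((2 + C0) * C1 * (C0 + 1)) + 12 * s * (C0 + 1) : ℕ) *
      (A + N + M + S) := by
  push_cast
  have e1 : (2 * ((2 + (C0 : ℝ)) * C1 * (C0 + 1)) + 12 * s * (C0 + 1)) * (A + N + M + S) =
      2 * ((2 + C0) * C1 * (C0 + 1) * A + (s * N + s * (2 * M + 6 * C0 * S))) +
      (2 * ((2 + (C0 : ℝ)) * C1 * (C0 + 1)) * (N + M + S) + 12 * s * (C0 + 1) * A +
        s * (12 * C0 * N + 10 * N + 12 * C0 * M + 8 * M + 12 * S)) := by ring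
  have e2 : 0 ≤ 2 * ((2 + (C0 : ℝ)) * C1 * (C0 + 1)) * (N + M + S) + 12 * s * (C0 + 1) * A +
        s * (12 * C0 * N + 10 * N + 12 * C0 * M + 8 * M + 12 * S) := by positivity
  rw [e1]
  linarith

end T2stepAux

/-- One cutting step: an inequality for points of degree between `k` and `16 k`. -/
theorem t2step (s : ℕ) (hs : 2 ≤ s) : ∃ C : ℕ, 1 ≤ C ∧ ∀ (X Y : Finset E) (k ρ κ : ℕ),
    Free s X Y → 1 ≤ k → 1 ≤ ρ → 1 ≤ κ → 128 * k * ρ ≤ Y.card → ρ ^ 3 ≤ X.card →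
    (∀ x ∈ X, k ≤ (nb Y x).card ∧ (nb Y x).card ≤ 16 * k) →
    (k : ℝ) * X.card ≤ C * (κ * Y.card * (ρ : ℝ) ^ 2 + (X.card : ℝ) ^ 3 / (ρ ^ 6 * κ ^ 4) +
      (X.card : ℝ) ^ 2 / (ρ : ℝ) ^ 3 + X.card + Y.card + Real.sqrt Y.card * (ρ : ℝ) ^ 3) := by
  classical
  obtain ⟨C0, hC0, hcut⟩ := cutting
  obtain ⟨C1, hC1, ht1⟩ := t1' s hs
  refine ⟨2 * ((2 + C0) * C1 * (C0 + 1)) + 12 * s * (C0 + 1), by
    have : 1 ≤ 12 * s * (C0 + 1) := by nlinarith
    omega, ?_⟩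
  intro X Y k ρ κ hf hk hρ hκ hM hN hdeg
  have hx0 : ∀ x ∈ X, x ≠ 0 := by
    rintro x hx rfl
    have h1 : 1 ≤ (nb Y 0).card := hk.trans (hdeg 0 hx).1
    obtain ⟨y, hy⟩ := Finset.card_pos.mp h1
    have h2 : Inc 0 y := (Finset.mem_filter.mp hy).2
    unfold Inc at h2
    simp at h2
  obtain ⟨X', hX', hXX', cl, Z, p, r, hcl, hZ, hT⟩ := hcut X Y (16 * k) ρ hx0
    (fun x hx => (hdeg x hx).2) (by omega) hρ (by nlinarith)
  -- reals
  have hρ0 : (0 : ℝ) < ρ := by exact_mod_cast hρ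
  have hρ1 : (1 : ℝ) ≤ ρ := by exact_mod_cast hρ
  have hκ0 : (0 : ℝ) < κ := by exact_mod_cast hκ
  have hC0' : (1 : ℝ) ≤ C0 := by exact_mod_cast hC0
  have hC1' : (1 : ℝ) ≤ C1 := by exact_mod_cast hC1
  have hs' : (2 : ℝ) ≤ s := by exact_mod_cast hs
  set N : ℝ := (X.card : ℝ) with hNdef
  set M : ℝ := (Y.card : ℝ) with hMdef
  have hN0 : 0 ≤ N := by positivity
  have hM0 : 0 ≤ M := by positivity
  -- group size
  set g : ℕ := X.card / ρ ^ 3 with hg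
  have hg1 : 1 ≤ g := by
    rw [hg]; exact (Nat.one_le_div_iff (by positivity)).mpr hN
  have hg0 : (0 : ℝ) < g := by exact_mod_cast hg1
  have hgle : (g : ℝ) ≤ N / (ρ : ℝ) ^ 3 := by
    rw [hg, hNdef]
    have := @Nat.cast_div_le ℝ _ _ _ X.card (ρ ^ 3)
    push_cast at this
    exact this
  have hNg : N ≤ 2 * g * (ρ : ℝ) ^ 3 := by
    have h1 : X.card < (g + 1) * ρ ^ 3 := by
      rw [hg, mul_comm]
      exact Nat.lt_mul_div_succ _ (by positivity)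
    have h2 : (X.card : ℝ) < ((g : ℝ) + 1) * (ρ : ℝ) ^ 3 := by exact_mod_cast h1
    have h3 : (1 : ℝ) ≤ g := by exact_mod_cast hg1
    have h4 : (0 : ℝ) < (ρ : ℝ) ^ 3 := by positivity
    nlinarith
  -- the sets
  set T : E → Finset E := fun x => (nb Y x).filter fun y => y ∉ Z (cl x) with hTdef
  have hsplit : ∀ x ∈ X', (nb Y x).card = (nb (Z (cl x)) x).card + (T x).card := by
    intro x hx
    have h1 : nb (Z (cl x)) x = (nb Y x).filter fun y => y ∈ Z (cl x) := by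
      ext y
      simp only [nb, Finset.mem_filter]
      constructor
      · rintro ⟨h1, h2⟩
        exact ⟨⟨(hZ (cl x)).1 h1, h2⟩, h1⟩
      · rintro ⟨⟨_, h2⟩, h3⟩
        exact ⟨h3, h2⟩
    rw [h1, hTdef]
    exact (Finset.card_filter_add_card_filter_not (s := nb Y x) (fun y => y ∈ Z (cl x))).symm
  have hfX' : Free s X' Y := hf.mono hX' (Subset.refl Y)
  -- exceptional incidences
  set J : Finset ℕ := Finset.range (C0 * ρ ^ 3) with hJ
  set D : Finset (E × E) := (J ×ˢ (Finset.univ : Finset (Fin 3))).image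
    (fun q => (p q.1 q.2, r q.1 q.2)) with hD
  have hDcard : D.card ≤ 3 * (C0 * ρ ^ 3) := by
    calc D.card ≤ (J ×ˢ (Finset.univ : Finset (Fin 3))).card := Finset.card_image_le
      _ = 3 * (C0 * ρ ^ 3) := by
          rw [Finset.card_product, hJ, Finset.card_range, Finset.card_univ, Fintype.card_fin]
          ring
  have hexc := exc_count s hs X' Y hfX' D T (by
    intro x hx
    have hTY : T x ⊆ Y := by
      intro y hy
      exact (Finset.mem_filter.mp (Finset.mem_filter.mp hy).1).1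
    refine ⟨hTY, ?_⟩
    rcases hT x hx (T x) hTY (by
      intro y hy
      have h1 := Finset.mem_filter.mp hy
      exact ⟨(Finset.mem_filter.mp h1.1).2, h1.2⟩) with h | ⟨i, h1, h2, h3⟩
    · left; omega
    · right
      refine ⟨(p (cl x) i, r (cl x) i), ?_, h1, h2, h3⟩
      rw [hD, Finset.mem_image]
      exact ⟨(cl x, i), Finset.mem_product.mpr ⟨Finset.mem_range.mpr (hcl x hx),
        Finset.mem_univ _⟩, rfl⟩)
  obtain ⟨e, he1, he2⟩ := hexc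
  have he3 : (e : ℝ) ≤ 2 * M + 6 * C0 * (Real.sqrt M * (ρ : ℝ) ^ 3) := by
    have hnn : 0 ≤ 6 * C0 * (Real.sqrt M * (ρ : ℝ) ^ 3) := by positivity
    rcases he2 with h | h
    · have : (e : ℝ) ≤ 2 * M := by rw [hMdef]; exact_mod_cast h
      linarith
    · have h1 : (e : ℝ) ^ 2 ≤ 2 * M * (D.card : ℝ) ^ 2 := by rw [hMdef]; exact_mod_cast h
      have h2 : (D.card : ℝ) ≤ 3 * (C0 * (ρ : ℝ) ^ 3) := by exact_mod_cast hDcard
      have h3 : (e : ℝ) ^ 2 ≤ (6 * C0 * (Real.sqrt M * (ρ : ℝ) ^ 3)) ^ 2 := by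
        calc (e : ℝ) ^ 2 ≤ 2 * M * (D.card : ℝ) ^ 2 := h1
          _ ≤ 2 * M * (3 * (C0 * (ρ : ℝ) ^ 3)) ^ 2 := by gcongr
          _ ≤ 4 * M * (3 * (C0 * (ρ : ℝ) ^ 3)) ^ 2 := by gcongr; norm_num
          _ = (6 * C0 * (Real.sqrt M * (ρ : ℝ) ^ 3)) ^ 2 := by
              rw [mul_pow (6 * (C0 : ℝ)), mul_pow (Real.sqrt M), Real.sq_sqrt hM0]
              ring
      have h4 := abs_le_of_sq_le_sq h3 hnn
      have h5 := (abs_le.mp h4).2
      linarith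
  -- incidences inside the cells
  have hcell : (∑ x ∈ X', ((nb (Z (cl x)) x).card : ℝ)) ≤
      (2 + C0) * (ρ : ℝ) ^ 3 * (C1 * (κ * (C0 * M / ρ) + (g : ℝ) ^ 3 / (κ : ℝ) ^ 4 +
        (g : ℝ) ^ 2)) := by
    set Bd : ℝ := C1 * (κ * (C0 * M / ρ) + (g : ℝ) ^ 3 / (κ : ℝ) ^ 4 + (g : ℝ) ^ 2) with hBd
    have hBd0 : 0 ≤ Bd := by positivity
    have h1 : (∑ x ∈ X', ((nb (Z (cl x)) x).card : ℝ)) =
        ∑ j ∈ J, (I (X'.filter fun x => cl x = j) (Z j) : ℝ) := by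
      rw [← Finset.sum_fiberwise_of_maps_to (s := X') (t := J) (g := cl)
        (fun x hx => Finset.mem_range.mpr (hcl x hx))]
      apply Finset.sum_congr rfl
      intro j _
      unfold I
      push_cast
      apply Finset.sum_congr rfl
      intro x hx
      rw [(Finset.mem_filter.mp hx).2]
    rw [h1]
    have h2 : ∀ j ∈ J, (I (X'.filter fun x => cl x = j) (Z j) : ℝ) ≤
        (((X'.filter fun x => cl x = j).card : ℝ) / g + 1) * Bd := by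
      intro j _
      have hZj : ((Z j).card : ℝ) ≤ C0 * M / ρ := by
        rw [le_div_iff₀ hρ0, hMdef]
        exact_mod_cast (hZ j).2
      have hfj : Free s (X'.filter fun x => cl x = j) (Z j) :=
        hfX'.mono (Finset.filter_subset _ _) (hZ j).1
      have h3 := T2stepAux.group s C1 κ g (Z j) hg1 (by linarith)
        (fun A hA => ht1 A (Z j) hA κ hκ) _ _ rfl hfj
      refine h3.trans ?_
      apply mul_le_mul_of_nonneg_left _ (by positivity)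
      rw [hBd]
      gcongr
    refine (Finset.sum_le_sum h2).trans ?_
    rw [← Finset.sum_mul]
    apply mul_le_mul_of_nonneg_right _ hBd0
    rw [Finset.sum_add_distrib, ← Finset.sum_div, Finset.sum_const, nsmul_eq_mul, mul_one]
    have h4 : (∑ j ∈ J, ((X'.filter fun x => cl x = j).card : ℝ)) = X'.card := by
      rw [Finset.card_eq_sum_card_fiberwise (f := cl) (t := J)
        (fun x hx => Finset.mem_coe.mpr (Finset.mem_range.mpr (hcl x hx)))]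
      push_cast
      rfl
    rw [h4, hJ, Finset.card_range]
    push_cast
    have h5 : (X'.card : ℝ) / g ≤ 2 * (ρ : ℝ) ^ 3 := by
      rw [div_le_iff₀ hg0]
      have : (X'.card : ℝ) ≤ N := by rw [hNdef]; exact_mod_cast Finset.card_le_card hX'
      nlinarith
    linarith
  -- everything together
  have htot : (k : ℝ) * X'.card ≤ (∑ x ∈ X', ((nb (Z (cl x)) x).card : ℝ)) +
      ∑ x ∈ X', ((T x).card : ℝ) := by
    rw [← Finset.sum_add_distrib]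
    calc (k : ℝ) * X'.card = ∑ x ∈ X', (k : ℝ) := by
          rw [Finset.sum_const, nsmul_eq_mul, mul_comm]
      _ ≤ _ := by
          apply Finset.sum_le_sum
          intro x hx
          have h1 := hsplit x hx
          have h2 := (hdeg x (hX' hx)).1
          have h3 : k ≤ (nb (Z (cl x)) x).card + (T x).card := by omega
          exact_mod_cast h3
  have hTsum : (∑ x ∈ X', ((T x).card : ℝ)) ≤ s * N + s * (2 * M + 6 * C0 * (Real.sqrt M *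
      (ρ : ℝ) ^ 3)) := by
    have h1 : (∑ x ∈ X', ((T x).card : ℝ)) ≤ s * X'.card + s * e := by exact_mod_cast he1
    have h2 : (X'.card : ℝ) ≤ N := by rw [hNdef]; exact_mod_cast Finset.card_le_card hX'
    calc (∑ x ∈ X', ((T x).card : ℝ)) ≤ s * X'.card + s * e := h1
      _ ≤ _ := by gcongr
  have hNN : N ≤ 2 * X'.card := by rw [hNdef]; exact_mod_cast hXX'
  have hgk := T2stepAux.calc1 (C0 : ℝ) C1 M N ρ κ g (by linarith) (by linarith) hM0 hN0 hρ0 hκ0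
    hg0 hgle
  have hsq : 0 ≤ Real.sqrt M * (ρ : ℝ) ^ 3 := by positivity
  have hA : 0 ≤ κ * M * (ρ : ℝ) ^ 2 + N ^ 3 / (ρ ^ 6 * κ ^ 4) + N ^ 2 / (ρ : ℝ) ^ 3 := by
    positivity
  have hfin : (k : ℝ) * N ≤ 2 * ((2 + C0) * C1 * (C0 + 1) * (κ * M * (ρ : ℝ) ^ 2 +
          N ^ 3 / (ρ ^ 6 * κ ^ 4) + N ^ 2 / (ρ : ℝ) ^ 3) + (s * N + s * (2 * M + 6 * C0 *
            (Real.sqrt M * (ρ : ℝ) ^ 3)))) := by
    have hk0 : (0 : ℝ) ≤ k := by positivity
    have : (k : ℝ) * N ≤ 2 * (k * X'.card) := by nlinarith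
    linarith
  exact T2stepAux.calc2 _ C0 C1 M N s _ _ hM0 hN0 hA hsq hfin

end Pool.Agent.H72.PP
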